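import Pool.Agent.H473.SM.Iv

set_option autoImplicit false

/-!
Averages over the shifts.
-/

namespace Pool.Agent.H473.SM

open Finset

theorem Av_add (H : ℕ) : ∀ (ms : List ℕ) (F G : List ℕ → ℝ),
    Av H ms (fun ss => F ss + G ss) = Av H ms F + Av H ms G
  | [], F, G => rfl
  | (m :: ms), F, G => by
    unfold Av
    simp only [Av_add H ms, sum_add_distrib, add_div]

theorem Av_mul (H : ℕ) (c : ℝ) : ∀ (ms : List ℕ) (F : List ℕ → ℝ),
    Av H ms (fun ss => c * F ss) = c * Av H ms F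
  | [], F => rfl
  | (m :: ms), F => by
    unfold Av
    simp only [Av_mul H c ms, ← mul_sum, mul_div_assoc]

theorem Av_mono (H : ℕ) : ∀ (ms : List ℕ) (F G : List ℕ → ℝ),
    (∀ ss, ss.length = ms.length → F ss ≤ G ss) → Av H ms F ≤ Av H ms G
  | [], F, G, h => h [] rfl
  | (m :: ms), F, G, h => by
    unfold Av
    apply div_le_div_of_nonneg_right _ (Nat.cast_nonneg _)
    apply sum_le_sum
    intro l _
    exact Av_mono H ms _ _ fun ss hss => h _ (by simp [hss])

theorem card_le (H : ℕ) (hH : 1 ≤ H) (c : ℝ) (hc : 0 ≤ c) : (∑ _l ∈ Icc 1 (H - 1), c) / H ≤ c := by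
  have hHr : (0 : ℝ) < H := by exact_mod_cast hH
  rw [sum_const, nsmul_eq_mul, div_le_iff₀ hHr, mul_comm c]
  apply mul_le_mul_of_nonneg_right _ hc
  rw [Nat.card_Icc]
  exact_mod_cast (by omega : H - 1 + 1 - 1 ≤ H)

theorem Av_const_le (H : ℕ) (hH : 1 ≤ H) (c : ℝ) (hc : 0 ≤ c) : ∀ (ms : List ℕ),
    Av H ms (fun _ => c) ≤ c
  | [] => le_refl _
  | (m :: ms) => by
    unfold Av
    refine le_trans ?_ (card_le H hH c hc)
    apply div_le_div_of_nonneg_right _ (Nat.cast_nonneg _)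
    exact sum_le_sum fun l _ => Av_const_le H hH c hc ms

theorem Av_NS (H : ℕ) (hH : 1 ≤ H) (B : ℝ) (hB : 0 ≤ B) : ∀ (ms : List ℕ) (G : ℕ → ℝ), (∀ t, 0 ≤ G t) →
    (∀ m ∈ ms, ∀ t₀ : ℕ, (∑ l ∈ Icc 1 (H - 1), G (t₀ + l * m)) / H ≤ B) →
    Av H ms (fun ss => ((NS ss).map G).sum) ≤ (2 ^ ms.length - 1) * B
  | [], G, _, _ => by simp [Av, NS]
  | (m :: ms), G, hG, hm => by
    have hHr : (0 : ℝ) < H := by exact_mod_cast hH
    unfold Av
    have h1 : ∀ l : ℕ, Av H ms (fun ss => ((NS ((l * m) :: ss)).map G).sum) ≤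
        2 * ((2 ^ ms.length - 1) * B) + G (l * m) := by
      intro l
      have e : (fun ss => ((NS ((l * m) :: ss)).map G).sum) = fun ss => (((NS ss).map G).sum +
          (fun _ : List ℕ => G (l * m)) ss) + ((NS ss).map (fun t => G (t + l * m))).sum := by
        funext ss
        simp only [NS, Multiset.map_add, Multiset.map_cons, Multiset.sum_add, Multiset.sum_cons,
          Multiset.map_map, Function.comp, zero_add]
        ring
      rw [e, Av_add, Av_add]
      have a1 := Av_NS H hH B hB ms G hG (fun m' hm' => hm m' (List.mem_cons_of_mem _ hm'))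
      have a2 := Av_NS H hH B hB ms (fun t => G (t + l * m)) (fun t => hG _) (fun m' hm' t₀ => by
        have h2 := hm m' (List.mem_cons_of_mem _ hm') (t₀ + l * m)
        refine le_trans (le_of_eq ?_) h2
        congr 1
        apply sum_congr rfl
        intro x _
        congr 1
        ring)
      have a3 := Av_const_le H hH (G (l * m)) (hG _) ms
      linarith
    have h2 := hm m List.mem_cons_self 0
    simp only [zero_add] at h2
    have h3 : (1 : ℝ) ≤ 2 ^ ms.length := one_le_pow₀ (by norm_num)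
    have h4 := card_le H hH (2 * ((2 ^ ms.length - 1) * B)) (by
      have : 0 ≤ (2 : ℝ) ^ ms.length - 1 := by linarith
      positivity)
    calc (∑ l ∈ Icc 1 (H - 1), Av H ms (fun ss => ((NS ((l * m) :: ss)).map G).sum)) / H
        ≤ (∑ l ∈ Icc 1 (H - 1), (2 * ((2 ^ ms.length - 1) * B) + G (l * m))) / H := by
          apply div_le_div_of_nonneg_right _ hHr.le
          exact sum_le_sum fun l _ => h1 l
      _ = (∑ l ∈ Icc 1 (H - 1), (2 * ((2 ^ ms.length - 1) * B))) / H +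
          (∑ l ∈ Icc 1 (H - 1), G (l * m)) / H := by
          rw [sum_add_distrib, add_div]
      _ ≤ 2 * ((2 ^ ms.length - 1) * B) + B := add_le_add h4 h2
      _ = _ := by
          rw [List.length_cons, pow_succ]
          ring

theorem count_le (H d m t₀ : ℕ) (hd : 0 < d) (hdm : d.Coprime m) :
    (((Icc 1 (H - 1)).filter (fun l => d ∣ t₀ + l * m)).card : ℝ) ≤ H / d + 1 := by
  have hd0 : (0 : ℝ) < d := by exact_mod_cast hd
  have h1 : ((Icc 1 (H - 1)).filter (fun l => d ∣ t₀ + l * m)).card ≤ (range (H / d + 1)).card := by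
    apply Finset.card_le_card_of_injOn (fun l => l / d)
    · intro l hl
      simp only [coe_filter, mem_Icc, Set.mem_setOf_eq] at hl
      simp only [coe_range, Set.mem_Iio]
      have : l / d ≤ H / d := Nat.div_le_div_right (by omega)
      omega
    · intro l hl l' hl' hll
      simp only [coe_filter, mem_Icc, Set.mem_setOf_eq] at hl hl'
      simp only at hll
      have h2 : l % d = l' % d := by
        have h3 : (l * m) ≡ (l' * m) [MOD d] := by
          have h4 : t₀ + l * m ≡ t₀ + l' * m [MOD d] := by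
            rw [Nat.ModEq, Nat.mod_eq_zero_of_dvd hl.2, Nat.mod_eq_zero_of_dvd hl'.2]
          exact Nat.ModEq.add_left_cancel' _ h4
        exact Nat.ModEq.cancel_right_of_coprime hdm h3
      rw [← Nat.div_add_mod l d, ← Nat.div_add_mod l' d, hll, h2]
  rw [card_range] at h1
  have h2 : (((H / d : ℕ) : ℝ)) ≤ H / d := Nat.cast_div_le
  have h3 : (((Icc 1 (H - 1)).filter (fun l => d ∣ t₀ + l * m)).card : ℝ) ≤ ((H / d : ℕ) : ℝ) + 1 := by
    exact_mod_cast h1
  linarith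

theorem gcd_avg (H : ℕ) (hH : 1 ≤ H) (θ : ℝ) (hθ0 : 0 ≤ θ) (hθ1 : θ ≤ 1) (r m : ℕ) (hr : 0 < r)
    (hrm : r.Coprime m) (t₀ : ℕ) :
    (∑ l ∈ Icc 1 (H - 1), ((r.gcd (t₀ + l * m) : ℕ) : ℝ) ^ θ) / H ≤
      r.divisors.card * (1 + (r : ℝ) ^ θ / H) := by
  have hHr : (0 : ℝ) < H := by exact_mod_cast hH
  have h1 : ∀ l : ℕ, ((r.gcd (t₀ + l * m) : ℕ) : ℝ) ^ θ ≤
      ∑ d ∈ r.divisors, if d ∣ t₀ + l * m then (d : ℝ) ^ θ else 0 := by
    intro l
    have hmem : r.gcd (t₀ + l * m) ∈ r.divisors := by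
      rw [Nat.mem_divisors]
      exact ⟨Nat.gcd_dvd_left _ _, hr.ne'⟩
    have h2 := Finset.single_le_sum (f := fun d => if d ∣ t₀ + l * m then (d : ℝ) ^ θ else 0)
      (fun d _ => by
        split_ifs
        · positivity
        · exact le_refl _) hmem
    simp only [if_pos (Nat.gcd_dvd_right r (t₀ + l * m))] at h2
    exact h2
  rw [div_le_iff₀ hHr]
  calc ∑ l ∈ Icc 1 (H - 1), ((r.gcd (t₀ + l * m) : ℕ) : ℝ) ^ θ
      ≤ ∑ l ∈ Icc 1 (H - 1), ∑ d ∈ r.divisors, (if d ∣ t₀ + l * m then (d : ℝ) ^ θ else 0) :=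
        sum_le_sum fun l _ => h1 l
    _ = ∑ d ∈ r.divisors, ∑ l ∈ Icc 1 (H - 1), (if d ∣ t₀ + l * m then (d : ℝ) ^ θ else 0) := sum_comm
    _ ≤ ∑ d ∈ r.divisors, ((H : ℝ) + (r : ℝ) ^ θ) := by
        apply sum_le_sum
        intro d hd
        rw [Nat.mem_divisors] at hd
        have hd0 : 0 < d := Nat.pos_of_dvd_of_pos hd.1 hr
        have hd1 : (1 : ℝ) ≤ d := by exact_mod_cast hd0
        rw [← Finset.sum_filter, sum_const, nsmul_eq_mul]
        have h2 := count_le H d m t₀ hd0 (Nat.Coprime.coprime_dvd_left hd.1 hrm)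
        have h3 : (d : ℝ) ^ θ ≤ d := by
          calc (d : ℝ) ^ θ ≤ (d : ℝ) ^ (1 : ℝ) := Real.rpow_le_rpow_of_exponent_le hd1 hθ1
            _ = d := Real.rpow_one _
        have h4 : (d : ℝ) ^ θ ≤ (r : ℝ) ^ θ := by
          apply Real.rpow_le_rpow (by linarith) _ hθ0
          exact_mod_cast Nat.le_of_dvd hr hd.1
        calc _ ≤ ((H : ℝ) / d + 1) * (d : ℝ) ^ θ := mul_le_mul_of_nonneg_right h2 (by positivity)
          _ = (H : ℝ) / d * (d : ℝ) ^ θ + (d : ℝ) ^ θ := by ring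
          _ ≤ (H : ℝ) / d * d + (r : ℝ) ^ θ := by gcongr
          _ = _ := by field_simp
    _ = _ := by
        rw [sum_const, nsmul_eq_mul]
        field_simp

theorem dvd_avg (H : ℕ) (hH : 1 ≤ H) (P m : ℕ) (hP : 0 < P) (hPm : P.Coprime m) (t₀ : ℕ) :
    (∑ l ∈ Icc 1 (H - 1), (if P ∣ t₀ + l * m then (1 : ℝ) else 0)) / H ≤ 1 / P + 1 / H := by
  have hHr : (0 : ℝ) < H := by exact_mod_cast hH
  have hPr : (0 : ℝ) < P := by exact_mod_cast hP
  rw [← Finset.sum_filter, sum_const, nsmul_eq_mul, mul_one, div_le_iff₀ hHr]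
  refine (count_le H P m t₀ hP hPm).trans (le_of_eq ?_)
  field_simp

theorem prod_le_pow (m : Multiset ℝ) : (∀ x ∈ m, 1 ≤ x) →
    ∃ M : ℝ, 1 ≤ M ∧ (M = 1 ∨ M ∈ m) ∧ m.prod ≤ M ^ (Multiset.card m) := by
  induction m using Multiset.induction_on with
  | empty => exact fun _ => ⟨1, le_refl _, Or.inl rfl, by simp⟩
  | cons x m ih =>
    intro h
    obtain ⟨M, hM1, hM2, hM3⟩ := ih (fun y hy => h y (Multiset.mem_cons_of_mem hy))
    have hx : 1 ≤ x := h x (Multiset.mem_cons_self _ _)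
    rw [Multiset.prod_cons, Multiset.card_cons]
    rcases le_total x M with hxM | hxM
    · refine ⟨M, hM1, ?_, ?_⟩
      · rcases hM2 with h | h
        · exact Or.inl h
        · exact Or.inr (Multiset.mem_cons_of_mem h)
      · rw [pow_succ']
        calc x * m.prod ≤ x * M ^ (Multiset.card m) := mul_le_mul_of_nonneg_left hM3 (by linarith)
          _ ≤ M * M ^ (Multiset.card m) := mul_le_mul_of_nonneg_right hxM (by positivity)
    · refine ⟨x, hx, Or.inr (Multiset.mem_cons_self _ _), ?_⟩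
      rw [pow_succ']
      calc x * m.prod ≤ x * M ^ (Multiset.card m) := mul_le_mul_of_nonneg_left hM3 (by linarith)
        _ ≤ x * x ^ (Multiset.card m) := by gcongr

theorem prod_gcd_le (θ θ' : ℝ) (hθ : 0 ≤ θ) (r : ℕ) (hr : 0 < r) (ss : List ℕ)
    (hθ' : θ * 2 ^ ss.length ≤ θ') :
    ((NS ss).map (fun t => ((r.gcd t : ℕ) : ℝ) ^ θ)).prod ≤
      1 + ((NS ss).map (fun t => ((r.gcd t : ℕ) : ℝ) ^ θ')).sum := by
  have hg1 : ∀ t : ℕ, (1 : ℝ) ≤ ((r.gcd t : ℕ) : ℝ) := by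
    intro t
    exact_mod_cast Nat.gcd_pos_of_pos_left t hr
  obtain ⟨M, hM1, hM2, hM3⟩ := prod_le_pow ((NS ss).map (fun t => ((r.gcd t : ℕ) : ℝ) ^ θ)) (by
    intro x hx
    rw [Multiset.mem_map] at hx
    obtain ⟨t, _, rfl⟩ := hx
    exact Real.one_le_rpow (hg1 t) hθ)
  refine hM3.trans ?_
  have hnn : ∀ x ∈ (NS ss).map (fun t => ((r.gcd t : ℕ) : ℝ) ^ θ'), 0 ≤ x := by
    intro x hx
    rw [Multiset.mem_map] at hx
    obtain ⟨t, _, rfl⟩ := hx
    positivity
  rcases hM2 with h | h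
  · rw [h, one_pow]
    have := Multiset.sum_nonneg hnn
    linarith
  · rw [Multiset.mem_map] at h
    obtain ⟨t, ht, htM⟩ := h
    have h1 : ((r.gcd t : ℕ) : ℝ) ^ θ' ≤ ((NS ss).map (fun t => ((r.gcd t : ℕ) : ℝ) ^ θ')).sum :=
      Multiset.single_le_sum hnn _ (Multiset.mem_map_of_mem _ ht)
    have h2 : M ^ (Multiset.card ((NS ss).map (fun t => ((r.gcd t : ℕ) : ℝ) ^ θ))) ≤
        ((r.gcd t : ℕ) : ℝ) ^ θ' := by
      rw [← htM, Multiset.card_map, ← Real.rpow_natCast, ← Real.rpow_mul (by have := hg1 t; linarith)]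
      apply Real.rpow_le_rpow_of_exponent_le (hg1 t)
      refine le_trans ?_ hθ'
      apply mul_le_mul_of_nonneg_left _ hθ
      have := card_NS ss
      have h3 : Multiset.card (NS ss) ≤ 2 ^ ss.length := by omega
      exact_mod_cast h3
    linarith

end Pool.Agent.H473.SM
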