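import Pool.Agent.H473.SM.Avg

set_option autoImplicit false

/-!
The two bounds for the sums of characters to moduli with a factorization.
-/

namespace Pool.Agent.H473.SM

open Finset

/-- the bound for a smooth factor `r` -/
theorem coreA (H : ℕ) (hH : 1 ≤ H) (N : ℝ) (hN0 : 0 < N) (ms : List ℕ)
    (hms : ∀ m ∈ ms, (H : ℝ) * m ≤ N) (f g : ℤ → ℂ) (hf : Per ms f) (r : ℕ) (hr : 0 < r)
    (hcop : ∀ m ∈ ms, r.Coprime m) (θ θ' : ℝ) (hθ : 0 ≤ θ) (hθ' : θ * 2 ^ ms.length ≤ θ') (hθ1 : θ' ≤ 1)
    (hg : CSb ms.length θ r g) (a b : ℤ) (hab : ((b - a : ℤ) : ℝ) ≤ N) :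
    ‖∑ n ∈ Ioc a b, f n * g n‖ ^ (2 ^ ms.length) ≤ CA ms.length * N ^ (2 ^ ms.length - 1) *
      (N / H + (N / r * ((r.divisors.card : ℝ) ^ ms.length * (r : ℝ) ^ (1 - θ)) *
        (1 + 2 ^ ms.length * (r.divisors.card * (1 + (r : ℝ) ^ θ' / H))) + r)) := by
  obtain ⟨g1, g2, g3⟩ := hg
  have hHr : (0 : ℝ) < H := by exact_mod_cast hH
  have hr0 : (0 : ℝ) < r := by exact_mod_cast hr
  have hθ'0 : 0 ≤ θ' := le_trans (by positivity) hθ'
  set c : ℝ := N / r * ((r.divisors.card : ℝ) ^ ms.length * (r : ℝ) ^ (1 - θ)) with hc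
  have hc0 : 0 ≤ c := by positivity
  set Gf : ℕ → ℝ := fun t => ((r.gcd t : ℕ) : ℝ) ^ θ' with hGf
  set F : List ℕ → ℝ := fun ss => (c * (1 + ((NS ss).map Gf).sum)) + r with hF
  have h1 := iter H hH N hN0 ms hms f g F hf g2 (by
    intro ss hss a b hab
    obtain ⟨z, L, hL1, _, hL3⟩ := interval (Dl ss g) r hr (Dl_per ss g r g1) a b N hN0.le hab
    refine hL3.trans ?_
    simp only [hF]
    apply add_le_add
    · have h2 := g3 ss hss
      have h3 := prod_gcd_le θ θ' hθ r hr ss (by rw [hss]; exact hθ')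
      calc N / r * ‖∑ x ∈ range r, Dl ss g x‖ ≤ N / r * ((r.divisors.card : ℝ) ^ ms.length *
            (r : ℝ) ^ (1 - θ) * ((NS ss).map (fun t => ((r.gcd t : ℕ) : ℝ) ^ θ)).prod) := by gcongr
        _ ≤ N / r * ((r.divisors.card : ℝ) ^ ms.length *
            (r : ℝ) ^ (1 - θ) * (1 + ((NS ss).map Gf).sum)) := by gcongr
        _ = _ := by rw [hc]; ring
    · refine (norm_sum_le _ _).trans ?_
      calc _ ≤ ∑ i ∈ range L, (1 : ℝ) := sum_le_sum fun i _ => Dl_norm ss g g2 _
        _ = L := by simp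
        _ ≤ r := by exact_mod_cast hL1.le) a b hab
  refine h1.trans ?_
  apply mul_le_mul_of_nonneg_left _ (by have := CA_pos ms.length; positivity)
  apply add_le_add (le_refl _)
  have hB : (0 : ℝ) ≤ r.divisors.card * (1 + (r : ℝ) ^ θ' / H) := by positivity
  have h4 := Av_NS H hH _ hB ms Gf (fun t => by rw [hGf]; positivity) (fun m hm t₀ =>
    gcd_avg H hH θ' hθ'0 hθ1 r m hr (hcop m hm) t₀)
  have e : Av H ms F = c * (Av H ms (fun _ => (1 : ℝ)) + Av H ms (fun ss => ((NS ss).map Gf).sum)) +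
      Av H ms (fun _ => (r : ℝ)) := by
    rw [← Av_add, ← Av_mul, ← Av_add]
  rw [e]
  have h5 := Av_const_le H hH 1 zero_le_one ms
  have h6 := Av_const_le H hH r hr0.le ms
  apply add_le_add _ h6
  apply mul_le_mul_of_nonneg_left _ hc0
  have h7 : ((2 : ℝ) ^ ms.length - 1) * (r.divisors.card * (1 + (r : ℝ) ^ θ' / H)) ≤
      2 ^ ms.length * (r.divisors.card * (1 + (r : ℝ) ^ θ' / H)) := by
    apply mul_le_mul_of_nonneg_right _ hB
    linarith
  linarith

theorem card_bad (S : Multiset ℕ) (P L : ℕ) (hL : L ≤ P)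
    [DecidablePred fun h => ∃ t ∈ S, P ∣ t + h] :
    ((Icc 1 (L - 1)).filter (fun h => ∃ t ∈ S, P ∣ t + h)).card ≤ Multiset.card S := by
  classical
  have h1 : (Icc 1 (L - 1)).filter (fun h => ∃ t ∈ S, P ∣ t + h) ⊆
      (S.toFinset.image (fun t => (P - t % P) % P)) := by
    intro h hh
    rw [mem_filter, mem_Icc] at hh
    obtain ⟨⟨h1, h2⟩, t, ht, hd⟩ := hh
    rw [mem_image]
    refine ⟨t, Multiset.mem_toFinset.2 ht, ?_⟩
    have hP : 0 < P := by omega
    have hlt : t % P < P := Nat.mod_lt _ hP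
    have h3 : P ∣ t % P + h := by
      have h4 : t % P + h ≡ t + h [MOD P] := Nat.ModEq.add_right _ (Nat.mod_modEq _ _)
      exact (Nat.modEq_zero_iff_dvd.1 (h4.trans (Nat.modEq_zero_iff_dvd.2 hd)))
    obtain ⟨k, hk⟩ := h3
    have hk1 : k = 1 := by
      have h5 : P * k < P * 2 := by omega
      have h6 : 0 < P * k := by omega
      have h7 : k < 2 := Nat.lt_of_mul_lt_mul_left h5
      have h8 : 0 < k := Nat.pos_of_mul_pos_left h6 |> fun h => by
        rcases Nat.eq_zero_or_pos k with h | h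
        · rw [h, mul_zero] at h6
          omega
        · exact h
      omega
    rw [hk1, mul_one] at hk
    have h9 : P - t % P = h := by omega
    rw [h9]
    exact Nat.mod_eq_of_lt (by omega)
  calc _ ≤ _ := card_le_card h1
    _ ≤ S.toFinset.card := card_image_le
    _ ≤ _ := Multiset.toFinset_card_le S

/-- the bound for a large prime factor -/
theorem coreB (H : ℕ) (hH : 1 ≤ H) (N : ℝ) (hN0 : 0 < N) (ms : List ℕ)
    (hms : ∀ m ∈ ms, (H : ℝ) * m ≤ N) (f : ℤ → ℂ) (hf : Per ms f) (P : ℕ) [Fact P.Prime]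
    (hcop : ∀ m ∈ ms, P.Coprime m) (χ : DirichletCharacter ℂ P) (hχ : χ ≠ 1) (T : ℝ) (hT0 : 0 ≤ T)
    (hT : 16 * (N * (P + 2 * (N * (2 ^ (ms.length + 1) * Real.sqrt P) + 2 ^ ms.length * P))) ≤ T ^ 3)
    (a b : ℤ) (hab : ((b - a : ℤ) : ℝ) ≤ N) :
    ‖∑ n ∈ Ioc a b, f n * χ (n : ZMod P)‖ ^ (2 ^ ms.length) ≤ CA ms.length * N ^ (2 ^ ms.length - 1) *
      (N / H + ((N / P * (2 ^ ms.length * Real.sqrt P) + T) + N * (2 ^ ms.length * (1 / P + 1 / H)))) := by
  have hpp : P.Prime := Fact.out
  have hHr : (0 : ℝ) < H := by exact_mod_cast hH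
  have hP0 : (0 : ℝ) < P := by exact_mod_cast hpp.pos
  set g : ℤ → ℂ := fun n => χ (n : ZMod P) with hg
  have g1 : ∀ n, g (n + P) = g n := by intro n; simp [hg]
  have g2 : ∀ n, ‖g n‖ ≤ 1 := fun n => DirichletCharacter.norm_le_one χ _
  set Gf : ℕ → ℝ := fun t => if P ∣ t then 1 else 0 with hGf
  set A : ℝ := N / P * (2 ^ ms.length * Real.sqrt P) + T with hA
  have hA0 : 0 ≤ A := by positivity
  set F : List ℕ → ℝ := fun ss => A + N * ((NS ss).map Gf).sum with hF
  have hGf0 : ∀ t, 0 ≤ Gf t := by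
    intro t
    simp only [hGf]
    split_ifs <;> norm_num
  have hbound : ∀ ss : List ℕ, ss.length = ms.length → ∀ a b : ℤ, ((b - a : ℤ) : ℝ) ≤ N →
      ‖∑ n ∈ Ioc a b, Dl ss g n‖ ≤ F ss := by
    intro ss hss a b hab
    have hDn := Dl_norm ss g g2
    by_cases hall : ∀ t ∈ NS ss, ¬ P ∣ t
    · obtain ⟨z, L, hL1, hL2, hL3⟩ := interval (Dl ss g) P hpp.pos (Dl_per ss g P g1) a b N hN0.le hab
      have h2 := prime_sum P χ hχ ss hall
      have hE : ∑ h ∈ Icc 1 (L - 1), ‖∑ x ∈ range P, Dl ss g (x + (h : ℕ)) *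
          (starRingEnd ℂ) (Dl ss g x)‖ ≤ L * (2 ^ (ms.length + 1) * Real.sqrt P) + 2 ^ ms.length * P := by
        classical
        set bad := (Icc 1 (L - 1)).filter (fun h => ∃ t ∈ NS ss, P ∣ t + h) with hbad
        have hterm : ∀ h ∈ Icc 1 (L - 1), ‖∑ x ∈ range P, Dl ss g (x + (h : ℕ)) *
            (starRingEnd ℂ) (Dl ss g x)‖ ≤ 2 ^ (ms.length + 1) * Real.sqrt P +
              (if (∃ t ∈ NS ss, P ∣ t + h) then (P : ℝ) else 0) := by
          intro h hh
          rw [mem_Icc] at hh
          by_cases hb : ∃ t ∈ NS ss, P ∣ t + h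
          · rw [if_pos hb]
            have h3 : ‖∑ x ∈ range P, Dl ss g (x + (h : ℕ)) * (starRingEnd ℂ) (Dl ss g x)‖ ≤ P := by
              refine (norm_sum_le _ _).trans ?_
              calc _ ≤ ∑ i ∈ range P, (1 : ℝ) := sum_le_sum fun i _ => by
                    rw [norm_mul, Complex.norm_conj]
                    exact mul_le_one₀ (hDn _) (norm_nonneg _) (hDn _)
                _ = P := by simp
            have h4 : (0 : ℝ) ≤ 2 ^ (ms.length + 1) * Real.sqrt P := by positivity
            linarith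
          · rw [if_neg hb, add_zero]
            have h3 := prime_sum P χ hχ (h :: ss) (by
              intro t ht
              simp only [NS, Multiset.map_cons, Multiset.mem_add, Multiset.mem_cons,
                Multiset.mem_map, zero_add] at ht
              rcases ht with ht | ht | ⟨t', ht', ht⟩
              · exact hall t ht
              · rw [ht]
                intro hd
                have := Nat.le_of_dvd (by omega) hd
                omega
              · intro hd
                exact hb ⟨t', ht', by rw [ht]; exact hd⟩)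
            have h4 : ∑ x ∈ range P, Dl ss g (x + (h : ℕ)) * (starRingEnd ℂ) (Dl ss g x) =
                ∑ x ∈ range P, Dl (h :: ss) g x := by
              apply sum_congr rfl
              intro x _
              rw [Dl_cons]
            rw [h4]
            refine h3.trans (le_of_eq ?_)
            rw [List.length_cons, hss]
            push_cast
            ring
        refine (sum_le_sum hterm).trans ?_
        rw [sum_add_distrib, ← Finset.sum_filter, sum_const, sum_const, nsmul_eq_mul, nsmul_eq_mul]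
        have h5 : (((Icc 1 (L - 1)).card : ℕ) : ℝ) ≤ L := by
          rw [Nat.card_Icc]
          exact_mod_cast (by omega : L - 1 + 1 - 1 ≤ L)
        have h6 : ((bad.card : ℕ) : ℝ) ≤ 2 ^ ms.length := by
          have h7 := card_bad (NS ss) P L hL1.le
          have h8 := card_NS ss
          rw [hss] at h8
          have h9 : bad.card ≤ 2 ^ ms.length := by
            rw [hbad]
            omega
          exact_mod_cast h9
        gcongr
      have h3 := second_moment (Dl ss g) P hpp.two_le (Dl_per ss g P g1) hDn L hL1.le z _ hE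
      have h4 : ‖∑ i ∈ range L, Dl ss g (z + i)‖ ≤ T := by
        apply le_of_pow_le_pow_left₀ (n := 3) (by norm_num) hT0
        refine (h3.trans ?_).trans hT
        gcongr
      have h5 : 0 ≤ ((NS ss).map Gf).sum := by
        apply Multiset.sum_nonneg
        intro x hx
        rw [Multiset.mem_map] at hx
        obtain ⟨t, _, rfl⟩ := hx
        exact hGf0 t
      have h6 : N / P * ‖∑ x ∈ range P, Dl ss g x‖ ≤ N / P * (2 ^ ms.length * Real.sqrt P) := by
        apply mul_le_mul_of_nonneg_left _ (by positivity)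
        rw [hss] at h2
        push_cast at h2
        exact h2
      simp only [hF, hA]
      have h7 : 0 ≤ N * ((NS ss).map Gf).sum := by positivity
      linarith
    · push Not at hall
      obtain ⟨t, ht, htP⟩ := hall
      have h1 : ‖∑ n ∈ Ioc a b, Dl ss g n‖ ≤ N := by
        refine (norm_sum_le _ _).trans ?_
        calc _ ≤ ∑ i ∈ Ioc a b, (1 : ℝ) := sum_le_sum fun i _ => hDn _
          _ = (Ioc a b).card := by simp
          _ ≤ N := card_Ioc_le a b N hab hN0.le
      have h2 : Gf t ≤ ((NS ss).map Gf).sum := by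
        apply Multiset.single_le_sum _ _ (Multiset.mem_map_of_mem _ ht)
        intro x hx
        rw [Multiset.mem_map] at hx
        obtain ⟨t, _, rfl⟩ := hx
        exact hGf0 t
      have h3 : Gf t = 1 := by simp only [hGf, if_pos htP]
      rw [h3] at h2
      simp only [hF]
      nlinarith
  have h1 := iter H hH N hN0 ms hms f g F hf g2 hbound a b hab
  refine h1.trans ?_
  apply mul_le_mul_of_nonneg_left _ (by have := CA_pos ms.length; positivity)
  apply add_le_add (le_refl _)
  have hB : (0 : ℝ) ≤ 1 / P + 1 / H := by positivity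
  have h4 := Av_NS H hH _ hB ms Gf hGf0 (fun m hm t₀ => dvd_avg H hH P m hpp.pos (hcop m hm) t₀)
  have e : Av H ms F = Av H ms (fun _ => A) + N * Av H ms (fun ss => ((NS ss).map Gf).sum) := by
    rw [← Av_mul, ← Av_add]
  rw [e]
  have h5 := Av_const_le H hH A hA0 ms
  apply add_le_add h5
  apply mul_le_mul_of_nonneg_left _ hN0.le
  refine h4.trans ?_
  apply mul_le_mul_of_nonneg_right _ hB
  linarith

end Pool.Agent.H473.SM
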