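import Pool.Agent.H473.SM.Pr
import Pool.Graph.R_pool_sql_team_seeded_3997aac3.Results.MP_081200_nt.AlmostAllCubicCharacters

set_option autoImplicit false

/-!
The number of the primitive cubic characters with smooth conductors.
-/

namespace Pool.Agent.H473.SM

open Finset
open Pool.Agent.Q152.CC (family)

/-- primitive characters with cube `1` and with conductor at most `x` and prime factors at most `y` -/
def fam (x y : ℝ) : Set (Σ m : ℕ, DirichletCharacter ℂ m) :=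
  {χ | 1 ≤ χ.1 ∧ (χ.1 : ℝ) ≤ x ∧ χ.2.IsPrimitive ∧ χ.2 ^ 3 = 1 ∧
    ∀ p : ℕ, p.Prime → p ∣ χ.1 → (p : ℝ) ≤ y}

theorem fam_sub (x y : ℝ) : fam x y ⊆ family ⌊x⌋₊ := by
  rintro χ ⟨h1, h2, h3, h4, _⟩
  exact ⟨h1, Nat.le_floor h2, h3, h4⟩

theorem fam_fin (x y : ℝ) : (fam x y).Finite :=
  (Pool.Agent.Results.MP_081200_nt.AlmostAllCubicCharacters.fin _).subset (fam_sub x y)

/-- the finite set -/
noncomputable def F (x y : ℝ) : Finset (Σ m : ℕ, DirichletCharacter ℂ m) := (fam_fin x y).toFinset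

theorem mem_F {x y : ℝ} {χ : Σ m : ℕ, DirichletCharacter ℂ m} : χ ∈ F x y ↔ χ ∈ fam x y := by
  unfold F
  exact Set.Finite.mem_toFinset _

theorem F_card (x y : ℝ) : (F x y).card = (fam x y).ncard := by
  unfold F
  exact (Set.ncard_eq_toFinset_card _ _).symm

theorem F_card_le (x y : ℝ) (hx : 1 ≤ x) : ((F x y).card : ℝ) ≤ 112 * x := by
  rw [F_card]
  have h1 : (fam x y).ncard ≤ (family ⌊x⌋₊).ncard :=
    Set.ncard_le_ncard (fam_sub x y) (Pool.Agent.Results.MP_081200_nt.AlmostAllCubicCharacters.fin _)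
  have h2 := Pool.Agent.Results.MP_081200_nt.AlmostAllCubicCharacters.upper ⌊x⌋₊
    (Nat.le_floor (by simpa using hx))
  have h3 : ((⌊x⌋₊ : ℕ) : ℝ) ≤ x := Nat.floor_le (by linarith)
  have h4 : (((fam x y).ncard : ℕ) : ℝ) ≤ (((family ⌊x⌋₊).ncard : ℕ) : ℝ) := by exact_mod_cast h1
  linarith

theorem F_mono (x y y' : ℝ) (h : y ≤ y') : F x y ⊆ F x y' := by
  intro χ hχ
  rw [mem_F] at hχ ⊢
  obtain ⟨h1, h2, h3, h4, h5⟩ := hχ
  exact ⟨h1, h2, h3, h4, fun p hp hd => (h5 p hp hd).trans h⟩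

theorem F_mono' (x x' y : ℝ) (h : x ≤ x') : F x y ⊆ F x' y := by
  intro χ hχ
  rw [mem_F] at hχ ⊢
  obtain ⟨h1, h2, h3, h4, h5⟩ := hχ
  exact ⟨h1, h2.trans h, h3, h4, h5⟩

theorem F_lower : ∃ c : ℝ, 0 < c ∧ ∃ x₀ : ℝ, 1 ≤ x₀ ∧ ∀ x : ℝ, x₀ ≤ x → ∀ y : ℝ, x ≤ y →
    c * x ≤ ((F x y).card : ℝ) := by
  obtain ⟨c, hc, P₀, h⟩ := Pool.Agent.Results.MP_081200_nt.AlmostAllCubicCharacters.lower
  refine ⟨c / 2, by positivity, max 1 (P₀ + 1), le_max_left _ _, fun x hx y hxy => ?_⟩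
  have hx1 : 1 ≤ x := (le_max_left _ _).trans hx
  have hx2 : (P₀ : ℝ) + 1 ≤ x := (le_max_right _ _).trans hx
  have h1 := h ⌊x⌋₊ (Nat.le_floor (by linarith))
  have h2 : x < ⌊x⌋₊ + 1 := Nat.lt_floor_add_one x
  have h3 : 1 ≤ ⌊x⌋₊ := Nat.le_floor (by simpa using hx1)
  have h3' : (1 : ℝ) ≤ ⌊x⌋₊ := by exact_mod_cast h3
  have hsub : Pool.Agent.Results.MP_081200_nt.AlmostAllCubicCharacters.Cubic ⌊x⌋₊ ⊆ fam x y := by
    rintro χ ⟨a1, a2, a3, a4, _⟩
    have a5 : (χ.1 : ℝ) ≤ x := (Nat.le_floor_iff (by linarith)).1 a2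
    refine ⟨a1, a5, a3, a4, fun p _ hd => ?_⟩
    have : (p : ℝ) ≤ χ.1 := by exact_mod_cast Nat.le_of_dvd (by omega) hd
    linarith
  have h4 := Set.ncard_le_ncard hsub (fam_fin x y)
  rw [F_card]
  have h5 : (((Pool.Agent.Results.MP_081200_nt.AlmostAllCubicCharacters.Cubic ⌊x⌋₊).ncard : ℕ) : ℝ) ≤
      (((fam x y).ncard : ℕ) : ℝ) := by exact_mod_cast h4
  have h6 : c / 2 * x ≤ c * ⌊x⌋₊ := by nlinarith
  linarith

/-- multiplication by a character modulo a prime -/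
noncomputable def mulp (p : ℕ) (ψ : DirichletCharacter ℂ p) (χ : Σ m : ℕ, DirichletCharacter ℂ m) :
    Σ m : ℕ, DirichletCharacter ℂ m :=
  ⟨p * χ.1, DirichletCharacter.changeLevel (dvd_mul_right p χ.1) ψ *
    DirichletCharacter.changeLevel (dvd_mul_left χ.1 p) χ.2⟩

theorem mulp_inj (p : ℕ) (hp : 0 < p) (ψ : DirichletCharacter ℂ p)
    (χ χ' : Σ m : ℕ, DirichletCharacter ℂ m) (h1 : 1 ≤ χ.1) (h : mulp p ψ χ = mulp p ψ χ') : χ = χ' := by
  obtain ⟨m, a⟩ := χ
  obtain ⟨m', a'⟩ := χ'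
  unfold mulp at h
  rw [Sigma.mk.injEq] at h
  obtain ⟨h2, h3⟩ := h
  simp only at h1 h2 h3
  have hm : m = m' := Nat.eq_of_mul_eq_mul_left hp h2
  subst hm
  rw [heq_iff_eq] at h3
  have h4 := mul_left_cancel h3
  have : NeZero (p * m) := ⟨Nat.mul_ne_zero (by omega) (by omega)⟩
  have h5 := DirichletCharacter.changeLevel_injective (dvd_mul_left m p) h4
  rw [h5]

theorem mulp_mem (x y : ℝ) (p : ℕ) (hp : p.Prime) (hpy : (p : ℝ) ≤ y) (ψ : DirichletCharacter ℂ p)
    (hψ1 : ψ ≠ 1) (hψ3 : ψ ^ 3 = 1) (χ : Σ m : ℕ, DirichletCharacter ℂ m) (hχ : χ ∈ fam (x / p) y)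
    (hd : ¬ p ∣ χ.1) : mulp p ψ χ ∈ fam x y := by
  obtain ⟨m, a⟩ := χ
  obtain ⟨h1, h2, h3, h4, h5⟩ := hχ
  simp only at h1 h2 h3 h4 h5 hd
  have hp0 : (0 : ℝ) < p := by exact_mod_cast hp.pos
  have : NeZero p := ⟨hp.ne_zero⟩
  have : NeZero m := ⟨by omega⟩
  have : NeZero (p * m) := ⟨Nat.mul_ne_zero hp.ne_zero (by omega)⟩
  have hcop : p.Coprime m := (Nat.Prime.coprime_iff_not_dvd hp).2 hd
  have hψc : ψ.conductor = p := by
    have hd1 := ψ.conductor_dvd_level
    rcases (Nat.dvd_prime hp).1 hd1 with h | h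
    · exact absurd ((DirichletCharacter.eq_one_iff_conductor_eq_one (χ := ψ)).mpr h) hψ1
    · exact h
  set A : DirichletCharacter ℂ (p * m) := DirichletCharacter.changeLevel (dvd_mul_right p m) ψ with hA
  set B : DirichletCharacter ℂ (p * m) := DirichletCharacter.changeLevel (dvd_mul_left m p) a with hB
  have k1 : 1 ≤ p * m := Nat.mul_pos hp.pos (by omega)
  have k2 : ((p * m : ℕ) : ℝ) ≤ x := by
    rw [le_div_iff₀ hp0] at h2
    push_cast
    linarith
  have k3 : (A * B).IsPrimitive := by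
    have hAc : A.conductor = p := by rw [hA, DirichletCharacter.conductor_changeLevel, hψc]
    have hBc : B.conductor = m := by
      rw [hB, DirichletCharacter.conductor_changeLevel]
      exact h3
    have e1 : A = (A * B) * B⁻¹ := by rw [mul_assoc, mul_inv_cancel, mul_one]
    have e2 : B = (A * B) * A⁻¹ := by rw [mul_comm A B, mul_assoc, mul_inv_cancel, mul_one]
    have d1 : p ∣ (A * B).conductor := by
      have h6 := DirichletCharacter.conductor_mul_dvd_lcm_conductor (A * B) B⁻¹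
      rw [← e1, hAc, DirichletCharacter.conductor_inv, hBc] at h6
      exact (Nat.Coprime.dvd_mul_right hcop).1 (h6.trans (Nat.lcm_dvd_mul _ _))
    have d2 : m ∣ (A * B).conductor := by
      have h6 := DirichletCharacter.conductor_mul_dvd_lcm_conductor (A * B) A⁻¹
      rw [← e2, hBc, DirichletCharacter.conductor_inv, hAc] at h6
      exact (Nat.Coprime.dvd_mul_right hcop.symm).1 (h6.trans (Nat.lcm_dvd_mul _ _))
    exact Nat.dvd_antisymm (A * B).conductor_dvd_level (hcop.mul_dvd_of_dvd_of_dvd d1 d2)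
  have k4 : (A * B) ^ 3 = 1 := by
    rw [mul_pow, hA, hB, ← map_pow, ← map_pow, hψ3, h4, map_one, map_one, mul_one]
  have k5 : ∀ q : ℕ, q.Prime → q ∣ p * m → (q : ℝ) ≤ y := by
    intro q hq hqd
    rcases (Nat.Prime.dvd_mul hq).1 hqd with h | h
    · rw [(Nat.prime_dvd_prime_iff_eq hq hp).1 h]
      exact hpy
    · exact h5 q hq h
  exact ⟨k1, k2, k3, k4, k5⟩

theorem exists_cubic (p : ℕ) [Fact p.Prime] (h3 : p % 3 = 1) :
    ∃ ψ : DirichletCharacter ℂ p, ψ ≠ 1 ∧ ψ ^ 3 = 1 := by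
  have hd : 3 ∣ Fintype.card (ZMod p) - 1 := by
    rw [ZMod.card]
    omega
  obtain ⟨ψ, hψ⟩ := MulChar.exists_mulChar_orderOf (ZMod p) hd (Complex.isPrimitiveRoot_exp 3 (by norm_num))
  refine ⟨ψ, ?_, ?_⟩
  · intro h
    rw [h, orderOf_one] at hψ
    omega
  · rw [← hψ]
    exact pow_orderOf_eq_one ψ

theorem card_step (x y : ℝ) (p : ℕ) (hp : p.Prime) (h3 : p % 3 = 1) (hpy : (p : ℝ) ≤ y) :
    ((F (x / p) y).filter (fun χ => ¬ p ∣ χ.1)).card ≤ ((F x y).filter (fun χ => p ∣ χ.1)).card := by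
  have : Fact p.Prime := ⟨hp⟩
  obtain ⟨ψ, hψ1, hψ3⟩ := exists_cubic p h3
  apply Finset.card_le_card_of_injOn (mulp p ψ)
  · intro χ hχ
    rw [mem_coe, mem_filter, mem_F] at hχ
    rw [mem_coe, mem_filter, mem_F]
    exact ⟨mulp_mem x y p hp hpy ψ hψ1 hψ3 χ hχ.1 hχ.2, dvd_mul_right p χ.1⟩
  · intro χ hχ χ' _ h
    rw [mem_coe, mem_filter, mem_F] at hχ
    exact mulp_inj p hp.pos ψ χ χ' hχ.1.1 h

/-- the number of the large prime divisors -/
theorem card_Pr_dvd (y u : ℝ) (hy : 1 < y) (m : ℕ) (hm : 1 ≤ m) (hmy : (m : ℝ) ≤ y ^ u) :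
    (((Pr y).filter (fun p => p ∣ m)).card : ℝ) ≤ 2 * u := by
  set T := (Pr y).filter (fun p => p ∣ m) with hT
  have hy0 : 0 < y := by linarith
  have hlog : 0 < Real.log y := Real.log_pos hy
  have h1 : ∏ p ∈ T, p ∣ m := by
    apply Finset.prod_primes_dvd
    · intro p hp
      rw [hT, mem_filter] at hp
      exact (mem_Pr hy0.le hp.1).1.prime
    · intro p hp
      rw [hT, mem_filter] at hp
      exact hp.2
  have h2 : ((∏ p ∈ T, p : ℕ) : ℝ) ≤ m := by exact_mod_cast Nat.le_of_dvd hm h1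
  have h3 : ∏ _p ∈ T, Real.sqrt y ≤ ((∏ p ∈ T, p : ℕ) : ℝ) := by
    push_cast
    apply Finset.prod_le_prod
    · intro _ _
      exact Real.sqrt_nonneg y
    · intro p hp
      rw [hT, mem_filter] at hp
      exact (mem_Pr hy0.le hp.1).2.2.1.le
  rw [prod_const] at h3
  have h4 : Real.sqrt y ^ T.card ≤ y ^ u := h3.trans (h2.trans hmy)
  have h5 := Real.log_le_log (by positivity) h4
  rw [Real.log_pow, Real.log_sqrt hy0.le, Real.log_rpow hy0] at h5
  have h6 : (T.card : ℝ) * (1 / 2) * Real.log y ≤ u * Real.log y := by linarith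
  have h7 := le_of_mul_le_mul_right h6 hlog
  linarith

/-- the count with the divisors -/
theorem double_count (x y u : ℝ) (hy : 1 < y) (hxy : x ≤ y ^ u) :
    ((∑ p ∈ Pr y, ((F x y).filter (fun χ => p ∣ χ.1)).card : ℕ) : ℝ) ≤ 2 * u * (F x y).card := by
  have h1 : ∑ p ∈ Pr y, ((F x y).filter (fun χ => p ∣ χ.1)).card =
      ∑ χ ∈ F x y, ((Pr y).filter (fun p => p ∣ χ.1)).card := by
    simp only [card_filter]
    exact sum_comm
  rw [h1]
  push_cast
  calc ∑ χ ∈ F x y, (((Pr y).filter (fun p => p ∣ χ.1)).card : ℝ) ≤ ∑ χ ∈ F x y, 2 * u := by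
        apply sum_le_sum
        intro χ hχ
        rw [mem_F] at hχ
        exact card_Pr_dvd y u hy χ.1 hχ.1 (hχ.2.1.trans hxy)
    _ = _ := by
        rw [sum_const, nsmul_eq_mul]
        ring

/-- the recursive inequality -/
theorem recur (x y u : ℝ) (hy : 1 < y) (hyx : Real.sqrt y ≤ x) (hxy : x ≤ y ^ u) (hu : 0 ≤ u) :
    ∑ p ∈ Pr y, ((F (x / p) y).card : ℝ) ≤ 2 * u * (F x y).card + 2 * u * (112 * (x / Real.sqrt y)) := by
  have hy0 : 0 < y := by linarith
  have hsy : 0 < Real.sqrt y := Real.sqrt_pos.2 hy0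
  have hsy1 : 1 ≤ Real.sqrt y := Real.one_le_sqrt.2 hy.le
  have hx0 : 0 < x := by linarith
  have h1 : ∀ p ∈ Pr y, ((F (x / p) y).card : ℝ) ≤ (((F x y).filter (fun χ => p ∣ χ.1)).card : ℝ) +
      (((F (x / Real.sqrt y) y).filter (fun χ => p ∣ χ.1)).card : ℝ) := by
    intro p hp
    obtain ⟨hpp, hp3, hpl, hpu⟩ := mem_Pr hy0.le hp
    have h2 := card_step x y p hpp hp3 hpu
    have h3 : ((F (x / p) y).filter (fun χ => p ∣ χ.1)).card ≤
        ((F (x / Real.sqrt y) y).filter (fun χ => p ∣ χ.1)).card := by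
      apply card_le_card
      apply filter_subset_filter
      apply F_mono'
      exact div_le_div_of_nonneg_left hx0.le hsy hpl.le
    have h4 := Finset.card_filter_add_card_filter_not (s := F (x / p) y) (fun χ => p ∣ χ.1)
    have h5 : (F (x / p) y).card ≤ ((F x y).filter (fun χ => p ∣ χ.1)).card +
        ((F (x / Real.sqrt y) y).filter (fun χ => p ∣ χ.1)).card := by omega
    exact_mod_cast h5
  have h2 := double_count x y u hy hxy
  have h3 := double_count (x / Real.sqrt y) y u hy ((div_le_self hx0.le hsy1).trans hxy)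
  have h4 := F_card_le (x / Real.sqrt y) y (by rw [le_div_iff₀ hsy]; linarith)
  push_cast at h2 h3
  calc ∑ p ∈ Pr y, ((F (x / p) y).card : ℝ)
      ≤ ∑ p ∈ Pr y, ((((F x y).filter (fun χ => p ∣ χ.1)).card : ℝ) +
        (((F (x / Real.sqrt y) y).filter (fun χ => p ∣ χ.1)).card : ℝ)) := sum_le_sum h1
    _ ≤ 2 * u * (F x y).card + 2 * u * (F (x / Real.sqrt y) y).card := by
        rw [sum_add_distrib]
        linarith
    _ ≤ _ := by
        have : 2 * u * ((F (x / Real.sqrt y) y).card : ℝ) ≤ 2 * u * (112 * (x / Real.sqrt y)) := by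
          gcongr
        linarith

/-- positive proportion of smooth conductors -/
theorem smooth_lower (j : ℕ) : ∃ c : ℝ, 0 < c ∧ ∃ x₀ : ℝ, 1 ≤ x₀ ∧ ∀ x : ℝ, x₀ ≤ x → ∀ y : ℝ,
    1 ≤ y → x ≤ y ^ (1 + (j : ℝ) / 2) → c * x ≤ ((F x y).card : ℝ) := by
  induction j with
  | zero =>
    obtain ⟨c, hc, x₀, hx₀, h⟩ := F_lower
    refine ⟨c, hc, x₀, hx₀, fun x hx y hy hxy => ?_⟩
    simp only [Nat.cast_zero, zero_div, add_zero, Real.rpow_one] at hxy
    exact h x hx y hxy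
  | succ j ih =>
    obtain ⟨c, hc, x₀, hx₀, h⟩ := ih
    obtain ⟨y₀, hy₀, hPr⟩ := Pr_sum
    set u : ℝ := 1 + ((j + 1 : ℕ) : ℝ) / 2 with hu
    have hj0 : (0 : ℝ) ≤ j := Nat.cast_nonneg j
    have hu32 : 3 / 2 ≤ u := by
      rw [hu]
      push_cast
      linarith
    have hu0 : 0 < u := by linarith
    have huj : u - 1 / 2 = 1 + (j : ℝ) / 2 := by
      rw [hu]
      push_cast
      ring
    -- the threshold for `y`
    set z₀ : ℝ := max (max y₀ 2) ((2 * u * 112 * (16 / c)) ^ 2) with hz₀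
    have hz₀2 : 2 ≤ z₀ := (le_max_right _ _).trans (le_max_left _ _)
    have hz₀0 : 0 < z₀ := by linarith
    refine ⟨c / (32 * u), by positivity, max (x₀ ^ 3) (z₀ ^ (2 * u)), ?_, ?_⟩
    · exact (one_le_pow₀ hx₀).trans (le_max_left _ _)
    intro x hx y hy1 hxy
    have hxa : x₀ ^ 3 ≤ x := (le_max_left _ _).trans hx
    have hxb : z₀ ^ (2 * u) ≤ x := (le_max_right _ _).trans hx
    have hx1 : 1 ≤ x := (one_le_pow₀ hx₀).trans hxa
    have hx0 : 0 < x := by linarith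
    set w : ℝ := min y (x ^ (2 / 3 : ℝ)) with hw
    have hwy : w ≤ y := min_le_left _ _
    have hwx : w ≤ x ^ (2 / 3 : ℝ) := min_le_right _ _
    have hx23 : 1 ≤ x ^ (2 / 3 : ℝ) := Real.one_le_rpow hx1 (by norm_num)
    have hw1 : 1 ≤ w := le_min hy1 hx23
    have hw0 : 0 < w := by linarith
    have hxw : x ≤ w ^ u := by
      rcases le_total y (x ^ (2 / 3 : ℝ)) with hle | hle
      · rw [hw, min_eq_left hle]
        exact hxy
      · rw [hw, min_eq_right hle, ← Real.rpow_mul hx0.le]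
        calc x = x ^ (1 : ℝ) := (Real.rpow_one x).symm
          _ ≤ _ := Real.rpow_le_rpow_of_exponent_le hx1 (by linarith)
    -- `w` is large
    have hwz : z₀ ^ (2 : ℝ) ≤ w := by
      have h1 : (z₀ ^ (2 : ℝ)) ^ u ≤ w ^ u := by
        rw [← Real.rpow_mul hz₀0.le]
        exact hxb.trans hxw
      by_contra hcon
      push Not at hcon
      have h2 := Real.rpow_lt_rpow hw0.le hcon hu0
      linarith
    have hwz1 : z₀ ≤ w := by
      refine le_trans ?_ hwz
      calc z₀ = z₀ ^ (1 : ℝ) := (Real.rpow_one _).symm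
        _ ≤ _ := Real.rpow_le_rpow_of_exponent_le (by linarith) (by norm_num)
    have hw2 : 1 < w := by linarith
    have hsw : z₀ ≤ Real.sqrt w := by
      apply Real.le_sqrt_of_sq_le
      have : z₀ ^ 2 = z₀ ^ (2 : ℝ) := by
        rw [← Real.rpow_natCast]
        norm_num
      rw [this]
      exact hwz
    have hsw0 : 0 < Real.sqrt w := by linarith
    have hswx : Real.sqrt w ≤ x := by
      have h1 : Real.sqrt w ≤ w := by
        rw [Real.sqrt_le_left hw0.le]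
        nlinarith [mul_nonneg hw0.le (sub_nonneg.2 hw1)]
      have h2 : x ^ (2 / 3 : ℝ) ≤ x := by
        calc x ^ (2 / 3 : ℝ) ≤ x ^ (1 : ℝ) := Real.rpow_le_rpow_of_exponent_le hx1 (by norm_num)
          _ = x := Real.rpow_one x
      linarith
    have hrec := recur x w u hw2 hswx hxw hu0.le
    have hps := hPr w (((le_max_left _ _).trans (le_max_left _ _)).trans hwz1)
    have hlow : ∀ p ∈ Pr w, c * (x / p) ≤ ((F (x / p) w).card : ℝ) := by
      intro p hp
      obtain ⟨hpp, hp3, hpl, hpu⟩ := mem_Pr hw0.le hp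
      have hp0 : (0 : ℝ) < p := by exact_mod_cast hpp.pos
      apply h (x / p) _ w hw1 _
      · -- `x / p ≥ x ^ (1/3) ≥ x₀`
        rw [le_div_iff₀ hp0]
        have h1 : x₀ ≤ x ^ (1 / 3 : ℝ) := by
          calc x₀ = (x₀ ^ 3) ^ (1 / 3 : ℝ) := by
                rw [← Real.rpow_natCast, ← Real.rpow_mul (by linarith)]
                norm_num
            _ ≤ _ := Real.rpow_le_rpow (by positivity) hxa (by norm_num)
        calc x₀ * p ≤ x ^ (1 / 3 : ℝ) * x ^ (2 / 3 : ℝ) := by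
              apply mul_le_mul h1 (hpu.trans hwx) hp0.le (by positivity)
          _ = x := by
              rw [← Real.rpow_add hx0]
              norm_num
      · -- `x / p ≤ w ^ (u - 1/2)`
        rw [← huj, Real.rpow_sub hw0, ← Real.sqrt_eq_rpow]
        calc x / p ≤ x / Real.sqrt w := div_le_div_of_nonneg_left hx0.le hsw0 hpl.le
          _ ≤ _ := by gcongr
    have hsum : c * x * (1 / 8) ≤ ∑ p ∈ Pr w, ((F (x / p) w).card : ℝ) := by
      calc c * x * (1 / 8) ≤ c * x * ∑ p ∈ Pr w, 1 / (p : ℝ) := by gcongr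
        _ = ∑ p ∈ Pr w, c * (x / p) := by
            rw [mul_sum]
            apply sum_congr rfl
            intro p _
            ring
        _ ≤ _ := sum_le_sum hlow
    have herr : 2 * u * (112 * (x / Real.sqrt w)) ≤ c * x * (1 / 16) := by
      have h1 : 2 * u * 112 * (16 / c) ≤ Real.sqrt w := by
        have h2 : (2 * u * 112 * (16 / c)) ^ 2 ≤ w := (le_max_right _ _).trans hwz1
        exact Real.le_sqrt_of_sq_le h2
      have h3 : 2 * u * (112 * (x / Real.sqrt w)) = 2 * u * 112 * x / Real.sqrt w := by ring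
      rw [h3, div_le_iff₀ hsw0]
      calc 2 * u * 112 * x = c * x * (1 / 16) * (2 * u * 112 * (16 / c)) := by
            field_simp
        _ ≤ _ := by gcongr
    have hfin : c * x * (1 / 16) ≤ 2 * u * (F x w).card := by linarith
    have hmono : ((F x w).card : ℝ) ≤ (F x y).card := by
      exact_mod_cast card_le_card (F_mono x w y hwy)
    calc c / (32 * u) * x = (c * x * (1 / 16)) / (2 * u) := by
          field_simp
          norm_num
      _ ≤ (2 * u * (F x w).card) / (2 * u) := by gcongr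
      _ = (F x w).card := by field_simp
      _ ≤ _ := hmono

end Pool.Agent.H473.SM
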