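import Pool.Agent.H473.SM.VdC
import Pool.Graph.R_seed8.H435R3.Weil.Main

set_option autoImplicit false

/-!
Complete sums of iterated differences of characters to squarefree moduli.
-/

namespace Pool.Agent.H473.SM

open Finset Polynomial

/-- the nonempty subset sums -/
def NS : List ℕ → Multiset ℕ
  | [] => 0
  | (s :: ss) => NS ss + (0 ::ₘ NS ss).map (fun b : ℕ => b + s)

/-- the shifts of the factors `g` and of the conjugate factors in an iterated difference -/
def BC : List ℕ → Multiset ℕ × Multiset ℕ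
  | [] => ({0}, 0)
  | (s :: ss) => ((BC ss).1.map (fun b : ℕ => b + s) + (BC ss).2, (BC ss).1 + (BC ss).2.map (fun b : ℕ => b + s))

theorem BC_add : ∀ ss, (BC ss).1 + (BC ss).2 = 0 ::ₘ NS ss
  | [] => by simp [BC, NS]
  | (s :: ss) => by
    have h := BC_add ss
    simp only [BC, NS]
    have h2 : ((BC ss).1.map (fun b : ℕ => b + s) + (BC ss).2.map (fun b : ℕ => b + s)) =
        (0 ::ₘ NS ss).map (fun b : ℕ => b + s) := by
      rw [← Multiset.map_add, h]
    calc (BC ss).1.map (fun b : ℕ => b + s) + (BC ss).2 + ((BC ss).1 + (BC ss).2.map (fun b : ℕ => b + s))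
        = ((BC ss).1 + (BC ss).2) + ((BC ss).1.map (fun b : ℕ => b + s) + (BC ss).2.map (fun b : ℕ => b + s)) := by
          abel
      _ = _ := by rw [h2, h, Multiset.cons_add]

theorem card_NS : ∀ ss, Multiset.card (NS ss) + 1 = 2 ^ ss.length
  | [] => by simp [NS]
  | (s :: ss) => by
    have h := card_NS ss
    simp only [NS, Multiset.card_add, Multiset.card_map, Multiset.card_cons, List.length_cons]
    rw [pow_succ]
    omega

theorem Dl_eq : ∀ (ss : List ℕ) (g : ℤ → ℂ) (n : ℤ), Dl ss g n =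
    ((BC ss).1.map (fun b : ℕ => g (n + (b : ℤ)))).prod *
      ((BC ss).2.map (fun c : ℕ => (starRingEnd ℂ) (g (n + (c : ℤ))))).prod
  | [], g, n => by simp [BC, Dl]
  | (s :: ss), g, n => by
    rw [Dl, Dl_eq ss]
    simp only [BC, Multiset.map_add, Multiset.prod_add, Multiset.map_map, Function.comp,
      Nat.cast_add, map_mul, Complex.conj_conj, Multiset.prod_map_mul]
    have e : ∀ b : ℕ, n + ((b : ℤ) + (s : ℤ)) = n + (b : ℤ) + s := fun b => by ring
    simp only [e]
    ring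

theorem Dl_mul : ∀ (ss : List ℕ) (g h : ℤ → ℂ), Dl ss (fun n => g n * h n) = fun n => Dl ss g n * Dl ss h n
  | [], g, h => rfl
  | (s :: ss), g, h => by
    rw [Dl]
    have : (fun n => g (n + (s : ℤ)) * h (n + (s : ℤ)) * (starRingEnd ℂ) (g n * h n)) =
        fun n => (g (n + (s : ℤ)) * (starRingEnd ℂ) (g n)) * (h (n + (s : ℤ)) * (starRingEnd ℂ) (h n)) := by
      funext n
      rw [map_mul]
      ring
    rw [this, Dl_mul ss]
    rfl

theorem Dl_norm : ∀ (ss : List ℕ) (g : ℤ → ℂ), (∀ n, ‖g n‖ ≤ 1) → ∀ n, ‖Dl ss g n‖ ≤ 1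
  | [], g, h, n => h n
  | (s :: ss), g, h, n => by
    rw [Dl]
    apply Dl_norm ss
    intro n
    rw [norm_mul, Complex.norm_conj]
    exact mul_le_one₀ (h _) (norm_nonneg _) (h _)

theorem Dl_per : ∀ (ss : List ℕ) (g : ℤ → ℂ) (r : ℤ), (∀ n, g (n + r) = g n) →
    ∀ n, Dl ss g (n + r) = Dl ss g n
  | [], g, r, h, n => h n
  | (s :: ss), g, r, h, n => by
    rw [Dl]
    apply Dl_per ss
    intro n
    have : n + r + (s : ℤ) = n + s + r := by ring
    rw [this, h, h]

/-- the sum over a period of a product -/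
theorem sum_crt (a b : ℕ) (ha : 0 < a) (hb : 0 < b) (hab : a.Coprime b) (f g : ℤ → ℂ)
    (hf : ∀ n, f (n + a) = f n) (hg : ∀ n, g (n + b) = g n) :
    ∑ x ∈ range (a * b), f x * g x = (∑ x ∈ range a, f x) * ∑ x ∈ range b, g x := by
  have hfm : ∀ x : ℕ, f (x : ℤ) = f ((x % a : ℕ) : ℤ) := by
    have h1 : ∀ k n : ℕ, f (((n + k * a : ℕ) : ℤ)) = f (n : ℤ) := by
      intro k n
      induction k with
      | zero => simp
      | succ k ih =>
        have : ((n + (k + 1) * a : ℕ) : ℤ) = ((n + k * a : ℕ) : ℤ) + a := by push_cast; ring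
        rw [this, hf, ih]
    intro x
    conv_lhs => rw [← Nat.mod_add_div x a, mul_comm a]
    exact h1 _ _
  have hgm : ∀ x : ℕ, g (x : ℤ) = g ((x % b : ℕ) : ℤ) := by
    have h1 : ∀ k n : ℕ, g (((n + k * b : ℕ) : ℤ)) = g (n : ℤ) := by
      intro k n
      induction k with
      | zero => simp
      | succ k ih =>
        have : ((n + (k + 1) * b : ℕ) : ℤ) = ((n + k * b : ℕ) : ℤ) + b := by push_cast; ring
        rw [this, hg, ih]
    intro x
    conv_lhs => rw [← Nat.mod_add_div x b, mul_comm b]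
    exact h1 _ _
  rw [Finset.sum_mul_sum, ← Finset.sum_product']
  apply Finset.sum_bij (fun x _ => (x % a, x % b))
  · intro x _
    rw [mem_product, mem_range, mem_range]
    exact ⟨Nat.mod_lt _ ha, Nat.mod_lt _ hb⟩
  · intro x hx y hy hxy
    rw [mem_range] at hx hy
    rw [Prod.mk.injEq] at hxy
    have h1 : x ≡ y [MOD a * b] := (Nat.modEq_and_modEq_iff_modEq_mul hab).1 ⟨hxy.1, hxy.2⟩
    exact Nat.ModEq.eq_of_lt_of_lt h1 hx hy
  · intro z hz
    rw [mem_product, mem_range, mem_range] at hz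
    have h1 := (Nat.chineseRemainder hab z.1 z.2).2
    refine ⟨(Nat.chineseRemainder hab z.1 z.2 : ℕ) % (a * b), ?_, ?_⟩
    · rw [mem_range]
      exact Nat.mod_lt _ (Nat.mul_pos ha hb)
    · have h2 : (Nat.chineseRemainder hab z.1 z.2 : ℕ) % (a * b) % a = z.1 := by
        rw [Nat.mod_mul_right_mod]
        have := h1.1
        rw [Nat.ModEq, Nat.mod_eq_of_lt hz.1] at this
        exact this
      have h3 : (Nat.chineseRemainder hab z.1 z.2 : ℕ) % (a * b) % b = z.2 := by
        rw [Nat.mod_mul_left_mod]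
        have := h1.2
        rw [Nat.ModEq, Nat.mod_eq_of_lt hz.2] at this
        exact this
      rw [h2, h3]
  · intro x _
    simp only
    rw [← hfm, ← hgm]

/-- good complete sums -/
def CSb (R : ℕ) (θ : ℝ) (r : ℕ) (g : ℤ → ℂ) : Prop :=
  (∀ n, g (n + r) = g n) ∧ (∀ n, ‖g n‖ ≤ 1) ∧ ∀ ss : List ℕ, ss.length = R →
    ‖∑ x ∈ range r, Dl ss g x‖ ≤ (r.divisors.card : ℝ) ^ R * (r : ℝ) ^ (1 - θ) *
      ((NS ss).map (fun t => ((r.gcd t : ℕ) : ℝ) ^ θ)).prod

theorem CSb.mul {R : ℕ} {θ : ℝ} {a b : ℕ} {f g : ℤ → ℂ} (hf : CSb R θ a f) (hg : CSb R θ b g)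
    (ha : 0 < a) (hb : 0 < b) (hab : a.Coprime b) : CSb R θ (a * b) (fun n => f n * g n) := by
  obtain ⟨f1, f2, f3⟩ := hf
  obtain ⟨g1, g2, g3⟩ := hg
  have per : ∀ (u : ℤ → ℂ) (c : ℕ), (∀ n, u (n + c) = u n) → ∀ (k : ℕ) (n : ℤ), u (n + k * c) = u n := by
    intro u c hu k n
    induction k with
    | zero => simp
    | succ k ih =>
      have : n + ((k + 1 : ℕ) : ℤ) * c = n + k * c + c := by push_cast; ring
      rw [this, hu, ih]
  refine ⟨?_, ?_, ?_⟩
  · intro n
    have e1 : n + ((a * b : ℕ) : ℤ) = n + (b : ℕ) * a := by push_cast; ring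
    have e2 : n + ((a * b : ℕ) : ℤ) = n + (a : ℕ) * b := by push_cast; ring
    have h1 : f (n + ((a * b : ℕ) : ℤ)) = f n := by rw [e1]; exact per f a f1 b n
    have h2 : g (n + ((a * b : ℕ) : ℤ)) = g n := by rw [e2]; exact per g b g1 a n
    simp only
    rw [h1, h2]
  · intro n
    rw [norm_mul]
    exact mul_le_one₀ (f2 n) (norm_nonneg _) (g2 n)
  · intro ss hss
    rw [Dl_mul]
    rw [sum_crt a b ha hb hab (Dl ss f) (Dl ss g) (Dl_per ss f a f1) (Dl_per ss g b g1), norm_mul]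
    refine (mul_le_mul (f3 ss hss) (g3 ss hss) (norm_nonneg _) ((norm_nonneg _).trans (f3 ss hss))).trans
      (le_of_eq ?_)
    have e1 : ((a * b).divisors.card : ℝ) = (a.divisors.card : ℝ) * b.divisors.card := by
      rw [Nat.Coprime.card_divisors_mul hab, Nat.cast_mul]
    have e2 : (NS ss).map (fun t => (((a * b).gcd t : ℕ) : ℝ) ^ θ) =
        (NS ss).map (fun t => ((a.gcd t : ℕ) : ℝ) ^ θ * ((b.gcd t : ℕ) : ℝ) ^ θ) := by
      apply Multiset.map_congr rfl
      intro t _
      rw [Nat.gcd_comm (a * b) t, Nat.Coprime.gcd_mul t hab, Nat.gcd_comm t a, Nat.gcd_comm t b, Nat.cast_mul,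
        Real.mul_rpow (Nat.cast_nonneg _) (Nat.cast_nonneg _)]
    rw [e1, e2, Multiset.prod_map_mul, Nat.cast_mul, Real.mul_rpow (Nat.cast_nonneg _) (Nat.cast_nonneg _),
      mul_pow]
    ring

theorem CSb_one (R : ℕ) (θ : ℝ) : CSb R θ 1 (fun _ => 1) := by
  refine ⟨fun _ => rfl, fun _ => by simp, ?_⟩
  intro ss _
  have h : ∀ ss : List ℕ, Dl ss (fun _ => 1) = fun _ => 1 := by
    intro ss
    induction ss with
    | nil => rfl
    | cons s ss ih =>
      rw [Dl]
      simp only [map_one, mul_one]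
      exact ih
  rw [h]
  simp

theorem sum_range_zmod (p : ℕ) [NeZero p] (F : ZMod p → ℂ) :
    ∑ x ∈ range p, F ((x : ℕ) : ZMod p) = ∑ x : ZMod p, F x := by
  apply Finset.sum_bij (fun x _ => ((x : ℕ) : ZMod p))
  · intro x _
    exact mem_univ _
  · intro x hx y hy hxy
    rw [mem_range] at hx hy
    rw [ZMod.natCast_eq_natCast_iff] at hxy
    exact Nat.ModEq.eq_of_lt_of_lt hxy hx hy
  · intro z _
    exact ⟨z.val, mem_range.2 (ZMod.val_lt z), ZMod.natCast_zmod_val z⟩
  · intro x _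
    rfl

/-- Weil's bound for the iterated differences -/
theorem prime_sum (p : ℕ) [Fact p.Prime] (χ : DirichletCharacter ℂ p) (hχ : χ ≠ 1) (ss : List ℕ)
    (hss : ∀ t ∈ NS ss, ¬ p ∣ t) :
    ‖∑ x ∈ range p, Dl ss (fun n : ℤ => χ (n : ZMod p)) x‖ ≤ (2 ^ ss.length : ℕ) * Real.sqrt p := by
  classical
  have hpp : p.Prime := Fact.out
  set t := orderOf χ with ht
  have hdvd : t ∣ Fintype.card (ZMod p) - 1 := MulChar.orderOf_dvd_card_sub_one (F := ZMod p) χ
  have ht0 : t ≠ 0 := by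
    intro h0
    rw [h0, zero_dvd_iff, ZMod.card] at hdvd
    have := hpp.two_le
    omega
  have ht1 : t ≠ 1 := fun h1 => hχ (orderOf_eq_one_iff.1 h1)
  have ht2 : 2 ≤ t := by omega
  have hχt : χ ^ t = 1 := pow_orderOf_eq_one χ
  set B := (BC ss).1.map (fun b => -((b : ℕ) : ZMod p)) with hB
  set E := (BC ss).2.map (fun b => -((b : ℕ) : ZMod p)) with hE
  set P : (ZMod p)[X] := (B.map (fun b => X - C b)).prod with hP
  set R : (ZMod p)[X] := (E.map (fun b => X - C b)).prod with hR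
  have hPm : P.Monic := monic_multiset_prod_of_monic _ _ fun i _ => monic_X_sub_C _
  have hRm : R.Monic := monic_multiset_prod_of_monic _ _ fun i _ => monic_X_sub_C _
  have hF0 : P * R ^ (t - 1) ≠ 0 := (hPm.mul (hRm.pow _)).ne_zero
  have hcount : B.count 0 + E.count 0 = 1 := by
    rw [← Multiset.count_add, hB, hE, ← Multiset.map_add, BC_add, Multiset.map_cons, Nat.cast_zero,
      neg_zero, Multiset.count_cons_self]
    have : Multiset.count (0 : ZMod p) ((NS ss).map (fun b => -((b : ℕ) : ZMod p))) = 0 := by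
      rw [Multiset.count_eq_zero, Multiset.mem_map]
      rintro ⟨b, hb, hb0⟩
      rw [neg_eq_zero, ZMod.natCast_eq_zero_iff] at hb0
      exact hss b hb hb0
    rw [this]
  have hcop : Pool.Agent.H435R3.Weil.Cop t (P * R ^ (t - 1)) := by
    refine ⟨0, ?_⟩
    rw [← count_roots, roots_mul hF0, roots_pow, Multiset.count_add, Multiset.count_nsmul, hP, hR,
      roots_multiset_prod_X_sub_C, roots_multiset_prod_X_sub_C]
    rcases Nat.eq_zero_or_pos (E.count 0) with h | h
    · have h1 : B.count 0 = 1 := by omega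
      rw [h1, h, mul_zero, add_zero]
      exact Nat.coprime_one_left t
    · have h1 : E.count 0 = 1 := by omega
      have h2 : B.count 0 = 0 := by omega
      rw [h1, h2, mul_one, zero_add]
      have h2 : t = (t - 1) + 1 := by omega
      have h3 : Nat.Coprime (t - 1) ((t - 1) + 1) := by simp
      rwa [← h2] at h3
  have hw := Pool.Agent.H435R3.Weil.weil t ht2 hdvd χ hχ hχt P R hPm hRm hcop
  have hdeg : P.natDegree + R.natDegree = 2 ^ ss.length := by
    rw [hP, hR, natDegree_multiset_prod_X_sub_C_eq_card, natDegree_multiset_prod_X_sub_C_eq_card, hB, hE,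
      Multiset.card_map, Multiset.card_map, ← Multiset.card_add, BC_add, Multiset.card_cons, card_NS]
  rw [hdeg, ZMod.card] at hw
  refine le_trans (le_of_eq ?_) hw
  congr 1
  rw [← sum_range_zmod p (fun x => χ (P.eval x) * (starRingEnd ℂ) (χ (R.eval x)))]
  apply sum_congr rfl
  intro x _
  rw [Dl_eq, hP, hR, eval_multiset_prod, eval_multiset_prod, map_multiset_prod, map_multiset_prod,
    map_multiset_prod, hB, hE]
  simp only [Multiset.map_map, Function.comp, eval_sub, eval_X, eval_C, sub_neg_eq_add]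
  push_cast
  rfl

theorem CSb_prime (R : ℕ) (θ : ℝ) (hθ0 : 0 ≤ θ) (hθ : θ ≤ 1 / 2) (p : ℕ) [Fact p.Prime]
    (χ : DirichletCharacter ℂ p) (hχ : χ ≠ 1) : CSb R θ p (fun n : ℤ => χ (n : ZMod p)) := by
  have hpp : p.Prime := Fact.out
  have hp1 : (1 : ℝ) ≤ p := by exact_mod_cast hpp.one_le
  have hn : ∀ n : ℤ, ‖(fun n : ℤ => χ (n : ZMod p)) n‖ ≤ 1 := fun n => DirichletCharacter.norm_le_one χ _
  refine ⟨?_, hn, ?_⟩
  · intro n
    simp
  · intro ss hss
    have hdiv : (p.divisors.card : ℝ) = 2 := by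
      rw [hpp.divisors, card_pair hpp.one_lt.ne]
      norm_num
    rw [hdiv]
    have hone : ∀ t : ℕ, 1 ≤ ((p.gcd t : ℕ) : ℝ) ^ θ := by
      intro t
      apply Real.one_le_rpow _ hθ0
      exact_mod_cast Nat.gcd_pos_of_pos_left t hpp.pos
    by_cases hall : ∀ t ∈ NS ss, ¬ p ∣ t
    · refine (prime_sum p χ hχ ss hall).trans ?_
      have h1 : Real.sqrt p ≤ (p : ℝ) ^ (1 - θ) := by
        rw [Real.sqrt_eq_rpow]
        apply Real.rpow_le_rpow_of_exponent_le hp1
        linarith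
      have h2 : (1 : ℝ) ≤ ((NS ss).map (fun t => ((p.gcd t : ℕ) : ℝ) ^ θ)).prod := by
        apply Multiset.prod_induction (fun x : ℝ => 1 ≤ x)
        · intro a b ha hb
          nlinarith
        · exact le_refl _
        · intro a ha
          rw [Multiset.mem_map] at ha
          obtain ⟨t, _, rfl⟩ := ha
          exact hone t
      rw [hss]
      push_cast
      calc (2 : ℝ) ^ R * Real.sqrt p ≤ 2 ^ R * (p : ℝ) ^ (1 - θ) := by gcongr
        _ = 2 ^ R * (p : ℝ) ^ (1 - θ) * 1 := (mul_one _).symm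
        _ ≤ _ := by gcongr
    · push Not at hall
      obtain ⟨t, ht, hpt⟩ := hall
      have h1 : ‖∑ x ∈ range p, Dl ss (fun n : ℤ => χ (n : ZMod p)) x‖ ≤ p := by
        refine (norm_sum_le _ _).trans ?_
        calc _ ≤ ∑ x ∈ range p, (1 : ℝ) := sum_le_sum fun x _ => Dl_norm ss _ hn x
          _ = p := by simp
      obtain ⟨u, hu⟩ := Multiset.exists_cons_of_mem ht
      rw [hu, Multiset.map_cons, Multiset.prod_cons, Nat.gcd_eq_left hpt]
      have h2 : (1 : ℝ) ≤ (u.map (fun t => ((p.gcd t : ℕ) : ℝ) ^ θ)).prod := by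
        apply Multiset.prod_induction (fun x : ℝ => 1 ≤ x)
        · intro a b ha hb
          nlinarith
        · exact le_refl _
        · intro a ha
          rw [Multiset.mem_map] at ha
          obtain ⟨t, _, rfl⟩ := ha
          exact hone t
      have h3 : (p : ℝ) = (p : ℝ) ^ (1 - θ) * (p : ℝ) ^ θ := by
        rw [← Real.rpow_add (by linarith)]
        simp
      have h4 : (1 : ℝ) ≤ 2 ^ R := one_le_pow₀ (by norm_num)
      have h5 : (0 : ℝ) ≤ (p : ℝ) ^ (1 - θ) := by positivity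
      have h6 : (0 : ℝ) ≤ (p : ℝ) ^ θ := by positivity
      calc _ ≤ (p : ℝ) := h1
        _ = 1 * (p : ℝ) ^ (1 - θ) * ((p : ℝ) ^ θ * 1) := by rw [one_mul, mul_one, ← h3]
        _ ≤ _ := by gcongr

end Pool.Agent.H473.SM
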