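import Pool.Agent.H473.SM.Core
import Pool.Graph.R_pool_sql_team_seeded_b0a926ef.R524.Cubic.Sums

set_option autoImplicit false

/-!
Choice of the parameters.
-/

namespace Pool.Agent.H473.SM

open Finset

theorem root (x X C κ : ℝ) (m : ℕ) (hm : 1 ≤ m) (hx : 0 ≤ x) (hX : 0 < X) (hC : 1 ≤ C)
    (h : x ^ m ≤ C * (X ^ (m - 1) * X ^ (1 - κ))) : x ≤ C * X ^ (1 - κ / m) := by
  have hm0 : (0 : ℝ) < m := by exact_mod_cast hm
  apply le_of_pow_le_pow_left₀ (n := m) (by omega) (by positivity)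
  refine h.trans ?_
  rw [mul_pow]
  have h1 : (X ^ (1 - κ / m)) ^ m = X ^ (m - 1) * X ^ (1 - κ) := by
    rw [← Real.rpow_natCast, ← Real.rpow_mul hX.le, ← Real.rpow_natCast, ← Real.rpow_add hX]
    congr 1
    rw [Nat.cast_sub hm, Nat.cast_one]
    field_simp
    ring
  rw [h1]
  apply mul_le_mul_of_nonneg_right _ (by positivity)
  exact le_self_pow₀ hC (by omega)

theorem floor_bounds (Z : ℝ) (hZ : 1 ≤ Z) : 1 ≤ ⌊Z⌋₊ ∧ ((⌊Z⌋₊ : ℕ) : ℝ) ≤ Z ∧ Z ≤ 2 * ((⌊Z⌋₊ : ℕ) : ℝ) := by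
  have h1 : 1 ≤ ⌊Z⌋₊ := Nat.le_floor (by exact_mod_cast hZ)
  refine ⟨h1, Nat.floor_le (by linarith), ?_⟩
  have h2 := Nat.lt_floor_add_one Z
  have h3 : (1 : ℝ) ≤ ((⌊Z⌋₊ : ℕ) : ℝ) := by exact_mod_cast h1
  linarith

/-- the bound for primitive characters with a large prime factor -/
theorem primB (n : ℕ) (η : ℝ) (hη : 0 < η) (hη2 : η ≤ 1 / 2) (k : ℕ)
    (hk : n ≤ η / 2 * (k + 1)) : ∃ C : ℝ, 1 ≤ C ∧ ∀ X : ℝ, 1 ≤ X → ∀ d s P : ℕ, P.Prime →
    0 < d → (d : ℝ) ≤ X ^ (1 - η) → Squarefree s → d.Coprime s → P.Coprime (d * s) →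
    (s : ℝ) ≤ X ^ (n : ℝ) → (∀ p : ℕ, p.Prime → p ∣ s → (p : ℝ) ≤ X ^ (1 - η)) →
    X ^ (1 - η) < P → (P : ℝ) ≤ X ^ (2 - η) →
    ∀ χ : DirichletCharacter ℂ (d * s * P), χ.IsPrimitive → ∀ a b : ℤ, ((b - a : ℤ) : ℝ) ≤ X →
      ‖∑ m ∈ Ioc a b, χ (m : ZMod (d * s * P))‖ ≤ C * X ^ (1 - (η / 6) / (2 ^ (k + 2) : ℕ)) := by
  set R := k + 2 with hR
  set K₁ : ℝ := 16 * (1 + 2 ^ (R + 1) + 2 ^ (R + 2)) with hK₁
  have hK₁1 : 1 ≤ K₁ := by
    have : (0 : ℝ) < 2 ^ (R + 1) + 2 ^ (R + 2) := by positivity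
    rw [hK₁]; linarith
  set C₀ : ℝ := CA R * (2 + (2 ^ R + K₁ + 2 ^ R * 3)) with hC₀
  refine ⟨max 1 C₀, le_max_left _ _, ?_⟩
  intro X hX d s P hP hd hdX hs hds hPds hsX hps hPX hPX2 χ hχ a b hab
  have hX0 : 0 < X := by linarith
  have : Fact P.Prime := ⟨hP⟩
  have hs0 : 0 < s := hs.ne_zero.bot_lt
  have hexp : ∀ u v : ℝ, u ≤ v → X ^ u ≤ X ^ v := fun u v h => Real.rpow_le_rpow_of_exponent_le hX h
  have hXge : ∀ u : ℝ, 0 ≤ u → 1 ≤ X ^ u := fun u h => Real.one_le_rpow hX h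
  -- grouping
  obtain ⟨ms, m1, m2, m3, m4⟩ := grouping (X ^ (1 - η)) (X ^ (η / 2)) (hXge _ (by linarith))
    (hXge _ (by linarith)) k s hs hps (by
      refine hsX.trans ?_
      rw [← Real.rpow_natCast (X ^ (η / 2)), ← Real.rpow_mul hX0.le]
      apply hexp
      push_cast
      exact hk)
  have hYY : X ^ (1 - η) * X ^ (η / 2) = X ^ (1 - η / 2) := by
    rw [← Real.rpow_add hX0]
    congr 1
    ring
  rw [hYY] at m4
  set H := ⌊X ^ (η / 4)⌋₊ with hH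
  obtain ⟨hH1, hH2, hH3⟩ := floor_bounds (X ^ (η / 4)) (hXge _ (by linarith))
  rw [← hH] at hH1 hH2 hH3
  have hHr : (0 : ℝ) < H := by exact_mod_cast hH1
  have hlen : (d :: ms).length = R := by rw [List.length_cons, m1]
  have hblk : Blk (d :: ms) := ⟨hd, by rw [m3]; exact hds, m2⟩
  have hprod : (d :: ms).prod = d * s := by rw [List.prod_cons, m3]
  have hcop : ∀ m ∈ d :: ms, P.Coprime m := by
    intro m hm
    have : m ∣ d * s := by
      rw [← hprod]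
      exact List.dvd_prod hm
    exact Nat.Coprime.coprime_dvd_right this hPds
  have hmsX : ∀ m ∈ d :: ms, (H : ℝ) * m ≤ X := by
    intro m hm
    have h1 : (m : ℝ) ≤ X ^ (1 - η / 2) := by
      rw [List.mem_cons] at hm
      rcases hm with hm | hm
      · rw [hm]
        exact hdX.trans (hexp _ _ (by linarith))
      · exact m4 m hm
    calc (H : ℝ) * m ≤ X ^ (η / 4) * X ^ (1 - η / 2) := by gcongr
      _ = X ^ (1 - η / 4) := by
          rw [← Real.rpow_add hX0]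
          congr 1
          ring
      _ ≤ X ^ (1 : ℝ) := hexp _ _ (by linarith)
      _ = X := Real.rpow_one X
  obtain ⟨χ₁, χ₂, hχ₁, hχ₂, he⟩ := split (Nat.mul_pos hd hs0) hP.pos hPds.symm χ hχ
  have hne : χ₂ ≠ 1 := by
    intro h
    rw [h, DirichletCharacter.isPrimitive_def, DirichletCharacter.conductor_one] at hχ₂
    exact hP.one_lt.ne hχ₂
  have hper := per_of_blk (d :: ms) hblk (d * s) hprod.symm χ₁ hχ₁
  have hPr : (0 : ℝ) < P := by exact_mod_cast hP.pos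
  have hsq : Real.sqrt P ≤ X ^ (1 - η / 2) := by
    rw [Real.sqrt_le_left (by positivity), ← Real.rpow_natCast, ← Real.rpow_mul hX0.le]
    refine hPX2.trans (hexp _ _ ?_)
    push_cast
    linarith
  set T : ℝ := K₁ * X ^ (1 - η / 6) with hT
  have hT0 : 0 ≤ T := by positivity
  have hTb : 16 * (X * (P + 2 * (X * (2 ^ ((d :: ms).length + 1) * Real.sqrt P) +
      2 ^ (d :: ms).length * P))) ≤ T ^ 3 := by
    rw [hlen]
    have h1 : X * P ≤ X ^ (3 - η / 2) := by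
      calc X * P ≤ X ^ (1 : ℝ) * X ^ (2 - η) := by
            rw [Real.rpow_one]
            gcongr
        _ = X ^ (1 + (2 - η)) := (Real.rpow_add hX0 _ _).symm
        _ ≤ _ := hexp _ _ (by linarith)
    have h2 : X * (X * Real.sqrt P) ≤ X ^ (3 - η / 2) := by
      calc X * (X * Real.sqrt P) ≤ X ^ (1 : ℝ) * (X ^ (1 : ℝ) * X ^ (1 - η / 2)) := by
            rw [Real.rpow_one]
            gcongr
        _ = X ^ (1 + (1 + (1 - η / 2))) := by rw [Real.rpow_add hX0, Real.rpow_add hX0 1]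
        _ ≤ _ := hexp _ _ (by linarith)
    have h3 : T ^ 3 = K₁ ^ 3 * X ^ (3 - η / 2) := by
      rw [hT, mul_pow, ← Real.rpow_natCast (X ^ (1 - η / 6)), ← Real.rpow_mul hX0.le]
      congr 2
      push_cast
      ring
    have h4 : K₁ ≤ K₁ ^ 3 := le_self_pow₀ hK₁1 (by norm_num)
    rw [h3]
    calc _ = 16 * (1 + 2 ^ (R + 1)) * (X * P) + 16 * 2 ^ (R + 2) * (X * (X * Real.sqrt P)) := by ring
      _ ≤ 16 * (1 + 2 ^ (R + 1)) * X ^ (3 - η / 2) + 16 * 2 ^ (R + 2) * X ^ (3 - η / 2) := by gcongr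
      _ = K₁ * X ^ (3 - η / 2) := by rw [hK₁]; ring
      _ ≤ _ := by gcongr
  have key := coreB H hH1 X hX0 (d :: ms) hmsX (fun n : ℤ => χ₁ (n : ZMod (d * s))) hper P hcop χ₂ hne
    T hT0 hTb a b hab
  have hsum : ∑ m ∈ Ioc a b, χ (m : ZMod (d * s * P)) =
      ∑ n ∈ Ioc a b, (fun n : ℤ => χ₁ (n : ZMod (d * s))) n * χ₂ (n : ZMod P) :=
    sum_congr rfl fun m _ => he m
  rw [← hsum, hlen] at key
  apply root _ X (max 1 C₀) (η / 6) (2 ^ R) Nat.one_le_two_pow (norm_nonneg _) hX0 (le_max_left _ _)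
  refine key.trans ?_
  have e1 : X / H ≤ 2 * X ^ (1 - η / 6) := by
    rw [div_le_iff₀ hHr]
    calc X = X ^ (1 - η / 4) * X ^ (η / 4) := by
          rw [← Real.rpow_add hX0]
          simp
      _ ≤ X ^ (1 - η / 6) * (2 * H) := by
          apply mul_le_mul (hexp _ _ (by linarith)) hH3 (by positivity) (by positivity)
      _ = _ := by ring
  have e2 : X / P * (2 ^ R * Real.sqrt P) ≤ 2 ^ R * X ^ (1 - η / 6) := by
    have h1 : Real.sqrt P / P = 1 / Real.sqrt P := Real.sqrt_div_self'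
    have h2 : X ^ ((1 - η) / 2) ≤ Real.sqrt P := by
      apply Real.le_sqrt_of_sq_le
      rw [← Real.rpow_natCast, ← Real.rpow_mul hX0.le]
      refine le_trans (le_of_eq ?_) hPX.le
      congr 1
      push_cast
      ring
    have h3 : X * (1 / Real.sqrt P) ≤ X ^ (1 - η / 6) := by
      rw [mul_one_div, div_le_iff₀ (by positivity)]
      calc X = X ^ (1 - (1 - η) / 2) * X ^ ((1 - η) / 2) := by
            rw [← Real.rpow_add hX0]
            simp
        _ ≤ X ^ (1 - η / 6) * Real.sqrt P := by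
            apply mul_le_mul (hexp _ _ (by linarith)) h2 (by positivity) (by positivity)
    calc X / P * (2 ^ R * Real.sqrt P) = 2 ^ R * (X * (Real.sqrt P / P)) := by ring
      _ = 2 ^ R * (X * (1 / Real.sqrt P)) := by rw [h1]
      _ ≤ _ := by gcongr
  have e3 : X * (1 / P + 1 / H) ≤ 3 * X ^ (1 - η / 6) := by
    have h1 : X * (1 / P) ≤ X ^ (1 - η / 6) := by
      rw [mul_one_div, div_le_iff₀ hPr]
      calc X = X ^ (1 - (1 - η)) * X ^ (1 - η) := by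
            rw [← Real.rpow_add hX0]
            simp
        _ ≤ X ^ (1 - η / 6) * P := by
            apply mul_le_mul (hexp _ _ (by linarith)) hPX.le (by positivity) (by positivity)
    have h2 : X * (1 / H) ≤ 2 * X ^ (1 - η / 6) := by
      rw [mul_one_div]
      exact e1
    rw [mul_add]
    linarith
  have hpos : 0 ≤ CA R * X ^ (2 ^ R - 1) := by
    have := CA_pos R
    positivity
  calc CA R * X ^ (2 ^ R - 1) * (X / H + ((X / P * (2 ^ R * Real.sqrt P) + T) +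
        X * (2 ^ R * (1 / P + 1 / H))))
      ≤ CA R * X ^ (2 ^ R - 1) * ((2 + (2 ^ R + K₁ + 2 ^ R * 3)) * X ^ (1 - η / 6)) := by
        apply mul_le_mul_of_nonneg_left _ hpos
        have h5 : X * (2 ^ R * (1 / P + 1 / H)) ≤ 2 ^ R * (3 * X ^ (1 - η / 6)) := by
          calc X * (2 ^ R * (1 / P + 1 / H)) = 2 ^ R * (X * (1 / P + 1 / H)) := by ring
            _ ≤ _ := by gcongr
        have h6 : (2 + (2 ^ R + K₁ + 2 ^ R * 3)) * X ^ (1 - η / 6) = 2 * X ^ (1 - η / 6) +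
          ((2 ^ R * X ^ (1 - η / 6) + K₁ * X ^ (1 - η / 6)) + 2 ^ R * (3 * X ^ (1 - η / 6))) := by ring
        rw [h6, ← hT]
        exact add_le_add e1 (add_le_add (add_le_add e2 (le_refl _)) h5)
    _ = C₀ * (X ^ (2 ^ R - 1) * X ^ (1 - η / 6)) := by rw [hC₀]; ring
    _ ≤ _ := by
        apply mul_le_mul_of_nonneg_right (le_max_right _ _) (by positivity)

/-- the bound for primitive characters without a large prime factor -/
theorem primA (n : ℕ) (η : ℝ) (hη : 0 < η) (hη2 : η ≤ 1 / 2) (k : ℕ)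
    (hk : n ≤ η / 2 * (k + 1)) : ∃ C : ℝ, 1 ≤ C ∧ ∀ X : ℝ, 1 ≤ X → ∀ d s r : ℕ,
    0 < d → (d : ℝ) ≤ X ^ (1 - η) → Squarefree s → d.Coprime s → Squarefree r → r.Coprime (d * s) →
    (s : ℝ) ≤ X ^ (n : ℝ) → (∀ p : ℕ, p.Prime → p ∣ s → (p : ℝ) ≤ X ^ (1 - η)) →
    X ^ (η / 2) < r → (r : ℝ) ≤ X ^ (1 - η / 2) →
    ∀ χ : DirichletCharacter ℂ (d * s * r), χ.IsPrimitive → ∀ a b : ℤ, ((b - a : ℤ) : ℝ) ≤ X →
      ‖∑ m ∈ Ioc a b, χ (m : ZMod (d * s * r))‖ ≤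
        C * X ^ (1 - (η * (η / (4 * 2 ^ (k + 2))) / 4) / (2 ^ (k + 2) : ℕ)) := by
  set R := k + 2 with hR
  set θ : ℝ := η / (4 * 2 ^ R) with hθ
  have h2R : (1 : ℝ) ≤ 2 ^ R := one_le_pow₀ (by norm_num)
  have hθ0 : 0 < θ := by positivity
  have hθη : θ ≤ η / 4 := by
    rw [hθ, div_mul_eq_div_div]
    exact div_le_self (by positivity) h2R
  have hθR : θ * 2 ^ R ≤ η / 4 := by
    rw [hθ]
    apply le_of_eq
    field_simp
  set ε : ℝ := η * θ / (4 * (R + 1)) with hε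
  have hε0 : 0 < ε := by positivity
  have hεR : ε * (R + 1) = η * θ / 4 := by
    rw [hε]
    field_simp
  obtain ⟨D₀, hD₀, hdiv₀⟩ := H353.divisor_bound_real ε hε0
  set D : ℝ := max 1 D₀ with hD
  have hD1 : 1 ≤ D := le_max_left _ _
  have hdiv : ∀ n : ℕ, n ≠ 0 → (n.divisors.card : ℝ) ≤ D * (n : ℝ) ^ ε := fun n hn =>
    (hdiv₀ n hn).trans (mul_le_mul_of_nonneg_right (le_max_right _ _) (by positivity))
  set C₀ : ℝ := CA R * (2 + (D ^ (R + 1) * (1 + 2 ^ R * 3) + 1)) with hC₀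
  refine ⟨max 1 C₀, le_max_left _ _, ?_⟩
  intro X hX d s r hd hdX hs hds hr hrds hsX hps hrX hrX2 χ hχ a b hab
  have hX0 : 0 < X := by linarith
  have hs0 : 0 < s := hs.ne_zero.bot_lt
  have hr0 : 0 < r := hr.ne_zero.bot_lt
  have hexp : ∀ u v : ℝ, u ≤ v → X ^ u ≤ X ^ v := fun u v h => Real.rpow_le_rpow_of_exponent_le hX h
  have hXge : ∀ u : ℝ, 0 ≤ u → 1 ≤ X ^ u := fun u h => Real.one_le_rpow hX h
  -- grouping
  obtain ⟨ms, m1, m2, m3, m4⟩ := grouping (X ^ (1 - η)) (X ^ (η / 2)) (hXge _ (by linarith))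
    (hXge _ (by linarith)) k s hs hps (by
      refine hsX.trans ?_
      rw [← Real.rpow_natCast (X ^ (η / 2)), ← Real.rpow_mul hX0.le]
      apply hexp
      push_cast
      exact hk)
  have hYY : X ^ (1 - η) * X ^ (η / 2) = X ^ (1 - η / 2) := by
    rw [← Real.rpow_add hX0]
    congr 1
    ring
  rw [hYY] at m4
  set H := ⌊X ^ (η / 4)⌋₊ with hH
  obtain ⟨hH1, hH2, hH3⟩ := floor_bounds (X ^ (η / 4)) (hXge _ (by linarith))
  rw [← hH] at hH1 hH2 hH3
  have hHr : (0 : ℝ) < H := by exact_mod_cast hH1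
  have hlen : (d :: ms).length = R := by rw [List.length_cons, m1]
  have hblk : Blk (d :: ms) := ⟨hd, by rw [m3]; exact hds, m2⟩
  have hprod : (d :: ms).prod = d * s := by rw [List.prod_cons, m3]
  have hcop : ∀ m ∈ d :: ms, r.Coprime m := by
    intro m hm
    have : m ∣ d * s := by
      rw [← hprod]
      exact List.dvd_prod hm
    exact Nat.Coprime.coprime_dvd_right this hrds
  have hmsX : ∀ m ∈ d :: ms, (H : ℝ) * m ≤ X := by
    intro m hm
    have h1 : (m : ℝ) ≤ X ^ (1 - η / 2) := by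
      rw [List.mem_cons] at hm
      rcases hm with hm | hm
      · rw [hm]
        exact hdX.trans (hexp _ _ (by linarith))
      · exact m4 m hm
    calc (H : ℝ) * m ≤ X ^ (η / 4) * X ^ (1 - η / 2) := by gcongr
      _ = X ^ (1 - η / 4) := by
          rw [← Real.rpow_add hX0]
          congr 1
          ring
      _ ≤ X ^ (1 : ℝ) := hexp _ _ (by linarith)
      _ = X := Real.rpow_one X
  obtain ⟨χ₁, χ₂, hχ₁, hχ₂, he⟩ := split (Nat.mul_pos hd hs0) hr0 hrds.symm χ hχ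
  have hper := per_of_blk (d :: ms) hblk (d * s) hprod.symm χ₁ hχ₁
  have hrr : (0 : ℝ) < r := by exact_mod_cast hr0
  have hr1 : (1 : ℝ) ≤ r := by exact_mod_cast hr0
  have hcs := CSb_squarefree R θ hθ0.le (by linarith) r hr χ₂ hχ₂
  have key := coreA H hH1 X hX0 (d :: ms) hmsX (fun n : ℤ => χ₁ (n : ZMod (d * s)))
    (fun n : ℤ => χ₂ (n : ZMod r)) hper r hr0 hcop θ (η / 4) hθ0.le (by rw [hlen]; exact hθR)
    (by linarith) (by rw [hlen]; exact hcs) a b hab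
  have hsum : ∑ m ∈ Ioc a b, χ (m : ZMod (d * s * r)) =
      ∑ n ∈ Ioc a b, (fun n : ℤ => χ₁ (n : ZMod (d * s))) n * (fun n : ℤ => χ₂ (n : ZMod r)) n :=
    sum_congr rfl fun m _ => he m
  rw [← hsum, hlen] at key
  set κ : ℝ := η * θ / 4 with hκ
  have hκη : κ ≤ η / 4 := by
    rw [hκ]
    nlinarith
  have hκ0 : 0 < κ := by positivity
  apply root _ X (max 1 C₀) κ (2 ^ R) Nat.one_le_two_pow (norm_nonneg _) hX0 (le_max_left _ _)
  refine key.trans ?_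
  have e1 : X / H ≤ 2 * X ^ (1 - κ) := by
    rw [div_le_iff₀ hHr]
    calc X = X ^ (1 - η / 4) * X ^ (η / 4) := by
          rw [← Real.rpow_add hX0]
          simp
      _ ≤ X ^ (1 - κ) * (2 * H) := by
          apply mul_le_mul (hexp _ _ (by linarith)) hH3 (by positivity) (by positivity)
      _ = _ := by ring
  have hrX1 : (r : ℝ) ≤ X := hrX2.trans ((hexp _ _ (by linarith)).trans (le_of_eq (Real.rpow_one X)))
  have hτ : (r.divisors.card : ℝ) ≤ D * X ^ ε := by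
    refine (hdiv r hr.ne_zero).trans ?_
    have : (r : ℝ) ^ ε ≤ X ^ ε := Real.rpow_le_rpow hrr.le hrX1 hε0.le
    gcongr
  have hτ1 : (1 : ℝ) ≤ D * X ^ ε := one_le_mul_of_one_le_of_one_le hD1 (hXge _ hε0.le)
  have e2 : 1 + 2 ^ R * ((r.divisors.card : ℝ) * (1 + (r : ℝ) ^ (η / 4) / H)) ≤
      (1 + 2 ^ R * 3) * (D * X ^ ε) := by
    have h1 : (r : ℝ) ^ (η / 4) / H ≤ 2 := by
      rw [div_le_iff₀ hHr]
      exact (Real.rpow_le_rpow hrr.le hrX1 (by linarith)).trans hH3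
    calc 1 + 2 ^ R * ((r.divisors.card : ℝ) * (1 + (r : ℝ) ^ (η / 4) / H))
        ≤ D * X ^ ε + 2 ^ R * ((D * X ^ ε) * (1 + 2)) := by gcongr
      _ = _ := by ring
  have e3 : X / r * ((r.divisors.card : ℝ) ^ R * (r : ℝ) ^ (1 - θ)) ≤
      (D * X ^ ε) ^ R * X ^ (1 - η * θ / 2) := by
    have h1 : X / r * (r : ℝ) ^ (1 - θ) ≤ X ^ (1 - η * θ / 2) := by
      have h2 : (r : ℝ) ^ (1 - θ) = r * (r : ℝ) ^ (-θ) := by
        rw [sub_eq_add_neg, Real.rpow_add hrr, Real.rpow_one]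
      have h3 : (r : ℝ) ^ (-θ) ≤ (X ^ (η / 2)) ^ (-θ) :=
        Real.rpow_le_rpow_of_nonpos (by positivity) hrX.le (by linarith)
      rw [h2]
      calc X / r * (r * (r : ℝ) ^ (-θ)) = X * (r : ℝ) ^ (-θ) := by field_simp
        _ ≤ X * (X ^ (η / 2)) ^ (-θ) := by gcongr
        _ = X ^ (1 : ℝ) * X ^ (η / 2 * -θ) := by rw [Real.rpow_one, Real.rpow_mul hX0.le]
        _ = X ^ (1 - η * θ / 2) := by
            rw [← Real.rpow_add hX0]
            congr 1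
            ring
    calc X / r * ((r.divisors.card : ℝ) ^ R * (r : ℝ) ^ (1 - θ))
        = (r.divisors.card : ℝ) ^ R * (X / r * (r : ℝ) ^ (1 - θ)) := by ring
      _ ≤ _ := by gcongr
  have e4 : X / r * ((r.divisors.card : ℝ) ^ R * (r : ℝ) ^ (1 - θ)) *
      (1 + 2 ^ R * ((r.divisors.card : ℝ) * (1 + (r : ℝ) ^ (η / 4) / H))) ≤
      D ^ (R + 1) * (1 + 2 ^ R * 3) * X ^ (1 - κ) := by
    calc _ ≤ ((D * X ^ ε) ^ R * X ^ (1 - η * θ / 2)) * ((1 + 2 ^ R * 3) * (D * X ^ ε)) := by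
          apply mul_le_mul e3 e2 (by positivity) (by positivity)
      _ = D ^ (R + 1) * (1 + 2 ^ R * 3) * ((X ^ ε) ^ (R + 1) * X ^ (1 - η * θ / 2)) := by
          rw [mul_pow]
          ring
      _ = _ := by
          congr 1
          rw [← Real.rpow_natCast (X ^ ε), ← Real.rpow_mul hX0.le, ← Real.rpow_add hX0]
          congr 1
          push_cast
          rw [hεR, hκ]
          ring
  have e5 : (r : ℝ) ≤ X ^ (1 - κ) := hrX2.trans (hexp _ _ (by linarith))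
  have hpos : 0 ≤ CA R * X ^ (2 ^ R - 1) := by
    have := CA_pos R
    positivity
  calc CA R * X ^ (2 ^ R - 1) * (X / H + (X / r * ((r.divisors.card : ℝ) ^ R * (r : ℝ) ^ (1 - θ)) *
        (1 + 2 ^ R * ((r.divisors.card : ℝ) * (1 + (r : ℝ) ^ (η / 4) / H))) + r))
      ≤ CA R * X ^ (2 ^ R - 1) * ((2 + (D ^ (R + 1) * (1 + 2 ^ R * 3) + 1)) * X ^ (1 - κ)) := by
        apply mul_le_mul_of_nonneg_left _ hpos
        linarith
    _ = C₀ * (X ^ (2 ^ R - 1) * X ^ (1 - κ)) := by rw [hC₀]; ring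
    _ ≤ _ := by
        apply mul_le_mul_of_nonneg_right (le_max_right _ _) (by positivity)

end Pool.Agent.H473.SM
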