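import Pool.Agent.H473.SM.Split

set_option autoImplicit false

/-!
Sums over intervals of periodic functions.
-/

namespace Pool.Agent.H473.SM

open Finset

theorem sum_Ioc_range (G : ℤ → ℂ) (a : ℤ) (L : ℕ) :
    ∑ n ∈ Ioc a (a + L), G n = ∑ i ∈ range L, G (a + 1 + i) := by
  induction L with
  | zero => simp
  | succ L ih =>
    rw [sum_range_succ, ← ih]
    have : Ioc a (a + ((L + 1 : ℕ) : ℤ)) = insert (a + 1 + L) (Ioc a (a + (L : ℤ))) := by
      ext x
      simp only [mem_Ioc, mem_insert]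
      push_cast
      omega
    rw [this, sum_insert, add_comm]
    simp only [mem_Ioc]
    omega

/-- the sum over a period -/
theorem sum_period (G : ℤ → ℂ) (r : ℕ) (hG : ∀ n, G (n + r) = G n) (z : ℤ) :
    ∑ i ∈ range r, G (z + i) = ∑ i ∈ range r, G i := by
  have hstep : ∀ z : ℤ, ∑ i ∈ range r, G (z + 1 + i) = ∑ i ∈ range r, G (z + i) := by
    intro z
    have h1 := sum_range_succ (fun i : ℕ => G (z + i)) r
    have h2 := sum_range_succ' (fun i : ℕ => G (z + i)) r
    rw [h1] at h2
    simp only [hG, Nat.cast_zero, add_zero, add_left_inj] at h2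
    rw [h2]
    apply sum_congr rfl
    intro i _
    congr 1
    push_cast
    ring
  induction z using Int.induction_on with
  | zero => simp
  | succ k ih => rw [hstep, ih]
  | pred k ih =>
    rw [← ih, ← hstep]
    apply sum_congr rfl
    intro i _
    congr 1
    ring

theorem sum_periods (G : ℤ → ℂ) (r : ℕ) (hG : ∀ n, G (n + r) = G n) (k : ℕ) (z : ℤ) :
    ∑ i ∈ range (r * k), G (z + i) = k * ∑ i ∈ range r, G i := by
  induction k with
  | zero => simp
  | succ k ih =>
    rw [Nat.mul_succ, sum_range_add, ih]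
    have : ∑ x ∈ range r, G (z + ((r * k + x : ℕ) : ℤ)) = ∑ i ∈ range r, G i := by
      rw [← sum_period G r hG (z + (r * k : ℕ))]
      apply sum_congr rfl
      intro i _
      congr 1
      push_cast
      ring
    rw [this]
    push_cast
    ring

theorem interval (G : ℤ → ℂ) (r : ℕ) (hr : 0 < r) (hG : ∀ n, G (n + r) = G n)
    (a b : ℤ) (N : ℝ) (hN0 : 0 ≤ N) (hab : ((b - a : ℤ) : ℝ) ≤ N) :
    ∃ (c : ℤ) (L : ℕ), L < r ∧ (L : ℝ) ≤ N ∧
      ‖∑ n ∈ Ioc a b, G n‖ ≤ N / r * ‖∑ x ∈ range r, G x‖ + ‖∑ i ∈ range L, G (c + i)‖ := by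
  have hr0 : (0 : ℝ) < r := by exact_mod_cast hr
  rcases le_or_gt b a with h | h
  · refine ⟨a, 0, hr, by simpa using hN0, ?_⟩
    rw [Finset.Ioc_eq_empty (by omega)]
    simp only [sum_empty, norm_zero, range_zero, add_zero]
    positivity
  · obtain ⟨T, hT⟩ : ∃ T : ℕ, b = a + T := ⟨(b - a).toNat, by omega⟩
    have hTN : (T : ℝ) ≤ N := by
      rw [hT] at hab
      simpa using hab
    refine ⟨a + 1 + (r * (T / r) : ℕ), T % r, Nat.mod_lt _ hr, ?_, ?_⟩
    · refine le_trans ?_ hTN
      exact_mod_cast Nat.mod_le T r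
    · rw [hT, sum_Ioc_range]
      have e1 : T = r * (T / r) + T % r := (Nat.div_add_mod T r).symm
      have e2 : ∑ i ∈ range T, G (a + 1 + i) = ∑ i ∈ range (r * (T / r)), G (a + 1 + i) +
          ∑ i ∈ range (T % r), G (a + 1 + (r * (T / r) : ℕ) + i) := by
        conv_lhs => rw [e1]
        rw [sum_range_add]
        congr 1
        apply sum_congr rfl
        intro i _
        congr 1
        push_cast
        ring
      rw [e2, sum_periods G r hG]
      refine (norm_add_le _ _).trans ?_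
      apply add_le_add _ (le_refl _)
      rw [norm_mul, Complex.norm_natCast]
      apply mul_le_mul_of_nonneg_right _ (norm_nonneg _)
      rw [le_div_iff₀ hr0]
      refine le_trans ?_ hTN
      exact_mod_cast Nat.div_mul_le_self T r

theorem Dl_shift : ∀ (ss : List ℕ) (g : ℤ → ℂ) (h : ℤ), Dl ss (fun n => g (n + h)) = fun n => Dl ss g (n + h)
  | [], g, h => rfl
  | (s :: ss), g, h => by
    rw [Dl, Dl]
    have : (fun n => g (n + (s : ℤ) + h) * (starRingEnd ℂ) (g (n + h))) =
        fun n => (fun m => g (m + (s : ℤ)) * (starRingEnd ℂ) (g m)) (n + h) := by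
      funext n
      simp only
      congr 2
      ring
    rw [this]
    exact Dl_shift ss (fun m => g (m + (s : ℤ)) * (starRingEnd ℂ) (g m)) h

theorem Dl_conj : ∀ (ss : List ℕ) (g : ℤ → ℂ),
    Dl ss (fun n => (starRingEnd ℂ) (g n)) = fun n => (starRingEnd ℂ) (Dl ss g n)
  | [], g => rfl
  | (s :: ss), g => by
    rw [Dl, Dl]
    have : (fun n => (starRingEnd ℂ) (g (n + (s : ℤ))) * (starRingEnd ℂ) ((starRingEnd ℂ) (g n))) =
        fun n => (starRingEnd ℂ) ((fun m => g (m + (s : ℤ)) * (starRingEnd ℂ) (g m)) n) := by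
      funext n
      simp only [map_mul]
    rw [this]
    exact Dl_conj ss (fun m => g (m + (s : ℤ)) * (starRingEnd ℂ) (g m))

theorem Dl_cons (h : ℕ) (ss : List ℕ) (g : ℤ → ℂ) (n : ℤ) :
    Dl (h :: ss) g n = Dl ss g (n + h) * (starRingEnd ℂ) (Dl ss g n) := by
  rw [Dl, Dl_mul ss (fun n => g (n + h)) (fun n => (starRingEnd ℂ) (g n)), Dl_shift, Dl_conj]

/-- the second moment of the short sums of a periodic function, and slow variation -/
theorem second_moment (G : ℤ → ℂ) (P : ℕ) (hP : 2 ≤ P) (hG : ∀ n, G (n + P) = G n)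
    (hG1 : ∀ n, ‖G n‖ ≤ 1) (L : ℕ) (hL : L ≤ P) (c : ℤ) (E : ℝ)
    (hE : ∑ h ∈ Icc 1 (L - 1), ‖∑ x ∈ range P, G (x + (h : ℕ)) * (starRingEnd ℂ) (G x)‖ ≤ E) :
    ‖∑ i ∈ range L, G (c + i)‖ ^ 3 ≤ 16 * (L * (P + 2 * E)) := by
  set V : ℤ → ℝ := fun a => ‖∑ i ∈ range L, G (a + i)‖ with hV
  set D : ℕ → ℝ := fun h => ‖∑ x ∈ range P, G (x + (h : ℕ)) * (starRingEnd ℂ) (G x)‖ with hD
  have hPr : (2 : ℝ) ≤ P := by exact_mod_cast hP
  have hLP : (L : ℝ) ≤ P := by exact_mod_cast hL
  have hV0 : ∀ a, 0 ≤ V a := fun a => norm_nonneg _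
  have hVL : ∀ a, V a ≤ L := by
    intro a
    refine (norm_sum_le _ _).trans ?_
    calc _ ≤ ∑ i ∈ range L, (1 : ℝ) := sum_le_sum fun i _ => hG1 _
      _ = L := by simp
  rcases Nat.eq_zero_or_pos L with h0 | hL0
  · subst h0
    simp
  have hVper : ∀ a, V (a + P) = V a := by
    intro a
    simp only [hV]
    congr 1
    apply sum_congr rfl
    intro i _
    have : a + (P : ℤ) + i = a + i + P := by ring
    rw [this, hG]
  -- correlations
  have hcor : ∀ i j : ℕ, ‖∑ a ∈ range P, G ((a : ℤ) + i) * (starRingEnd ℂ) (G ((a : ℤ) + j))‖ =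
      D (Nat.dist i j) := by
    have key : ∀ i j : ℕ, j ≤ i → ‖∑ a ∈ range P, G ((a : ℤ) + i) * (starRingEnd ℂ) (G ((a : ℤ) + j))‖ =
        D (i - j) := by
      intro i j hij
      have h1 := sum_period (fun n => G (n + ((i - j : ℕ) : ℤ)) * (starRingEnd ℂ) (G n)) P (by
        intro n
        have : n + (P : ℤ) + ((i - j : ℕ) : ℤ) = n + ((i - j : ℕ) : ℤ) + P := by ring
        simp only [this, hG]) j
      simp only [hD]
      rw [← h1]
      congr 1
      apply sum_congr rfl
      intro a _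
      have e1 : (j : ℤ) + (a : ℤ) + ((i - j : ℕ) : ℤ) = (a : ℤ) + i := by
        push_cast [Nat.cast_sub hij]
        ring
      have e2 : (j : ℤ) + (a : ℤ) = (a : ℤ) + j := by ring
      rw [e1, e2]
    intro i j
    rcases le_total j i with h | h
    · rw [key i j h]
      congr 1
      unfold Nat.dist
      omega
    · have h3 := key j i h
      rw [← Complex.norm_conj, map_sum]
      have h4 : ∑ x ∈ range P, (starRingEnd ℂ) (G ((x : ℤ) + i) * (starRingEnd ℂ) (G ((x : ℤ) + j))) =
          ∑ a ∈ range P, G ((a : ℤ) + j) * (starRingEnd ℂ) (G ((a : ℤ) + i)) := by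
        apply sum_congr rfl
        intro x _
        rw [map_mul, Complex.conj_conj, mul_comm]
      rw [h4, h3]
      congr 1
      unfold Nat.dist
      omega
  have hD0 : ∀ l, 0 ≤ D l := fun l => norm_nonneg _
  have hD00 : D 0 ≤ P := by
    refine (norm_sum_le _ _).trans ?_
    calc _ ≤ ∑ i ∈ range P, (1 : ℝ) := sum_le_sum fun i _ => by
          rw [norm_mul, Complex.norm_conj]
          exact mul_le_one₀ (hG1 _) (norm_nonneg _) (hG1 _)
      _ = P := by simp
  have hsq : ∑ a ∈ range P, V a ^ 2 ≤ L * (P + 2 * E) := by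
    have h1 : ((∑ a ∈ range P, V a ^ 2 : ℝ) : ℂ) = ∑ i ∈ range L, ∑ j ∈ range L,
        ∑ a ∈ range P, G ((a : ℤ) + i) * (starRingEnd ℂ) (G ((a : ℤ) + j)) := by
      rw [Complex.ofReal_sum]
      simp only [Complex.ofReal_pow]
      calc _ = ∑ a ∈ range P, ∑ i ∈ range L, ∑ j ∈ range L,
            G ((a : ℤ) + i) * (starRingEnd ℂ) (G ((a : ℤ) + j)) := by
            apply sum_congr rfl
            intro a _
            rw [← Complex.mul_conj', map_sum, Finset.sum_mul_sum]
        _ = ∑ i ∈ range L, ∑ a ∈ range P, ∑ j ∈ range L,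
            G ((a : ℤ) + i) * (starRingEnd ℂ) (G ((a : ℤ) + j)) := sum_comm
        _ = _ := sum_congr rfl fun i _ => sum_comm
    have h2 : ∑ a ∈ range P, V a ^ 2 = ‖∑ i ∈ range L, ∑ j ∈ range L,
        ∑ a ∈ range P, G ((a : ℤ) + i) * (starRingEnd ℂ) (G ((a : ℤ) + j))‖ := by
      rw [← h1, Complex.norm_real, Real.norm_eq_abs, abs_of_nonneg]
      exact sum_nonneg fun _ _ => by positivity
    rw [h2]
    refine (norm_sum_le _ _).trans ?_
    calc ∑ i ∈ range L, ‖∑ j ∈ range L, ∑ a ∈ range P, G ((a : ℤ) + i) * (starRingEnd ℂ) (G ((a : ℤ) + j))‖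
        ≤ ∑ i ∈ range L, (P + 2 * E) := by
          apply sum_le_sum
          intro i hi
          refine (norm_sum_le _ _).trans ?_
          have h3 : ∑ j ∈ range L, ‖∑ a ∈ range P, G ((a : ℤ) + i) * (starRingEnd ℂ) (G ((a : ℤ) + j))‖ =
              ∑ j ∈ range L, D (Nat.dist i j) := sum_congr rfl fun j _ => hcor i j
          rw [h3]
          refine (sum_dist D hD0 L hL0 i (mem_range.1 hi)).trans ?_
          linarith
      _ = _ := by rw [sum_const, card_range, nsmul_eq_mul]
  -- slow variation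
  have hslow1 : ∀ a, V a - 2 ≤ V (a + 1) := by
    intro a
    have h1 := sum_range_succ (fun i : ℕ => G (a + i)) L
    have h2 := sum_range_succ' (fun i : ℕ => G (a + i)) L
    rw [h1] at h2
    have h3 : ∑ k ∈ range L, G (a + ((k + 1 : ℕ) : ℤ)) = ∑ k ∈ range L, G (a + 1 + k) := by
      apply sum_congr rfl
      intro k _
      congr 1
      push_cast
      ring
    simp only [h3, Nat.cast_zero, add_zero] at h2
    have h4 : ∑ i ∈ range L, G (a + i) = ∑ k ∈ range L, G (a + 1 + k) + (G a - G (a + L)) := by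
      linear_combination h2
    have h5 : V a ≤ V (a + 1) + 2 := by
      simp only [hV]
      rw [h4]
      refine (norm_add_le _ _).trans ?_
      have := (norm_sub_le (G a) (G (a + L))).trans (add_le_add (hG1 _) (hG1 _))
      linarith
    linarith
  have hslow : ∀ (j : ℕ) (a : ℤ), V a - 2 * j ≤ V (a + j) := by
    intro j
    induction j with
    | zero => intro a; simp
    | succ j ih =>
      intro a
      have h1 := ih a
      have h2 := hslow1 (a + j)
      have : a + ((j + 1 : ℕ) : ℤ) = a + j + 1 := by push_cast; ring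
      rw [this]
      push_cast
      linarith
  set J := ⌊V c / 4⌋₊ with hJ
  have hJle : (J : ℝ) ≤ V c / 4 := Nat.floor_le (by have := hV0 c; positivity)
  have hJlt : V c / 4 < J + 1 := Nat.lt_floor_add_one _
  have hJP : J + 1 ≤ P := by
    have h1 : (J : ℝ) + 1 ≤ P := by
      have := hVL c
      linarith
    exact_mod_cast h1
  have hlow : V c ^ 3 / 16 ≤ ∑ j ∈ range (J + 1), V (c + j) ^ 2 := by
    calc V c ^ 3 / 16 = (V c / 4) * (V c / 2) ^ 2 := by ring
      _ ≤ (J + 1) * (V c / 2) ^ 2 := by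
          apply mul_le_mul_of_nonneg_right hJlt.le (by positivity)
      _ = ∑ j ∈ range (J + 1), (V c / 2) ^ 2 := by
          rw [sum_const, card_range, nsmul_eq_mul]
          push_cast
          ring
      _ ≤ _ := by
          apply sum_le_sum
          intro j hj
          rw [mem_range] at hj
          have h1 : (j : ℝ) ≤ J := by exact_mod_cast (by omega : j ≤ J)
          have h2 := hslow j c
          apply pow_le_pow_left₀ (by have := hV0 c; positivity)
          linarith
  have hup : ∑ j ∈ range (J + 1), V (c + j) ^ 2 ≤ ∑ a ∈ range P, V a ^ 2 := by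
    have h1 : ∑ j ∈ range (J + 1), V (c + j) ^ 2 ≤ ∑ j ∈ range P, V (c + j) ^ 2 := by
      apply Finset.sum_le_sum_of_subset_of_nonneg
      · intro x hx
        rw [mem_range] at hx ⊢
        omega
      · intro _ _ _
        positivity
    refine h1.trans (le_of_eq ?_)
    have h2 := sum_period (fun a => ((V a ^ 2 : ℝ) : ℂ)) P (by intro n; simp only [hVper]) c
    have h3 : ((∑ j ∈ range P, V (c + j) ^ 2 : ℝ) : ℂ) = ((∑ j ∈ range P, V j ^ 2 : ℝ) : ℂ) := by
      rw [Complex.ofReal_sum, Complex.ofReal_sum]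
      exact h2
    exact Complex.ofReal_injective h3
  have : V c ^ 3 / 16 ≤ L * (P + 2 * E) := (hlow.trans hup).trans hsq
  simp only [hV] at this ⊢
  linarith

end Pool.Agent.H473.SM
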