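import Pool.Agent.H473.SM.Prim
import Pool.Graph.R_pool_sql_team_seeded_3dad9d7b.NH20.SD.Main

set_option autoImplicit false

/-!
Short sums of quadratic characters whose conductor has at most one large prime factor.
-/

namespace Pool.Agent.H473.SM

open Finset Pool.Agent.H568.GR

/-- the quadratic character modulo an odd prime with complex values -/
theorem exists_quad (p : ℕ) [Fact p.Prime] (hp2 : p ≠ 2) :
    ∃ ψ : DirichletCharacter ℂ p, ψ ≠ 1 ∧ ∀ n : ℤ, ψ (n : ZMod p) = ((jacobiSym n p : ℤ) : ℂ) := by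
  refine ⟨(quadraticChar (ZMod p)).ringHomComp (Int.castRingHom ℂ), ?_, ?_⟩
  · intro h
    have h1 : quadraticChar (ZMod p) ≠ 1 := by
      apply quadraticChar_ne_one
      rw [ZMod.ringChar_zmod_n]
      exact hp2
    apply h1
    apply MulChar.ext
    intro a
    have h2 : ((quadraticChar (ZMod p)).ringHomComp (Int.castRingHom ℂ)) (a : ZMod p) =
        (1 : DirichletCharacter ℂ p) (a : ZMod p) := by rw [h]
    rw [MulChar.ringHomComp_apply, MulChar.one_apply_coe] at h2
    rw [MulChar.one_apply_coe]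
    have h3 : ((quadraticChar (ZMod p) (a : ZMod p) : ℤ) : ℂ) = ((1 : ℤ) : ℂ) := by
      simpa using h2
    exact_mod_cast h3
  · intro n
    rw [MulChar.ringHomComp_apply, ← jacobiSym.legendreSym.to_jacobiSym]
    rfl

/-- products of primitive characters with coprime moduli -/
theorem mul_primitive {a b : ℕ} (ha : 0 < a) (hb : 0 < b) (hab : a.Coprime b)
    (χ : DirichletCharacter ℂ a) (ψ : DirichletCharacter ℂ b) (hχ : χ.IsPrimitive) (hψ : ψ.IsPrimitive) :
    (DirichletCharacter.changeLevel (dvd_mul_right a b) χ *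
      DirichletCharacter.changeLevel (dvd_mul_left b a) ψ).IsPrimitive := by
  have : NeZero a := ⟨by omega⟩
  have : NeZero b := ⟨by omega⟩
  have : NeZero (a * b) := ⟨Nat.mul_ne_zero (by omega) (by omega)⟩
  set A : DirichletCharacter ℂ (a * b) := DirichletCharacter.changeLevel (dvd_mul_right a b) χ with hA
  set B : DirichletCharacter ℂ (a * b) := DirichletCharacter.changeLevel (dvd_mul_left b a) ψ with hB
  have hAc : A.conductor = a := by rw [hA, DirichletCharacter.conductor_changeLevel]; exact hχ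
  have hBc : B.conductor = b := by rw [hB, DirichletCharacter.conductor_changeLevel]; exact hψ
  have e1 : A = (A * B) * B⁻¹ := by rw [mul_assoc, mul_inv_cancel, mul_one]
  have e2 : B = (A * B) * A⁻¹ := by rw [mul_comm A B, mul_assoc, mul_inv_cancel, mul_one]
  have d1 : a ∣ (A * B).conductor := by
    have h6 := DirichletCharacter.conductor_mul_dvd_lcm_conductor (A * B) B⁻¹
    rw [← e1, hAc, DirichletCharacter.conductor_inv, hBc] at h6
    exact (Nat.Coprime.dvd_mul_right hab).1 (h6.trans (Nat.lcm_dvd_mul _ _))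
  have d2 : b ∣ (A * B).conductor := by
    have h6 := DirichletCharacter.conductor_mul_dvd_lcm_conductor (A * B) A⁻¹
    rw [← e2, hBc, DirichletCharacter.conductor_inv, hAc] at h6
    exact (Nat.Coprime.dvd_mul_right hab.symm).1 (h6.trans (Nat.lcm_dvd_mul _ _))
  exact Nat.dvd_antisymm (A * B).conductor_dvd_level (hab.mul_dvd_of_dvd_of_dvd d1 d2)

/-- values at integers of the product -/
theorem changeLevel_int {a b : ℕ} (h : a ∣ b) (χ : DirichletCharacter ℂ a) (n : ℤ)
    (hn : IsUnit (n : ZMod b)) : DirichletCharacter.changeLevel h χ (n : ZMod b) = χ (n : ZMod a) := by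
  obtain ⟨u, hu⟩ := hn
  rw [← hu, DirichletCharacter.changeLevel_eq_cast_of_dvd]
  have : ((u : ZMod b).cast : ZMod a) = (n : ZMod a) := by
    rw [hu]
    exact map_intCast (ZMod.castHom h (ZMod a)) n
  rw [this]

/-- the Jacobi symbol modulo an odd squarefree number is a primitive character -/
theorem jac_char : ∀ q : ℕ, Odd q → Squarefree q → ∃ χ : DirichletCharacter ℂ q, χ.IsPrimitive ∧
    ∀ n : ℤ, χ (n : ZMod q) = ((jacobiSym n q : ℤ) : ℂ) := by
  intro q
  induction q using Nat.strong_induction_on with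
  | _ q ih =>
    intro hq hs
    by_cases h1 : q = 1
    · subst h1
      refine ⟨1, ?_, ?_⟩
      · rw [DirichletCharacter.isPrimitive_def, DirichletCharacter.conductor_one]
      · intro n
        have : (n : ZMod 1) = 1 := Subsingleton.elim _ _
        rw [this, map_one, jacobiSym.one_right]
        norm_num
    · have hp := Nat.minFac_prime h1
      set p := q.minFac with hpd
      obtain ⟨s, hsq⟩ := Nat.minFac_dvd q
      rw [← hpd] at hsq
      have hq0 : q ≠ 0 := hs.ne_zero
      have hs0 : 0 < s := by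
        rcases Nat.eq_zero_or_pos s with h | h
        · rw [h, mul_zero] at hsq
          exact absurd hsq hq0
        · exact h
      clear_value p
      subst hsq
      have hcop : p.Coprime s := by
        rw [Nat.squarefree_mul_iff] at hs
        exact hs.1
      have hodd := Nat.odd_mul.1 hq
      have hp2 : p ≠ 2 := by
        rintro rfl
        have := hodd.1
        exact absurd this (by decide)
      have : Fact p.Prime := ⟨hp⟩
      have hlt : s < p * s := by
        have := hp.two_le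
        nlinarith
      obtain ⟨χ₂, hχ₂, hv₂⟩ := ih s hlt hodd.2 hs.of_mul_right
      obtain ⟨χ₁, hχ₁, hv₁⟩ := exists_quad p hp2
      have hχ₁p : χ₁.IsPrimitive := by
        have hd1 := χ₁.conductor_dvd_level
        have : NeZero p := ⟨hp.ne_zero⟩
        rcases (Nat.dvd_prime hp).1 hd1 with h | h
        · exact absurd ((DirichletCharacter.eq_one_iff_conductor_eq_one (χ := χ₁)).mpr h) hχ₁
        · exact h
      refine ⟨_, mul_primitive hp.pos hs0 hcop χ₁ χ₂ hχ₁p hχ₂, ?_⟩
      intro n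
      have : NeZero (p * s) := ⟨hq0⟩
      have : NeZero s := ⟨by omega⟩
      have : NeZero p := ⟨hp.ne_zero⟩
      rw [jacobiSym.mul_right]
      push_cast
      rw [← hv₁, ← hv₂, MulChar.mul_apply]
      by_cases hn : IsUnit (n : ZMod (p * s))
      · rw [changeLevel_int _ _ n hn, changeLevel_int _ _ n hn]
      · rw [MulChar.map_nonunit _ hn, zero_mul]
        have hiff : IsUnit (n : ZMod (p * s)) ↔ IsUnit (n : ZMod p) ∧ IsUnit (n : ZMod s) := by
          have h1 : (ZMod.chineseRemainder hcop) (n : ZMod (p * s)) = ((n : ZMod p), (n : ZMod s)) := by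
            rw [map_intCast]
            rfl
          rw [← MulEquiv.isUnit_map (ZMod.chineseRemainder hcop).toMulEquiv]
          change IsUnit ((ZMod.chineseRemainder hcop) (n : ZMod (p * s))) ↔ _
          rw [h1, Prod.isUnit_iff]
        rw [hiff, not_and_or] at hn
        rcases hn with hn | hn
        · rw [MulChar.map_nonunit _ hn, zero_mul]
        · rw [MulChar.map_nonunit _ hn, mul_zero]

/-- the hypothesis on the prime factors: at most one exceeds `u`, and it is at most `v` -/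
def OneLarge (q : ℕ) (u v : ℝ) : Prop :=
  ∃ p₀ : ℕ, (p₀ : ℝ) ≤ v ∧ ∀ p : ℕ, p.Prime → p ∣ q → p ≠ p₀ → (p : ℝ) ≤ u

/-- short sums -/
theorem cs2 (θ ε : ℝ) (hε : 0 < ε) (hθ : ε ≤ θ / 2) : ∃ δ P₀ : ℝ, 0 < δ ∧
    ∀ (D : ℤ) (a q : ℕ), P₀ ≤ |(D : ℝ)| → a ≤ 3 → Odd q → Squarefree q → D.natAbs = 2 ^ a * q →
      OneLarge q (|(D : ℝ)| ^ (θ - ε)) (|(D : ℝ)| ^ (2 * θ - ε)) →
      ∀ x : ℕ, |∑ n ∈ (Icc 1 x).filter (fun n => Odd n), ((jacobiSym D n : ℤ) : ℝ)| ≤
        |(D : ℝ)| ^ (-δ) * (x + |(D : ℝ)| ^ θ) := by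
  have hθ0 : 0 < θ := by linarith
  set n : ℕ := ⌈1 / θ⌉₊ + 1 with hn
  have hn1 : 1 ≤ n := by omega
  have hnθ : 1 ≤ θ * n := by
    have h1 : 1 / θ ≤ n := by
      rw [hn]
      push_cast
      have := Nat.le_ceil (1 / θ)
      linarith
    rw [div_le_iff₀ hθ0] at h1
    linarith
  obtain ⟨δ, C, hδ, hδ1, hC1, hb⟩ := prim' n hn1 (ε / θ) (by positivity) (by
    rw [div_le_iff₀ hθ0]
    linarith)
  -- the size
  have hθδ : 0 < θ * δ := by positivity
  refine ⟨θ * δ / 2, max 9 ((8 * C) ^ (2 / (θ * δ))), by positivity, ?_⟩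
  intro D a q hP ha hq hs hD hol x
  set P : ℝ := |(D : ℝ)| with hPd
  have hP9 : 9 ≤ P := (le_max_left _ _).trans hP
  have hP0 : 0 < P := by linarith
  have hP1 : 1 ≤ P := by linarith
  have hPC : (8 * C) ^ (2 / (θ * δ)) ≤ P := (le_max_right _ _).trans hP
  have hnat : P = ((2 ^ a * q : ℕ) : ℝ) := by
    rw [← hD, hPd, Nat.cast_natAbs, Int.cast_abs]
  have h2a : (1 : ℝ) ≤ (2 : ℝ) ^ a := one_le_pow₀ (by norm_num)
  have hqP : (q : ℝ) ≤ P := by
    rw [hnat]
    push_cast
    have : (0 : ℝ) ≤ q := Nat.cast_nonneg q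
    nlinarith
  have hq1 : q ≠ 1 := by
    rintro rfl
    have h8 : (2 : ℝ) ^ a ≤ 8 := by
      calc (2 : ℝ) ^ a ≤ 2 ^ 3 := pow_le_pow_right₀ (by norm_num) ha
        _ = 8 := by norm_num
    rw [hnat] at hP9
    push_cast at hP9
    linarith
  obtain ⟨χ, hχ, hv⟩ := jac_char q hq hs
  have hq0 : NeZero q := ⟨hs.ne_zero⟩
  have hχ1 : χ ≠ 1 := by
    intro h
    rw [h, DirichletCharacter.isPrimitive_def, DirichletCharacter.conductor_one] at hχ
    exact hq1 hχ.symm
  set X : ℝ := P ^ θ with hX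
  have hX1 : 1 ≤ X := Real.one_le_rpow hP1 hθ0.le
  have hX0 : 0 < X := by linarith
  have hXp : ∀ u : ℝ, X ^ u = P ^ (θ * u) := fun u => by rw [hX, ← Real.rpow_mul hP0.le]
  obtain ⟨p₀, hp₀, hps⟩ := hol
  have hkey : ∀ M : ℤ, ∀ N : ℕ, (N : ℝ) ≤ X → ‖Pool.Agent.R524.Cubic.S χ M N‖ ≤ C * X ^ (1 - δ) := by
    intro M N hN
    have h1 := hb X hX1 q χ 1 q p₀ (one_mul q).symm (by
      rw [hXp]
      refine hqP.trans ?_
      calc P = P ^ (1 : ℝ) := (Real.rpow_one P).symm
        _ ≤ _ := Real.rpow_le_rpow_of_exponent_le hP1 hnθ) hχ hχ1 one_pos (by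
      push_cast
      refine Real.one_le_rpow hX1 ?_
      have : ε / θ ≤ 1 := by
        rw [div_le_one hθ0]
        linarith
      linarith) hs (Nat.coprime_one_left q) (by
      rw [hXp]
      refine hp₀.trans (le_of_eq ?_)
      congr 1
      field_simp) (by
      intro p hp hpq hpp
      rw [hXp]
      refine (hps p hp hpq hpp).trans (le_of_eq ?_)
      congr 1
      field_simp) M (M + (N : ℤ)) (by
      have : (M + (N : ℤ) - M : ℤ) = (N : ℤ) := by ring
      rw [this, Int.cast_natCast]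
      exact hN)
    exact h1
  have hlong : ∀ M : ℤ, ∀ N : ℕ, ‖Pool.Agent.R524.Cubic.S χ M N‖ ≤ (2 * N / X + 1) * (C * X ^ (1 - δ)) :=
    fun M N => Pool.Agent.R524.Cubic.pieces_real χ X _ hX1 (by positivity) hkey M N
  -- the sums of the Jacobi symbol
  set V : ℝ := (2 * x / X + 1) * (C * X ^ (1 - δ)) with hV
  have hV0 : 0 ≤ V := by positivity
  have hrec := (rec D a q hq hD).1 x V hV0 (by
    intro A N hN
    have h1 := hlong (A - 1) N
    rw [Pool.Agent.R524.Cubic.S_eq_range] at h1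
    have h2 : ∑ i ∈ range N, χ ((A - 1 + 1 + i : ℤ) : ZMod q) =
        ((∑ m ∈ range N, ((jacobiSym (A + m) q : ℤ) : ℝ) : ℝ) : ℂ) := by
      rw [Complex.ofReal_sum]
      apply sum_congr rfl
      intro i _
      rw [hv]
      have : (A - 1 + 1 + i : ℤ) = A + i := by ring
      rw [this]
      push_cast
      rfl
    rw [h2, Complex.norm_real, Real.norm_eq_abs] at h1
    refine h1.trans ?_
    have hNx : (N : ℝ) ≤ x := by exact_mod_cast hN
    rw [hV]
    gcongr) x le_rfl
  refine hrec.trans ?_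
  -- the exponents
  have hXδ : X ^ (1 - δ) = X * X ^ (-δ) := by
    rw [sub_eq_add_neg, Real.rpow_add hX0, Real.rpow_one]
  have h3 : 4 * V ≤ 8 * C * X ^ (-δ) * (x + X) := by
    rw [hV, hXδ]
    have e : 4 * ((2 * x / X + 1) * (C * (X * X ^ (-δ)))) = 4 * C * X ^ (-δ) * (2 * x + X) := by
      field_simp
    rw [e]
    have hx0 : (0 : ℝ) ≤ x := Nat.cast_nonneg x
    have h4 : 2 * (x : ℝ) + X ≤ 2 * (x + X) := by linarith
    calc 4 * C * X ^ (-δ) * (2 * x + X) ≤ 4 * C * X ^ (-δ) * (2 * (x + X)) := by gcongr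
      _ = _ := by ring
  refine h3.trans ?_
  apply mul_le_mul_of_nonneg_right _ (by positivity)
  rw [hXp]
  have h5 : θ * -δ = -(θ * δ / 2) + -(θ * δ / 2) := by ring
  rw [h5, Real.rpow_add hP0]
  have h6 : 8 * C ≤ P ^ (θ * δ / 2) := by
    calc 8 * C = ((8 * C) ^ (2 / (θ * δ))) ^ (θ * δ / 2) := by
          rw [← Real.rpow_mul (by positivity)]
          have : 2 / (θ * δ) * (θ * δ / 2) = 1 := by field_simp
          rw [this, Real.rpow_one]
      _ ≤ _ := Real.rpow_le_rpow (by positivity) hPC (by positivity)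
  have h7 : 8 * C * P ^ (-(θ * δ / 2)) ≤ 1 := by
    rw [Real.rpow_neg hP0.le, ← div_eq_mul_inv, div_le_one (by positivity)]
    exact h6
  calc 8 * C * (P ^ (-(θ * δ / 2)) * P ^ (-(θ * δ / 2)))
      = (8 * C * P ^ (-(θ * δ / 2))) * P ^ (-(θ * δ / 2)) := by ring
    _ ≤ 1 * P ^ (-(θ * δ / 2)) := by gcongr
    _ = _ := one_mul _

end Pool.Agent.H473.SM
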