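import Mathlib
import Pool.Graph.R_seed8.R419.CF.Mer1

set_option autoImplicit false

/-!
The primes `1 mod 3` between `√y` and `y`.
-/

namespace Pool.Agent.H473.SM

open Finset
open Pool.Agent.Y87.CX (ch ch_one ch_two ch_zero abs_ch fA fA_apply UU_le mert)
open scoped ArithmeticFunction.vonMangoldt

theorem sum_log_lower (N : ℕ) : (N : ℝ) * Real.log N - N ≤ ∑ n ∈ Ioc 0 N, Real.log n := by
  induction N with
  | zero => simp
  | succ N ih =>
    have e : Ioc 0 (N + 1) = insert (N + 1) (Ioc 0 N) := by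
      ext x
      simp only [mem_Ioc, mem_insert]
      omega
    rw [e, sum_insert (by simp)]
    rcases Nat.eq_zero_or_pos N with h0 | h0
    · subst h0
      simp
    · have hN : (0 : ℝ) < N := by exact_mod_cast h0
      have h1 : Real.log ((N + 1 : ℕ) : ℝ) - Real.log N ≤ 1 / N := by
        rw [← Real.log_div (by positivity) hN.ne']
        have h2 := Real.log_le_sub_one_of_pos (show 0 < ((N + 1 : ℕ) : ℝ) / N by positivity)
        have h3 : ((N + 1 : ℕ) : ℝ) / N - 1 = 1 / N := by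
          push_cast
          field_simp
          ring
        linarith
      have h2 : (N : ℝ) * (Real.log ((N + 1 : ℕ) : ℝ) - Real.log N) ≤ 1 := by
        calc _ ≤ (N : ℝ) * (1 / N) := mul_le_mul_of_nonneg_left h1 hN.le
          _ = 1 := by field_simp
      push_cast at h2 ih ⊢
      linarith

/-- Mertens, lower bound -/
theorem mertL {N : ℕ} (hN : 1 ≤ N) : Real.log N - 1 ≤ ∑ d ∈ Ioc 0 N, Λ d / d := by
  have hN0 : (0 : ℝ) < N := by exact_mod_cast hN
  have h1 := ArithmeticFunction.sum_Ioc_mul_zeta_eq_sum (Λ : ArithmeticFunction ℝ) N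
  rw [ArithmeticFunction.vonMangoldt_mul_zeta] at h1
  have h2 : (N : ℝ) * Real.log N - N ≤ ∑ n ∈ Ioc 0 N, ArithmeticFunction.log n := by
    refine (sum_log_lower N).trans (le_of_eq ?_)
    exact sum_congr rfl fun n _ => (ArithmeticFunction.log_apply).symm
  have h3 : ∑ d ∈ Ioc 0 N, Λ d * ((N / d : ℕ) : ℝ) ≤ N * ∑ d ∈ Ioc 0 N, Λ d / d := by
    rw [mul_sum]
    refine sum_le_sum fun d hd => ?_
    have h9 := ArithmeticFunction.vonMangoldt_nonneg (n := d)
    have h8 : ((N / d : ℕ) : ℝ) ≤ (N : ℝ) / d := Nat.cast_div_le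
    calc Λ d * ((N / d : ℕ) : ℝ) ≤ Λ d * ((N : ℝ) / d) := mul_le_mul_of_nonneg_left h8 h9
      _ = _ := by ring
  rw [h1] at h2
  have h4 : (N : ℝ) * (Real.log N - 1) ≤ N * ∑ d ∈ Ioc 0 N, Λ d / d := by
    calc _ = (N : ℝ) * Real.log N - N := by ring
      _ ≤ _ := h2.trans h3
  exact le_of_mul_le_mul_left h4 hN0

/-- the sum over the non-primes in a residue class is bounded -/
theorem nonprime_le (a : ZMod 3) : ∃ C : ℝ, 0 ≤ C ∧ ∀ N : ℕ,
    ∑ n ∈ Ioc 0 N, (if n.Prime then 0 else if (n : ZMod 3) = a then Λ n / n else 0) ≤ C := by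
  have hs := ArithmeticFunction.vonMangoldt.summable_residueClass_non_primes_div a
  have hnn : ∀ n : ℕ, 0 ≤ (if n.Prime then 0 else ArithmeticFunction.vonMangoldt.residueClass a n) / (n : ℝ) := by
    intro n
    have := ArithmeticFunction.vonMangoldt.residueClass_nonneg a n
    split_ifs <;> positivity
  refine ⟨∑' n : ℕ, (if n.Prime then 0 else ArithmeticFunction.vonMangoldt.residueClass a n) / (n : ℝ),
    tsum_nonneg hnn, fun N => ?_⟩
  refine le_trans (le_of_eq ?_) (hs.sum_le_tsum (Ioc 0 N) fun n _ => hnn n)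
  apply sum_congr rfl
  intro n _
  unfold ArithmeticFunction.vonMangoldt.residueClass
  rw [Set.indicator_apply]
  by_cases h1 : n.Prime
  · simp [h1]
  · by_cases h2 : (n : ZMod 3) = a
    · simp [h1, h2]
    · simp [h1, h2]

/-- the weighted sum over the primes `1 mod 3`, lower bound -/
theorem BB1L : ∃ C : ℝ, ∀ N : ℕ, 1 ≤ N → 1 / 2 * Real.log N - C ≤
    ∑ n ∈ Ioc 0 N, (if n.Prime ∧ n % 3 = 1 then Real.log n / n else 0) := by
  obtain ⟨C, hC⟩ := UU_le
  obtain ⟨C1, hC10, hC1⟩ := nonprime_le 1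
  obtain ⟨C0, hC00, hC0⟩ := nonprime_le 0
  refine ⟨1 / 2 + 1 / 2 * C + C1 + (C0 + Real.log 3 / 3), fun N hN => ?_⟩
  have h1 : ∀ n ∈ Ioc 0 N, 1 / 2 * (Λ n / n) + 1 / 2 * fA n ≤
      (if n.Prime ∧ n % 3 = 1 then Real.log n / n else 0) +
      (if n.Prime then 0 else if (n : ZMod 3) = (1 : ZMod 3) then Λ n / n else 0) +
      ((if n.Prime then 0 else if (n : ZMod 3) = (0 : ZMod 3) then Λ n / n else 0) +
        (if n = 3 then Real.log 3 / 3 else 0)) := by
    intro n hn
    have hΛ := ArithmeticFunction.vonMangoldt_nonneg (n := n)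
    have hn0 : 0 < n := (mem_Ioc.1 hn).1
    have hn0' : (0 : ℝ) < n := by exact_mod_cast hn0
    have hq : 0 ≤ Λ n / n := by positivity
    have hl3 : (0 : ℝ) ≤ Real.log 3 / 3 := by
      have := Real.log_nonneg (show (1 : ℝ) ≤ 3 by norm_num)
      positivity
    have hcast : ∀ k : ℕ, (n : ZMod 3) = (k : ZMod 3) ↔ n % 3 = k % 3 := fun k =>
      ZMod.natCast_eq_natCast_iff' n k 3
    have hc1 : (n : ZMod 3) = 1 ↔ n % 3 = 1 := by simpa using hcast 1
    have hc0 : (n : ZMod 3) = 0 ↔ n % 3 = 0 := by simpa using hcast 0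
    rw [fA_apply]
    simp only [hc1, hc0]
    have hres : n % 3 = 0 ∨ n % 3 = 1 ∨ n % 3 = 2 := by omega
    rcases hres with h | h | h
    · rw [ch_zero h]
      by_cases hp : n.Prime
      · have hn3 : n = 3 := by
          have h3 : 3 ∣ n := Nat.dvd_of_mod_eq_zero h
          rcases (Nat.Prime.eq_one_or_self_of_dvd hp 3 h3) with h4 | h4
          · omega
          · exact h4.symm
        subst hn3
        rw [ArithmeticFunction.vonMangoldt_apply_prime hp]
        simp only [hp, true_and, if_true, Nat.cast_ofNat]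
        norm_num
        linarith
      · simp only [hp, false_and, if_false, h]
        norm_num
        split_ifs <;> linarith
    · rw [ch_one h]
      by_cases hp : n.Prime
      · have hn3 : n ≠ 3 := by omega
        rw [ArithmeticFunction.vonMangoldt_apply_prime hp]
        simp only [hp, h, and_self, if_true, if_neg hn3]
        norm_num
        apply le_of_eq
        ring
      · simp only [hp, false_and, if_false, h]
        norm_num
        have : 1 * Λ n / n = Λ n / n := by rw [one_mul]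
        split_ifs <;> linarith
    · rw [ch_two h]
      have hn3 : n ≠ 3 := by omega
      have e : 1 / 2 * (Λ n / n) + 1 / 2 * (-1 * Λ n / n) = 0 := by ring
      rw [e]
      simp only [h]
      norm_num
      split_ifs <;> linarith
  have h2 := sum_le_sum h1
  rw [sum_add_distrib, ← mul_sum, ← mul_sum, sum_add_distrib, sum_add_distrib, sum_add_distrib] at h2
  have h3 := mertL hN
  have h4 := (abs_le.1 (hC N hN)).1
  have h5 := hC1 N
  have h6 := hC0 N
  have h7 : ∑ n ∈ Ioc 0 N, (if n = 3 then Real.log 3 / 3 else 0) ≤ Real.log 3 / 3 := by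
    rw [Finset.sum_ite_eq']
    have := Real.log_nonneg (show (1 : ℝ) ≤ 3 by norm_num)
    split_ifs
    · exact le_refl _
    · positivity
  linarith

/-- the primes `1 mod 3` in `(√y, y]` -/
noncomputable def Pr (y : ℝ) : Finset ℕ :=
  (Ioc ⌊Real.sqrt y⌋₊ ⌊y⌋₊).filter (fun p => p.Prime ∧ p % 3 = 1)

theorem mem_Pr {y : ℝ} (hy : 0 ≤ y) {p : ℕ} (hp : p ∈ Pr y) :
    p.Prime ∧ p % 3 = 1 ∧ Real.sqrt y < p ∧ (p : ℝ) ≤ y := by
  unfold Pr at hp
  rw [mem_filter, mem_Ioc] at hp
  obtain ⟨⟨h1, h2⟩, h3, h4⟩ := hp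
  refine ⟨h3, h4, ?_, ?_⟩
  · exact (Nat.floor_lt (Real.sqrt_nonneg y)).1 h1
  · exact (Nat.le_floor_iff hy).1 h2

theorem Pr_sum : ∃ y₀ : ℝ, 1 ≤ y₀ ∧ ∀ y : ℝ, y₀ ≤ y → 1 / 8 ≤ ∑ p ∈ Pr y, 1 / (p : ℝ) := by
  obtain ⟨C, hC⟩ := BB1L
  obtain ⟨D, hD⟩ := Pool.Agent.R419.CF.Mer.BB1
  have hCC : 0 ≤ |C| + |D| := by positivity
  refine ⟨Real.exp (8 * (|C| + |D| + 1)), Real.one_le_exp (by positivity), fun y hy => ?_⟩
  have hy0 : 0 < y := (Real.exp_pos _).trans_le hy
  have hlog : 8 * (|C| + |D| + 1) ≤ Real.log y := by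
    rw [Real.le_log_iff_exp_le hy0]
    exact hy
  have hlogpos : 0 < Real.log y := by linarith
  have hy1 : 1 ≤ y := (Real.one_le_exp (by positivity)).trans hy
  have hs1 : 1 ≤ Real.sqrt y := Real.one_le_sqrt.2 hy1
  set N := ⌊y⌋₊ with hN
  set M := ⌊Real.sqrt y⌋₊ with hM
  have hN1 : 1 ≤ N := Nat.le_floor (by simpa using hy1)
  have hM1 : 1 ≤ M := Nat.le_floor (by simpa using hs1)
  have hsy : Real.sqrt y ≤ y := by
    rw [Real.sqrt_le_left hy0.le]
    nlinarith
  have hMN : M ≤ N := Nat.floor_le_floor hsy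
  set a : ℕ → ℝ := fun n => if n.Prime ∧ n % 3 = 1 then Real.log n / n else 0 with ha
  have h1 := hC N hN1
  have h2 := hD M hM1
  have h3 : ∑ n ∈ range (M + 1), a n = ∑ n ∈ Ioc 0 M, a n := by
    symm
    apply sum_subset
    · intro x hx
      rw [mem_range]
      have := (mem_Ioc.1 hx).2
      omega
    · intro x hx hx'
      have : x = 0 := by
        rw [mem_range] at hx
        rw [mem_Ioc] at hx'
        omega
      rw [this]
      simp [ha]
  have h4 := Pool.Agent.Y87.CX.Ioc_split a hMN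
  have hlN : Real.log y - 1 ≤ Real.log N := by
    have h5 : y / 2 ≤ N := by
      have h6 : y < N + 1 := Nat.lt_floor_add_one y
      have h7 : (1 : ℝ) ≤ N := by exact_mod_cast hN1
      linarith
    have h6 : Real.log (y / 2) ≤ Real.log N := Real.log_le_log (by positivity) h5
    rw [Real.log_div hy0.ne' (by norm_num)] at h6
    have h7 : Real.log 2 ≤ 1 := by
      have := Real.log_two_lt_d9
      linarith
    linarith
  have hlM : Real.log M ≤ 1 / 2 * Real.log y := by
    have h5 : (M : ℝ) ≤ Real.sqrt y := Nat.floor_le (Real.sqrt_nonneg y)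
    have h6 : Real.log M ≤ Real.log (Real.sqrt y) :=
      Real.log_le_log (by exact_mod_cast hM1) h5
    rw [Real.log_sqrt hy0.le] at h6
    linarith
  have hCa := le_abs_self C
  have hDa := le_abs_self D
  have h5 : 1 / 8 * Real.log y ≤ ∑ n ∈ Ioc M N, a n := by
    have h6 : ∑ n ∈ Ioc M N, a n = ∑ n ∈ Ioc 0 N, a n - ∑ n ∈ Ioc 0 M, a n := by
      rw [h4]
      ring
    rw [h6, ← h3]
    have h7 : ∑ n ∈ range (M + 1), a n ≤ 1 / 2 * Real.log M + D := h2
    have h8 : 1 / 2 * Real.log N - C ≤ ∑ n ∈ Ioc 0 N, a n := h1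
    linarith
  have h6 : ∑ n ∈ Ioc M N, a n ≤ Real.log y * ∑ p ∈ Pr y, 1 / (p : ℝ) := by
    unfold Pr
    rw [sum_filter, mul_sum]
    apply sum_le_sum
    intro n hn
    rw [mem_Ioc] at hn
    simp only [ha]
    split_ifs with h
    · have hn0 : (0 : ℝ) < n := by exact_mod_cast h.1.pos
      have hny : (n : ℝ) ≤ y := (Nat.le_floor_iff hy0.le).1 hn.2
      have : Real.log n ≤ Real.log y := Real.log_le_log hn0 hny
      calc Real.log n / n ≤ Real.log y / n := by gcongr
        _ = _ := by ring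
    · simp
  have h7 : Real.log y * (1 / 8) ≤ Real.log y * ∑ p ∈ Pr y, 1 / (p : ℝ) := by linarith
  exact le_of_mul_le_mul_left h7 hlogpos

end Pool.Agent.H473.SM
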