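import Pool.Agent.H473.SM.Final

set_option autoImplicit false

/-!
The bound for all primitive characters whose conductor is almost smooth (as in the hand-in
`MP_081200_nt.SmoothConductors`).
-/

namespace Pool.Agent.H473.SM

open Finset

/-- the bound for primitive characters -/
theorem prim' (n : ℕ) (hn : 1 ≤ n) (η : ℝ) (hη : 0 < η) (hη2 : η ≤ 1 / 2) :
    ∃ δ C : ℝ, 0 < δ ∧ δ ≤ 1 ∧ 1 ≤ C ∧ ∀ X : ℝ, 1 ≤ X → ∀ (q : ℕ) (χ : DirichletCharacter ℂ q) (d s p₀ : ℕ),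
    q = d * s → (q : ℝ) ≤ X ^ (n : ℝ) → χ.IsPrimitive → χ ≠ 1 → 0 < d → (d : ℝ) ≤ X ^ (1 - η) →
    Squarefree s → d.Coprime s → (p₀ : ℝ) ≤ X ^ (2 - η) →
    (∀ p : ℕ, p.Prime → p ∣ s → p ≠ p₀ → (p : ℝ) ≤ X ^ (1 - η)) →
    ∀ a b : ℤ, ((b - a : ℤ) : ℝ) ≤ X → ‖∑ m ∈ Ioc a b, χ (m : ZMod q)‖ ≤ C * X ^ (1 - δ) := by
  have hn1 : (1 : ℝ) ≤ n := by exact_mod_cast hn
  set k : ℕ := ⌈2 * n / η⌉₊ with hk
  have hkb : (n : ℝ) ≤ η / 2 * (k + 1) := by
    have h1 : 2 * n / η ≤ k := Nat.le_ceil _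
    rw [div_le_iff₀ hη] at h1
    nlinarith
  obtain ⟨CB, hCB1, hB⟩ := primB n η hη hη2 k hkb
  obtain ⟨CA', hCA1, hA⟩ := primA n η hη hη2 k hkb
  have hK1 : (1 : ℝ) ≤ 2 ^ (k + 2) := one_le_pow₀ (by norm_num)
  have hK1' : (1 : ℝ) ≤ ((2 ^ (k + 2) : ℕ) : ℝ) := by exact_mod_cast Nat.one_le_two_pow
  set δ : ℝ := (η * (η / (4 * 2 ^ (k + 2))) / 4) / (2 ^ (k + 2) : ℕ) with hδ
  have hδ0 : 0 < δ := by positivity
  have hθ : η / (4 * 2 ^ (k + 2)) ≤ η / 4 := by
    rw [div_mul_eq_div_div]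
    exact div_le_self (by positivity) hK1
  have hδ1 : δ ≤ (η / 6) / (2 ^ (k + 2) : ℕ) := by
    rw [hδ]
    apply div_le_div_of_nonneg_right _ (by positivity)
    have : 0 ≤ η / (4 * 2 ^ (k + 2)) := by positivity
    nlinarith
  have hδ2 : δ ≤ 1 / 4 := by
    refine hδ1.trans ?_
    refine (div_le_self (by positivity) hK1').trans ?_
    linarith
  refine ⟨δ, CB + CA' + 8, hδ0, by linarith, by linarith, ?_⟩
  intro X hX q χ d s p₀ hq hqX hχ hχ1 hd hdX hs hds hp₀ hps a b hab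
  have hX0 : 0 < X := by linarith
  have hexp : ∀ u v : ℝ, u ≤ v → X ^ u ≤ X ^ v := fun u v h => Real.rpow_le_rpow_of_exponent_le hX h
  have hpos : 0 < X ^ (1 - δ) := by positivity
  have hfin : ∀ (C' u y : ℝ), 0 ≤ C' → C' ≤ CB + CA' + 8 → u ≤ 1 - δ → y ≤ C' * X ^ u →
      y ≤ (CB + CA' + 8) * X ^ (1 - δ) := by
    intro C' u y h0 h1 h2 h3
    calc y ≤ C' * X ^ u := h3
      _ ≤ C' * X ^ (1 - δ) := mul_le_mul_of_nonneg_left (hexp _ _ h2) h0
      _ ≤ _ := mul_le_mul_of_nonneg_right h1 hpos.le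
  have hs0 : 0 < s := hs.ne_zero.bot_lt
  have hsq : (s : ℝ) ≤ q := by
    rw [hq]
    exact_mod_cast Nat.le_mul_of_pos_left s hd
  by_cases hP : ∃ P : ℕ, P.Prime ∧ P ∣ s ∧ X ^ (1 - η) < P
  · obtain ⟨P, hPp, hPs, hPX⟩ := hP
    have hPp₀ : P = p₀ := by
      by_contra h
      have := hps P hPp hPs h
      linarith
    obtain ⟨s₁, hs₁⟩ := hPs
    have hqe : q = d * s₁ * P := by rw [hq, hs₁]; ring
    have hcop1 : P.Coprime s₁ := by
      rw [hs₁, Nat.squarefree_mul_iff] at hs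
      exact hs.1
    have hcop2 : P.Coprime d := by
      have : d.Coprime P := Nat.Coprime.coprime_dvd_right ⟨s₁, hs₁⟩ hds
      exact this.symm
    have hs₁sq : Squarefree s₁ := by
      rw [hs₁] at hs
      exact hs.of_mul_right
    have hds₁ : d.Coprime s₁ := Nat.Coprime.coprime_dvd_right ⟨P, by rw [hs₁]; ring⟩ hds
    have hs₁X : (s₁ : ℝ) ≤ X ^ (n : ℝ) := by
      refine le_trans ?_ (hsq.trans hqX)
      rw [hs₁]
      exact_mod_cast Nat.le_mul_of_pos_left s₁ hPp.pos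
    have hps₁ : ∀ p : ℕ, p.Prime → p ∣ s₁ → (p : ℝ) ≤ X ^ (1 - η) := by
      intro p hp hpd
      apply hps p hp (hpd.trans ⟨P, by rw [hs₁]; ring⟩)
      rw [← hPp₀]
      intro h
      rw [h] at hpd
      have := Nat.Coprime.eq_one_of_dvd hcop1 hpd
      exact hPp.one_lt.ne' this
    clear hq hsq
    subst hqe
    have h1 := hB X hX d s₁ P hPp hd hdX hs₁sq hds₁ (Nat.Coprime.mul_right hcop2 hcop1) hs₁X hps₁ hPX
      (by rw [hPp₀]; exact hp₀) χ hχ a b hab
    exact hfin CB _ _ (by linarith) (by linarith) (by linarith) h1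
  · push Not at hP
    rcases le_or_gt (s : ℝ) (X ^ (η / 2)) with hsm | hsl
    · -- small conductor
      have hqle : (q : ℝ) ≤ X := by
        rw [hq]
        push_cast
        calc (d : ℝ) * s ≤ X ^ (1 - η) * X ^ (η / 2) := by gcongr
          _ = X ^ (1 - η / 2) := by
              rw [← Real.rpow_add hX0]
              congr 1
              ring
          _ ≤ X ^ (1 : ℝ) := hexp _ _ (by linarith)
          _ = X := Real.rpow_one X
      have hq0 : q ≠ 0 := by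
        rw [hq]
        exact Nat.mul_ne_zero hd.ne' hs0.ne'
      have hq1 : q ≠ 1 := by
        intro h
        subst h
        exact hχ1 (DirichletCharacter.level_one χ)
      have h8 : ‖∑ m ∈ Ioc a b, χ (m : ZMod q)‖ ≤ 8 * X ^ (3 / 4 : ℝ) := by
        rcases le_or_gt a b with hle | hgt
        · obtain ⟨T, hT⟩ : ∃ T : ℕ, b = a + T := ⟨(b - a).toNat, by omega⟩
          have h1 := Pool.Agent.R524.Cubic.pv' (by omega : 2 ≤ q) χ hχ a T
          unfold Pool.Agent.R524.Cubic.S at h1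
          rw [hT]
          refine h1.trans ?_
          have : (q : ℝ) ^ (3 / 4 : ℝ) ≤ X ^ (3 / 4 : ℝ) :=
            Real.rpow_le_rpow (Nat.cast_nonneg _) hqle (by norm_num)
          linarith
        · rw [Finset.Ioc_eq_empty (by omega), sum_empty, norm_zero]
          positivity
      exact hfin 8 _ _ (by norm_num) (by linarith) (by linarith) h8
    · have hXge : ∀ u : ℝ, 0 ≤ u → 1 ≤ X ^ u := fun u h => Real.one_le_rpow hX h
      obtain ⟨r, hrs, hrX, hrX2⟩ := exists_dvd s hs.ne_zero (X ^ (1 - η)) (X ^ (η / 2)) (by positivity)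
        (hXge _ (by linarith)) hP hsl
      have hYY : X ^ (1 - η) * X ^ (η / 2) = X ^ (1 - η / 2) := by
        rw [← Real.rpow_add hX0]
        congr 1
        ring
      rw [hYY] at hrX2
      obtain ⟨s₁, hs₁⟩ := hrs
      have hqe : q = d * s₁ * r := by rw [hq, hs₁]; ring
      have hr0 : 0 < r := by
        rcases Nat.eq_zero_or_pos r with h | h
        · rw [h, zero_mul] at hs₁
          omega
        · exact h
      have hsf := hs
      rw [hs₁, Nat.squarefree_mul_iff] at hsf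
      obtain ⟨hcop1, hrsq, hs₁sq⟩ := hsf
      have hcop2 : r.Coprime d := (Nat.Coprime.coprime_dvd_right ⟨s₁, hs₁⟩ hds).symm
      have hds₁ : d.Coprime s₁ := Nat.Coprime.coprime_dvd_right ⟨r, by rw [hs₁]; ring⟩ hds
      have hs₁X : (s₁ : ℝ) ≤ X ^ (n : ℝ) := by
        refine le_trans ?_ (hsq.trans hqX)
        rw [hs₁]
        exact_mod_cast Nat.le_mul_of_pos_left s₁ hr0
      have hps₁ : ∀ p : ℕ, p.Prime → p ∣ s₁ → (p : ℝ) ≤ X ^ (1 - η) := fun p hp hpd =>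
        hP p hp (hpd.trans ⟨r, by rw [hs₁]; ring⟩)
      clear hq hsq
      subst hqe
      have h1 := hA X hX d s₁ r hd hdX hs₁sq hds₁ hrsq (Nat.Coprime.mul_right hcop2 hcop1) hs₁X hps₁ hrX
        hrX2 χ hχ a b hab
      exact hfin CA' _ _ (by linarith) (by linarith) (le_refl _) h1

end Pool.Agent.H473.SM
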