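import Pool.Agent.H473.SM.Cs

set_option autoImplicit false

/-!
Characters of composite moduli (after the decomposition lemma in Q123.CC.Crt of the library).
-/

namespace Pool.Agent.H473.SM

open Finset

/-- the units of a product -/
noncomputable def eu {a b : ℕ} (h : a.Coprime b) : (ZMod (a * b))ˣ ≃* (ZMod a)ˣ × (ZMod b)ˣ :=
  (Units.mapEquiv (ZMod.chineseRemainder h).toMulEquiv).trans MulEquiv.prodUnits

theorem eu_fst {a b : ℕ} (h : a.Coprime b) (u : (ZMod (a * b))ˣ) :
    (((eu h u).1 : (ZMod a)ˣ) : ZMod a) = ZMod.castHom (dvd_mul_right a b) (ZMod a) (u : ZMod (a * b)) := by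
  have h1 : (((eu h u).1 : (ZMod a)ˣ) : ZMod a) =
      ((RingHom.fst (ZMod a) (ZMod b)).comp (ZMod.chineseRemainder h).toRingHom) (u : ZMod (a * b)) := rfl
  rw [h1]
  exact RingHom.congr_fun (Subsingleton.elim _ _) _

theorem eu_snd {a b : ℕ} (h : a.Coprime b) (u : (ZMod (a * b))ˣ) :
    (((eu h u).2 : (ZMod b)ˣ) : ZMod b) = ZMod.castHom (dvd_mul_left b a) (ZMod b) (u : ZMod (a * b)) := by
  have h1 : (((eu h u).2 : (ZMod b)ˣ) : ZMod b) =
      ((RingHom.snd (ZMod a) (ZMod b)).comp (ZMod.chineseRemainder h).toRingHom) (u : ZMod (a * b)) := rfl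
  rw [h1]
  exact RingHom.congr_fun (Subsingleton.elim _ _) _

theorem split {a b : ℕ} (ha : 0 < a) (hb : 0 < b) (hab : a.Coprime b)
    (χ : DirichletCharacter ℂ (a * b)) (hχp : χ.IsPrimitive) :
    ∃ (χ₁ : DirichletCharacter ℂ a) (χ₂ : DirichletCharacter ℂ b), χ₁.IsPrimitive ∧ χ₂.IsPrimitive ∧
      ∀ n : ℤ, χ (n : ZMod (a * b)) = χ₁ (n : ZMod a) * χ₂ (n : ZMod b) := by
  have : NeZero a := ⟨by omega⟩
  have : NeZero b := ⟨by omega⟩
  have : NeZero (a * b) := ⟨Nat.mul_ne_zero (by omega) (by omega)⟩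
  set f : (ZMod a)ˣ × (ZMod b)ˣ →* ℂˣ := χ.toUnitHom.comp (eu hab).symm.toMonoidHom with hf
  set χ₁ : DirichletCharacter ℂ a :=
    MulChar.ofUnitHom (f.comp (MonoidHom.inl (ZMod a)ˣ (ZMod b)ˣ)) with hχ₁
  set χ₂ : DirichletCharacter ℂ b :=
    MulChar.ofUnitHom (f.comp (MonoidHom.inr (ZMod a)ˣ (ZMod b)ˣ)) with hχ₂
  have e1 : ∀ x : (ZMod a)ˣ, χ₁ (x : ZMod a) = χ (((eu hab).symm (x, 1) : (ZMod (a * b))ˣ) : ZMod (a * b)) := by
    intro x
    rw [hχ₁, MulChar.ofUnitHom_coe]
    rfl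
  have e2 : ∀ y : (ZMod b)ˣ, χ₂ (y : ZMod b) = χ (((eu hab).symm (1, y) : (ZMod (a * b))ˣ) : ZMod (a * b)) := by
    intro y
    rw [hχ₂, MulChar.ofUnitHom_coe]
    rfl
  have e3 : ∀ u : (ZMod (a * b))ˣ, χ (u : ZMod (a * b)) =
      χ₁ ((eu hab u).1 : ZMod a) * χ₂ ((eu hab u).2 : ZMod b) := by
    intro u
    rw [e1, e2, ← map_mul, ← Units.val_mul, ← map_mul]
    congr 2
    rw [Prod.mk_mul_mk, mul_one, one_mul, Prod.mk.eta, MulEquiv.symm_apply_apply]
  have hdec : χ = DirichletCharacter.changeLevel (dvd_mul_right a b) χ₁ *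
      DirichletCharacter.changeLevel (dvd_mul_left b a) χ₂ := by
    refine MulChar.ext fun u => ?_
    rw [MulChar.mul_apply, DirichletCharacter.changeLevel_eq_cast_of_dvd,
      DirichletCharacter.changeLevel_eq_cast_of_dvd, e3 u, eu_fst, eu_snd]
    rfl
  have hc := DirichletCharacter.conductor_mul_dvd_lcm_conductor
    (DirichletCharacter.changeLevel (dvd_mul_right a b) χ₁)
    (DirichletCharacter.changeLevel (dvd_mul_left b a) χ₂)
  rw [← hdec, DirichletCharacter.conductor_changeLevel, DirichletCharacter.conductor_changeLevel,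
    DirichletCharacter.isPrimitive_def _ |>.1 hχp] at hc
  have d1 : χ₁.conductor ∣ a := χ₁.conductor_dvd_level
  have d2 : χ₂.conductor ∣ b := χ₂.conductor_dvd_level
  have p1 : χ₁.conductor ≠ 0 := χ₁.conductor_ne_zero
  have p2 : χ₂.conductor ≠ 0 := χ₂.conductor_ne_zero
  have hle : a * b ≤ χ₁.conductor * χ₂.conductor :=
    Nat.le_of_dvd (Nat.mul_pos (Nat.pos_of_ne_zero p1) (Nat.pos_of_ne_zero p2))
      (hc.trans (Nat.lcm_dvd_mul _ _))
  have l1 : χ₁.conductor ≤ a := Nat.le_of_dvd (by omega) d1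
  have l2 : χ₂.conductor ≤ b := Nat.le_of_dvd (by omega) d2
  have q1 : χ₁.conductor = a := by
    by_contra hne
    have h1 : χ₁.conductor < a := lt_of_le_of_ne l1 hne
    have h2 : χ₁.conductor * χ₂.conductor < a * b := by
      calc χ₁.conductor * χ₂.conductor ≤ χ₁.conductor * b := Nat.mul_le_mul_left _ l2
        _ < a * b := Nat.mul_lt_mul_of_pos_right h1 (by omega)
    omega
  have q2 : χ₂.conductor = b := by
    by_contra hne
    have h1 : χ₂.conductor < b := lt_of_le_of_ne l2 hne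
    have h2 : χ₁.conductor * χ₂.conductor < a * b := by
      calc χ₁.conductor * χ₂.conductor ≤ a * χ₂.conductor := Nat.mul_le_mul_right _ l1
        _ < a * b := Nat.mul_lt_mul_of_pos_left h1 (by omega)
    omega
  refine ⟨χ₁, χ₂, q1, q2, ?_⟩
  intro n
  by_cases hn : IsUnit (n : ZMod (a * b))
  · obtain ⟨u, hu⟩ := hn
    have h1 := e3 u
    rw [eu_fst, eu_snd, hu, map_intCast (ZMod.castHom (dvd_mul_right a b) (ZMod a)),
      map_intCast (ZMod.castHom (dvd_mul_left b a) (ZMod b))] at h1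
    exact h1
  · rw [MulChar.map_nonunit _ hn]
    have hiff : IsUnit (n : ZMod (a * b)) ↔ IsUnit (n : ZMod a) ∧ IsUnit (n : ZMod b) := by
      have h1 : (ZMod.chineseRemainder hab) (n : ZMod (a * b)) = ((n : ZMod a), (n : ZMod b)) := by
        rw [map_intCast]
        rfl
      rw [← MulEquiv.isUnit_map (ZMod.chineseRemainder hab).toMulEquiv]
      change IsUnit ((ZMod.chineseRemainder hab) (n : ZMod (a * b))) ↔ _
      rw [h1, Prod.isUnit_iff]
    rw [hiff, not_and_or] at hn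
    rcases hn with hn | hn
    · rw [MulChar.map_nonunit _ hn, zero_mul]
    · rw [MulChar.map_nonunit _ hn, mul_zero]

/-- complete sums to squarefree moduli -/
theorem CSb_squarefree (R : ℕ) (θ : ℝ) (hθ0 : 0 ≤ θ) (hθ : θ ≤ 1 / 2) : ∀ r : ℕ, Squarefree r →
    ∀ χ : DirichletCharacter ℂ r, χ.IsPrimitive → CSb R θ r (fun n : ℤ => χ (n : ZMod r)) := by
  intro r
  induction r using Nat.strong_induction_on with
  | _ r ih =>
    intro hr χ hχ
    by_cases h1 : r = 1
    · subst h1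
      have : (fun n : ℤ => χ (n : ZMod 1)) = fun _ => 1 := by
        funext n
        have : (n : ZMod 1) = 1 := Subsingleton.elim _ _
        rw [this, map_one]
      rw [this]
      exact CSb_one R θ
    · have hp := Nat.minFac_prime h1
      set p := r.minFac with hpd
      obtain ⟨s, hs⟩ := Nat.minFac_dvd r
      rw [← hpd] at hs
      have hr0 : r ≠ 0 := hr.ne_zero
      have hs0 : 0 < s := by
        rcases Nat.eq_zero_or_pos s with h | h
        · rw [h, mul_zero] at hs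
          exact absurd hs hr0
        · exact h
      clear_value p
      subst hs
      have hcop : p.Coprime s := by
        rw [Nat.squarefree_mul_iff] at hr
        exact hr.1
      obtain ⟨χ₁, χ₂, hχ₁, hχ₂, he⟩ := split hp.pos hs0 hcop χ hχ
      have hlt : s < p * s := by
        have := hp.two_le
        nlinarith
      have h2 := ih s hlt (hr.of_mul_right) χ₂ hχ₂
      have : Fact p.Prime := ⟨hp⟩
      have hne : χ₁ ≠ 1 := by
        intro h
        rw [h, DirichletCharacter.isPrimitive_def, DirichletCharacter.conductor_one] at hχ₁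
        exact hp.one_lt.ne hχ₁
      have h3 := (CSb_prime R θ hθ0 hθ p χ₁ hne).mul h2 hp.pos hs0 hcop
      have : (fun n : ℤ => χ (n : ZMod (p * s))) = fun n : ℤ => χ₁ (n : ZMod p) * χ₂ (n : ZMod s) := by
        funext n
        exact he n
      rw [this]
      exact h3

/-- pairwise coprime positive integers -/
def Blk : List ℕ → Prop
  | [] => True
  | (m :: ms) => 0 < m ∧ m.Coprime ms.prod ∧ Blk ms

theorem Blk.pos : ∀ ms : List ℕ, Blk ms → 0 < ms.prod
  | [], _ => by simp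
  | (m :: ms), h => by
    rw [List.prod_cons]
    exact Nat.mul_pos h.1 (Blk.pos ms h.2.2)

theorem per_of_blk : ∀ (ms : List ℕ), Blk ms → ∀ (M : ℕ), M = ms.prod →
    ∀ χ : DirichletCharacter ℂ M, χ.IsPrimitive → Per ms (fun n : ℤ => χ (n : ZMod M))
  | [], _, M, hM, χ, _ => by
    rw [List.prod_nil] at hM
    subst hM
    intro n
    have : (n : ZMod 1) = 1 := Subsingleton.elim _ _
    simp only
    rw [this, map_one]
  | (m :: ms), hB, M, hM, χ, hχ => by
    rw [List.prod_cons] at hM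
    subst hM
    obtain ⟨χ₁, χ₂, _, hχ₂, he⟩ := split hB.1 (Blk.pos ms hB.2.2) hB.2.1 χ hχ
    refine ⟨fun n => χ₁ (n : ZMod m), fun n => χ₂ (n : ZMod ms.prod), ?_, ?_, ?_, he⟩
    · intro n
      simp
    · intro n
      exact DirichletCharacter.norm_le_one χ₁ _
    · exact per_of_blk ms hB.2.2 _ rfl χ₂ hχ₂

/-- divisors of smooth numbers -/
theorem exists_dvd (s : ℕ) (hs : s ≠ 0) (Y₀ Y₁ : ℝ) (hY₀ : 0 ≤ Y₀) (hY₁ : 1 ≤ Y₁)
    (hp : ∀ p : ℕ, p.Prime → p ∣ s → (p : ℝ) ≤ Y₀) (hlt : Y₁ < s) :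
    ∃ a : ℕ, a ∣ s ∧ Y₁ < a ∧ (a : ℝ) ≤ Y₀ * Y₁ := by
  classical
  have hne : ((s.divisors).filter (fun a : ℕ => Y₁ < (a : ℝ))).Nonempty :=
    ⟨s, by rw [mem_filter, Nat.mem_divisors]; exact ⟨⟨dvd_rfl, hs⟩, hlt⟩⟩
  set a := ((s.divisors).filter (fun a : ℕ => Y₁ < (a : ℝ))).min' hne with ha
  have ham := Finset.min'_mem _ hne
  rw [← ha, mem_filter, Nat.mem_divisors] at ham
  obtain ⟨⟨had, _⟩, hay⟩ := ham
  refine ⟨a, had, hay, ?_⟩
  have ha1 : a ≠ 1 := by
    intro h
    rw [h] at hay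
    norm_num at hay
    linarith
  have hpp := Nat.minFac_prime ha1
  obtain ⟨b, hb⟩ := Nat.minFac_dvd a
  have hb0 : 0 < b := by
    rcases Nat.eq_zero_or_pos b with h | h
    · rw [h, mul_zero] at hb
      rw [hb] at hay
      norm_num at hay
      linarith
    · exact h
  have hblt : b < a := by
    have := hpp.two_le
    nlinarith
  have hbY : (b : ℝ) ≤ Y₁ := by
    by_contra hcon
    push Not at hcon
    have h1 : b ∈ (s.divisors).filter (fun a : ℕ => Y₁ < (a : ℝ)) := by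
      rw [mem_filter, Nat.mem_divisors]
      exact ⟨⟨(Dvd.intro_left _ hb.symm).trans had, hs⟩, hcon⟩
    have h2 := Finset.min'_le _ b h1
    omega
  have h3 : (a.minFac : ℝ) ≤ Y₀ := hp _ hpp ((Nat.minFac_dvd a).trans had)
  have h4 : (a : ℝ) = (a.minFac : ℝ) * b := by exact_mod_cast hb
  rw [h4]
  exact mul_le_mul h3 hbY (Nat.cast_nonneg _) hY₀

theorem blk_ones : ∀ k : ℕ, Blk (List.replicate k 1) ∧ (List.replicate k 1).prod = 1
  | 0 => ⟨trivial, rfl⟩
  | (k + 1) => by
    have h := blk_ones k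
    rw [List.replicate_succ]
    refine ⟨⟨one_pos, Nat.coprime_one_left _, h.1⟩, ?_⟩
    rw [List.prod_cons, h.2]

/-- grouping of the prime factors -/
theorem grouping (Y₀ Y₁ : ℝ) (hY₀ : 1 ≤ Y₀) (hY₁ : 1 ≤ Y₁) : ∀ (k s : ℕ), Squarefree s →
    (∀ p : ℕ, p.Prime → p ∣ s → (p : ℝ) ≤ Y₀) → (s : ℝ) ≤ Y₁ ^ (k + 1) →
    ∃ ms : List ℕ, ms.length = k + 1 ∧ Blk ms ∧ ms.prod = s ∧ ∀ m ∈ ms, (m : ℝ) ≤ Y₀ * Y₁ := by
  have hY : (1 : ℝ) ≤ Y₀ * Y₁ := one_le_mul_of_one_le_of_one_le hY₀ hY₁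
  intro k
  induction k with
  | zero =>
    intro s hs _ hle
    refine ⟨[s], rfl, ⟨hs.ne_zero.bot_lt, ?_, trivial⟩, by simp, ?_⟩
    · simp
    · intro m hm
      rw [List.mem_singleton] at hm
      rw [hm]
      rw [zero_add, pow_one] at hle
      nlinarith
  | succ k ih =>
    intro s hs hp hle
    rcases le_or_gt (s : ℝ) Y₁ with h | h
    · refine ⟨s :: List.replicate (k + 1) 1, by simp, ⟨hs.ne_zero.bot_lt, ?_, (blk_ones _).1⟩, ?_, ?_⟩
      · rw [(blk_ones _).2]
        exact Nat.coprime_one_right _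
      · rw [List.prod_cons, (blk_ones _).2, mul_one]
      · intro m hm
        rw [List.mem_cons] at hm
        rcases hm with hm | hm
        · rw [hm]
          nlinarith
        · rw [List.mem_replicate] at hm
          rw [hm.2]
          simpa using hY
    · obtain ⟨a, had, hay, hay2⟩ := exists_dvd s hs.ne_zero Y₀ Y₁ (by linarith) hY₁ hp h
      obtain ⟨b, hb⟩ := had
      have ha0 : 0 < a := by
        have : (0 : ℝ) < a := by linarith
        exact_mod_cast this
      have hbs : Squarefree b := by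
        rw [hb] at hs
        exact hs.of_mul_right
      have hble : (b : ℝ) ≤ Y₁ ^ (k + 1) := by
        have h1 : (a : ℝ) * b ≤ Y₁ ^ (k + 1 + 1) := by
          rw [← Nat.cast_mul, ← hb]
          exact hle
        rw [pow_succ] at h1
        have h2 : Y₁ * b ≤ Y₁ ^ (k + 1) * Y₁ := by
          refine le_trans ?_ h1
          exact mul_le_mul_of_nonneg_right hay.le (Nat.cast_nonneg _)
        rw [mul_comm] at h2
        exact le_of_mul_le_mul_right h2 (by linarith)
      obtain ⟨ms, h1, h2, h3, h4⟩ := ih b hbs (fun p hpp hpb => hp p hpp (by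
        rw [hb]; exact Dvd.dvd.mul_left hpb a)) hble
      refine ⟨a :: ms, by simp [h1], ⟨ha0, ?_, h2⟩, ?_, ?_⟩
      · rw [h3]
        rw [hb, Nat.squarefree_mul_iff] at hs
        exact hs.1
      · rw [List.prod_cons, h3, hb]
      · intro m hm
        rw [List.mem_cons] at hm
        rcases hm with hm | hm
        · rw [hm]
          exact hay2
        · exact h4 m hm

end Pool.Agent.H473.SM
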