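import Pool.Agent.H473.SM.Jac

set_option autoImplicit false

/-!
Torsion in the class groups of quadratic fields whose discriminant has at most one large prime factor
(the assembly is adapted from `H568.GR.Fin` of the library).
-/

namespace Pool.Agent.H473.SM

open Finset NumberField Pool.Agent.H568.GR Pool.Agent.NH20.SD

/-- many products of split primes -/
theorem mnb2 (θ ε : ℝ) (hε : 0 < ε) (hθ : ε ≤ θ / 8) (hθ2 : θ ≤ 1 / 2) : ∃ P0 : ℝ,
    ∀ (D : ℤ) (a q : ℕ), P0 ≤ |(D : ℝ)| → a ≤ 3 → Odd q → Squarefree q → D.natAbs = 2 ^ a * q →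
      OneLarge q (|(D : ℝ)| ^ (θ - ε)) (|(D : ℝ)| ^ (2 * θ - 2 * ε)) →
      |(D : ℝ)| ^ (θ - ε / 2) ≤ (MM D ⌊|(D : ℝ)| ^ (θ - ε / 4)⌋₊).card := by
  obtain ⟨δ, P1, hδ, hb⟩ := cs2 (θ - ε / 2) (ε / 2) (by positivity) (by linarith)
  obtain ⟨P2, hm⟩ := mnb_all θ ε δ hε hθ hθ2 hδ
  refine ⟨max (max P1 P2) 1, ?_⟩
  intro D a q hP ha hq hs hD hol
  have h1 : P1 ≤ |(D : ℝ)| := ((le_max_left _ _).trans (le_max_left _ _)).trans hP
  have h2 : P2 ≤ |(D : ℝ)| := ((le_max_right _ _).trans (le_max_left _ _)).trans hP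
  have h3 : 1 ≤ |(D : ℝ)| := (le_max_right _ _).trans hP
  apply hm D a q h2 ha hq hs hD
  apply hb D a q h1 ha hq hs hD
  obtain ⟨p₀, hp₀, hps⟩ := hol
  refine ⟨p₀, hp₀.trans (Real.rpow_le_rpow_of_exponent_le h3 (by linarith)), ?_⟩
  intro p hp hpq hpp
  refine (hps p hp hpq hpp).trans (Real.rpow_le_rpow_of_exponent_le h3 (by linarith))

open Pool.Agent.H568.GR.FinAux in
theorem fin2 (l : ℕ) (ε : ℝ) (hl : 1 ≤ l) (hε : 0 < ε) :
    ∃ C : ℝ, ∀ (K : Type) [Field K] [NumberField K], Module.finrank ℚ K = 2 →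
      OneLarge (discr K).natAbs (|(discr K : ℝ)| ^ (1 / (2 * l) - ε : ℝ))
        (|(discr K : ℝ)| ^ (1 / l - ε : ℝ)) →
      (Nat.card {c : ClassGroup (𝓞 K) // c ^ l = 1} : ℝ) ≤
        C * |(discr K : ℝ)| ^ (1 / 2 - 1 / (2 * l) + ε : ℝ) := by
  obtain ⟨C1, hC1, hPOS⟩ := pos
  obtain ⟨C2, hC2, hCNB⟩ := cnb
  have hlR : (1 : ℝ) ≤ l := by exact_mod_cast hl
  obtain ⟨θ, hθ⟩ : ∃ θ : ℝ, θ = 1 / (2 * l) := ⟨_, rfl⟩
  have hθ0 : 0 < θ := by rw [hθ]; positivity
  have hθ1 : θ ≤ 1 / 2 := by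
    rw [hθ]
    apply one_div_le_one_div_of_le (by norm_num)
    linarith
  obtain ⟨ε1, hε1d⟩ : ∃ ε1 : ℝ, ε1 = min (ε / 2) (θ / 8) := ⟨_, rfl⟩
  have hε1 : 0 < ε1 := by rw [hε1d]; exact lt_min (by positivity) (by linarith)
  have hε1ε2 : ε1 ≤ ε / 2 := by rw [hε1d]; exact min_le_left _ _
  have hε1ε : ε1 ≤ ε := by linarith
  have hε1θ : ε1 ≤ θ / 8 := by rw [hε1d]; exact min_le_right _ _
  obtain ⟨P0, hMNB⟩ := mnb2 θ ε1 hε1 hε1θ hθ1
  obtain ⟨P1, hP1⟩ : ∃ P1 : ℝ, P1 = (4 * Real.exp (l + 1)) ^ (2 / ((l : ℝ) * ε1)) := ⟨_, rfl⟩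
  obtain ⟨P2, hP2⟩ : ∃ P2 : ℝ, P2 = max (max P0 P1) 1 := ⟨_, rfl⟩
  have hP2a : P0 ≤ P2 := by rw [hP2]; exact (le_max_left _ _).trans (le_max_left _ _)
  have hP2b : P1 ≤ P2 := by rw [hP2]; exact (le_max_right _ _).trans (le_max_left _ _)
  have hP2c : 1 ≤ P2 := by rw [hP2]; exact le_max_right _ _
  have hlog2 : 0 ≤ Real.log P2 := Real.log_nonneg hP2c
  refine ⟨max C1 C2 * (2 / ε1) + C2 * √P2 * Real.log P2, ?_⟩
  intro K _ _ hK hsm
  rw [← hθ] at hsm
  rw [← hθ]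
  change (tor K l : ℝ) ≤ _
  have hP := one_le_discr K
  have hCmax : 0 ≤ max C1 C2 := hC1.le.trans (le_max_left _ _)
  have hpow1 : 1 ≤ |(discr K : ℝ)| ^ (1 / 2 - θ + ε) :=
    Real.one_le_rpow hP (by linarith)
  have hcn := hCNB K hK
  have htor : (tor K l : ℝ) ≤ Nat.card (ClassGroup (𝓞 K)) := by exact_mod_cast tor_le K l
  by_cases hbig : |(discr K : ℝ)| ≤ P2
  · -- small discriminants
    have h1 : (tor K l : ℝ) ≤ C2 * √P2 * Real.log P2 := by
      refine htor.trans (hcn.trans ?_)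
      have h2 : √|(discr K : ℝ)| ≤ √P2 := Real.sqrt_le_sqrt hbig
      have h3 : Real.log |(discr K : ℝ)| ≤ Real.log P2 :=
        Real.log_le_log (by linarith) hbig
      have h4 : 0 ≤ Real.log |(discr K : ℝ)| := Real.log_nonneg hP
      gcongr
    have h5 : 0 ≤ C2 * √P2 * Real.log P2 := by positivity
    have h6 : 0 ≤ max C1 C2 * (2 / ε1) := by positivity
    calc (tor K l : ℝ) ≤ C2 * √P2 * Real.log P2 := h1
      _ ≤ max C1 C2 * (2 / ε1) + C2 * √P2 * Real.log P2 := by linarith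
      _ = (max C1 C2 * (2 / ε1) + C2 * √P2 * Real.log P2) * 1 := by ring
      _ ≤ _ := mul_le_mul_of_nonneg_left hpow1 (by linarith)
  · push Not at hbig
    obtain ⟨a, q, ha, hqo, hqs, hq⟩ := fund K hK
    have hM := hMNB (discr K) a q (hP2a.trans hbig.le) ha hqo hqs hq (by
      obtain ⟨p₀, hp₀, hps⟩ := hsm
      refine ⟨p₀, hp₀.trans (Real.rpow_le_rpow_of_exponent_le hP ?_), ?_⟩
      · have e1 : 1 / (l : ℝ) = 2 * θ := by
          rw [hθ]
          field_simp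
        rw [e1]
        linarith
      · intro p hp hpq hpp
        have h1 : p ∣ (discr K).natAbs := by
          rw [hq]
          exact Dvd.dvd.mul_left hpq _
        refine (hps p hp h1 hpp).trans ?_
        exact Real.rpow_le_rpow_of_exponent_le hP (by linarith))
    have hbase : (1 : ℝ) ≤ 4 * Real.exp (l + 1) := by
      have := Real.add_one_le_exp ((l : ℝ) + 1)
      linarith
    have hle : 0 < (l : ℝ) * ε1 / 2 := by positivity
    have hexp : 4 * Real.exp (l + 1) < |(discr K : ℝ)| ^ ((l : ℝ) * ε1 / 2) := by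
      have h1 : P1 < |(discr K : ℝ)| := hP2b.trans_lt hbig
      have h2 : P1 ^ ((l : ℝ) * ε1 / 2) < |(discr K : ℝ)| ^ ((l : ℝ) * ε1 / 2) :=
        Real.rpow_lt_rpow (by rw [hP1]; positivity) h1 hle
      have h3 : P1 ^ ((l : ℝ) * ε1 / 2) = 4 * Real.exp (l + 1) := by
        rw [hP1, ← Real.rpow_mul (by positivity)]
        rw [show 2 / ((l : ℝ) * ε1) * ((l : ℝ) * ε1 / 2) = 1 by field_simp, Real.rpow_one]
      rwa [h3] at h2
    have hN := size_N hl hθ hP hexp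
    have hkey : (tor K l : ℝ) * (MM (discr K) ⌊|(discr K : ℝ)| ^ (θ - ε1 / 4)⌋₊).card ≤
        max C1 C2 * √|(discr K : ℝ)| * Real.log |(discr K : ℝ)| := by
      have hnn : 0 ≤ √|(discr K : ℝ)| * Real.log |(discr K : ℝ)| :=
        mul_nonneg (Real.sqrt_nonneg _) (Real.log_nonneg hP)
      rcases lt_or_gt_of_ne (discr_ne_zero K) with hneg | hpos
      · have h1 : 4 * (⌊|(discr K : ℝ)| ^ (θ - ε1 / 4)⌋₊ ^ 2) ^ l < (discr K).natAbs := by
          have h2 : 4 * (((⌊|(discr K : ℝ)| ^ (θ - ε1 / 4)⌋₊ : ℕ) : ℝ) ^ 2) ^ l <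
              |(discr K : ℝ)| := by
            refine lt_of_le_of_lt ?_ hN
            refine le_mul_of_one_le_right (by positivity) ?_
            exact Real.one_le_exp (by positivity)
          have h3 : |(discr K : ℝ)| = (((discr K).natAbs : ℕ) : ℝ) := by
            rw [Nat.cast_natAbs, Int.cast_abs]
          generalize ⌊|(discr K : ℝ)| ^ (θ - ε1 / 4)⌋₊ = N at h2 ⊢
          rw [h3] at h2
          exact_mod_cast h2
        have h4 := neg K hK hneg l _ hl h1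
        have h5 : (tor K l : ℝ) * (MM (discr K) ⌊|(discr K : ℝ)| ^ (θ - ε1 / 4)⌋₊).card ≤
            Nat.card (ClassGroup (𝓞 K)) := by exact_mod_cast h4
        refine h5.trans (hcn.trans ?_)
        rw [mul_assoc, mul_assoc]
        exact mul_le_mul_of_nonneg_right (le_max_right _ _) hnn
      · have h1 := hPOS K hK hpos l _ hl hN
        refine h1.trans ?_
        rw [mul_assoc, mul_assoc]
        exact mul_le_mul_of_nonneg_right (le_max_left _ _) hnn
    have hfinal := expo (t := (tor K l : ℝ)) hε1 hε1ε hP hCmax (by positivity) hM hkey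
    refine hfinal.trans ?_
    refine mul_le_mul_of_nonneg_right ?_ (by positivity)
    have h5 : 0 ≤ C2 * √P2 * Real.log P2 := by positivity
    linarith

end Pool.Agent.H473.SM
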