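import Mathlib

set_option autoImplicit false

/-!
The `q`-analogue of van der Corput's method: sums of `f g` over an interval, `f` a product of
arbitrary bounded periodic functions with small periods.
-/

namespace Pool.Agent.H473.SM

open Finset

/-- a shift of a function which vanishes outside of an interval -/
theorem sum_shift (v : ℤ → ℂ) (a b : ℤ) (hv : ∀ n, n ∉ Ioc a b → v n = 0) (s K : ℤ)
    (hs : 0 ≤ s) (hK : s ≤ K) : ∑ n ∈ Ioc (a - K) b, v (n + s) = ∑ n ∈ Ioc a b, v n := by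
  have h1 : ∑ n ∈ Ioc (a - K) b, v (n + s) = ∑ n ∈ Ioc (a - K + s) (b + s), v n := by
    rw [← Finset.map_add_right_Ioc, Finset.sum_map]
    rfl
  rw [h1]
  symm
  apply Finset.sum_subset
  · intro x hx
    rw [mem_Ioc] at hx ⊢
    omega
  · intro x _ hx
    exact hv x hx

/-- the sum over an interval of the product with a shift -/
theorem sum_pair (g : ℤ → ℂ) (a b : ℤ) (s t K : ℤ) (hs : 0 ≤ s) (ht : 0 ≤ t) (hK : s + t ≤ K) :
    ∑ n ∈ Ioc (a - K) b, (if n + (s + t) ∈ Ioc a b then g (n + (s + t)) else 0) *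
      (starRingEnd ℂ) (if n + t ∈ Ioc a b then g (n + t) else 0) =
    ∑ n ∈ Ioc a (b - s), g (n + s) * (starRingEnd ℂ) (g n) := by
  have h1 := sum_shift (fun n => (if n + s ∈ Ioc a b then g (n + s) else 0) *
    (starRingEnd ℂ) (if n ∈ Ioc a b then g n else 0)) a b (by
      intro n hn
      simp only [if_neg hn, map_zero, mul_zero]) t K ht (by omega)
  have h2 : ∀ n : ℤ, n + t + s = n + (s + t) := fun n => by ring
  simp only [h2] at h1
  rw [h1]
  have h3 : Ioc a (b - s) ⊆ Ioc a b := by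
    intro x hx
    rw [mem_Ioc] at hx ⊢
    omega
  rw [← Finset.sum_subset h3]
  · apply sum_congr rfl
    intro n hn
    have h4 : n + s ∈ Ioc a b := by
      rw [mem_Ioc] at hn ⊢
      omega
    rw [if_pos h4, if_pos (h3 hn)]
  · intro n hn hn'
    have h4 : n + s ∉ Ioc a b := by
      rw [mem_Ioc] at hn hn' ⊢
      omega
    rw [if_neg h4, zero_mul]

theorem card_Ioc_le (a b : ℤ) (N : ℝ) (hN : ((b - a : ℤ) : ℝ) ≤ N) (hN0 : 0 ≤ N) :
    ((Ioc a b).card : ℝ) ≤ N := by
  rw [Int.card_Ioc]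
  rcases le_or_gt 0 (b - a) with h | h
  · have : (((b - a).toNat : ℕ) : ℝ) = ((b - a : ℤ) : ℝ) := by
      have h1 : (((b - a).toNat : ℕ) : ℤ) = b - a := Int.toNat_of_nonneg h
      exact_mod_cast congrArg (fun z : ℤ => (z : ℝ)) h1
    rw [this]
    exact hN
  · rw [Int.toNat_of_nonpos h.le]
    simpa using hN0

/-- a double sum over a symmetric function of the distance -/
theorem sum_dist (φ : ℕ → ℝ) (hφ : ∀ l, 0 ≤ φ l) (H : ℕ) (hH : 1 ≤ H) (h : ℕ) (hh : h < H) :
    ∑ h' ∈ range H, φ (Nat.dist h h') ≤ φ 0 + 2 * ∑ l ∈ Icc 1 (H - 1), φ l := by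
  have e1 : range H = insert 0 (Icc 1 (H - 1)) := by
    ext x
    simp only [mem_range, mem_insert, mem_Icc]
    omega
  have e2 : ∑ l ∈ range H, ∑ h' ∈ (range H).filter (fun h' => Nat.dist h h' = l), φ (Nat.dist h h') =
      ∑ h' ∈ range H, φ (Nat.dist h h') := by
    apply Finset.sum_fiberwise_of_maps_to
    intro x hx
    rw [mem_range] at hx ⊢
    unfold Nat.dist
    omega
  rw [← e2, e1, sum_insert (by simp), ← e1, mul_sum]
  apply add_le_add
  · have : (range H).filter (fun h' => Nat.dist h h' = 0) ⊆ {h} := by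
      intro x hx
      rw [mem_filter] at hx
      rw [mem_singleton]
      have := hx.2
      unfold Nat.dist at this
      omega
    refine (Finset.sum_le_sum_of_subset_of_nonneg this fun _ _ _ => hφ _).trans ?_
    rw [sum_singleton, Nat.dist_self]
  · apply sum_le_sum
    intro l _
    have : (range H).filter (fun h' => Nat.dist h h' = l) ⊆ {h - l, h + l} := by
      intro x hx
      rw [mem_filter] at hx
      rw [mem_insert, mem_singleton]
      have := hx.2
      unfold Nat.dist at this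
      omega
    calc ∑ h' ∈ (range H).filter (fun h' => Nat.dist h h' = l), φ (Nat.dist h h')
        = ∑ h' ∈ (range H).filter (fun h' => Nat.dist h h' = l), φ l := by
          apply sum_congr rfl
          intro x hx
          rw [(mem_filter.1 hx).2]
      _ = ((range H).filter (fun h' => Nat.dist h h' = l)).card * φ l := by
          rw [sum_const, nsmul_eq_mul]
      _ ≤ 2 * φ l := by
          apply mul_le_mul_of_nonneg_right _ (hφ l)
          have := (card_le_card this).trans Finset.card_le_two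
          exact_mod_cast this

/-- one step of the method -/
theorem vdc (f g : ℤ → ℂ) (m H : ℕ) (hH : 1 ≤ H) (hf : ∀ n, f (n + m) = f n)
    (hf1 : ∀ n, ‖f n‖ ≤ 1) (hg1 : ∀ n, ‖g n‖ ≤ 1) (a b : ℤ) (N : ℝ) (hN : ((b - a : ℤ) : ℝ) ≤ N)
    (hHm : (H : ℝ) * m ≤ N) :
    ‖∑ n ∈ Ioc a b, f n * g n‖ ^ 2 ≤ 2 * N / H * (N + 2 * ∑ l ∈ Icc 1 (H - 1),
      ‖∑ n ∈ Ioc a (b - ((l * m : ℕ) : ℤ)), g (n + ((l * m : ℕ) : ℤ)) * (starRingEnd ℂ) (g n)‖) := by
  have hN0 : 0 ≤ N := le_trans (by positivity) hHm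
  have hHr : (0 : ℝ) < H := by exact_mod_cast hH
  set c : ℕ → ℝ := fun l =>
    ‖∑ n ∈ Ioc a (b - ((l * m : ℕ) : ℤ)), g (n + ((l * m : ℕ) : ℤ)) * (starRingEnd ℂ) (g n)‖ with hc
  set K : ℤ := ((H * m : ℕ) : ℤ) with hK
  set J := Ioc (a - K) b with hJ
  set u : ℤ → ℂ := fun n => if n ∈ Ioc a b then g n else 0 with hu
  set S := ∑ n ∈ Ioc a b, f n * g n with hS
  have hfm : ∀ (h : ℕ) (n : ℤ), f (n + ((h * m : ℕ) : ℤ)) = f n := by
    intro h n
    induction h with
    | zero => simp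
    | succ h ih =>
      have : n + (((h + 1) * m : ℕ) : ℤ) = n + ((h * m : ℕ) : ℤ) + m := by push_cast; ring
      rw [this, hf, ih]
  have hsh : ∀ h ∈ range H, ∑ n ∈ J, f n * u (n + ((h * m : ℕ) : ℤ)) = S := by
    intro h hh
    rw [mem_range] at hh
    have hle : ((h * m : ℕ) : ℤ) ≤ K := by
      rw [hK]
      exact_mod_cast Nat.mul_le_mul_right m hh.le
    have h1 := sum_shift (fun n => f n * u n) a b (by
      intro n hn
      simp only [hu, if_neg hn, mul_zero]) ((h * m : ℕ) : ℤ) K (by positivity) hle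
    calc ∑ n ∈ J, f n * u (n + ((h * m : ℕ) : ℤ))
        = ∑ n ∈ J, f (n + ((h * m : ℕ) : ℤ)) * u (n + ((h * m : ℕ) : ℤ)) :=
          sum_congr rfl fun n _ => by rw [hfm h n]
      _ = ∑ n ∈ Ioc a b, f n * u n := h1
      _ = S := sum_congr rfl fun n hn => by simp only [hu, if_pos hn]
  have hHS : (H : ℂ) * S = ∑ n ∈ J, f n * ∑ h ∈ range H, u (n + ((h * m : ℕ) : ℤ)) := by
    calc (H : ℂ) * S = ∑ h ∈ range H, S := by rw [sum_const, card_range, nsmul_eq_mul]
      _ = ∑ h ∈ range H, ∑ n ∈ J, f n * u (n + ((h * m : ℕ) : ℤ)) :=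
          sum_congr rfl fun h hh => (hsh h hh).symm
      _ = ∑ n ∈ J, ∑ h ∈ range H, f n * u (n + ((h * m : ℕ) : ℤ)) := sum_comm
      _ = _ := sum_congr rfl fun n _ => (mul_sum _ _ _).symm
  -- Cauchy-Schwarz
  have hcs : ((H : ℝ) * ‖S‖) ^ 2 ≤ (J.card : ℝ) *
      ∑ n ∈ J, ‖∑ h ∈ range H, u (n + ((h * m : ℕ) : ℤ))‖ ^ 2 := by
    have h1 : (H : ℝ) * ‖S‖ ≤ ∑ n ∈ J, ‖∑ h ∈ range H, u (n + ((h * m : ℕ) : ℤ))‖ := by
      have : (H : ℝ) * ‖S‖ = ‖(H : ℂ) * S‖ := by rw [norm_mul, Complex.norm_natCast]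
      rw [this, hHS]
      refine (norm_sum_le _ _).trans (sum_le_sum fun n _ => ?_)
      rw [norm_mul]
      calc ‖f n‖ * _ ≤ 1 * _ := mul_le_mul_of_nonneg_right (hf1 n) (norm_nonneg _)
        _ = _ := one_mul _
    have h2 := Finset.sum_mul_sq_le_sq_mul_sq J (fun _ => (1 : ℝ))
      (fun n => ‖∑ h ∈ range H, u (n + ((h * m : ℕ) : ℤ))‖)
    simp only [one_mul, one_pow, sum_const, nsmul_eq_mul, mul_one] at h2
    exact (pow_le_pow_left₀ (by positivity) h1 2).trans h2
  have hJc : (J.card : ℝ) ≤ 2 * N := by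
    apply card_Ioc_le _ _ _ _ (by linarith)
    have : ((b - (a - K) : ℤ) : ℝ) = ((b - a : ℤ) : ℝ) + H * m := by
      rw [hK]; push_cast; ring
    rw [this]
    linarith
  -- the double sum
  have hpair : ∀ h h' : ℕ, h < H → h' < H → ‖∑ n ∈ J, u (n + ((h * m : ℕ) : ℤ)) *
      (starRingEnd ℂ) (u (n + ((h' * m : ℕ) : ℤ)))‖ ≤ c (Nat.dist h h') := by
    have key : ∀ h h' : ℕ, h < H → h' ≤ h → ‖∑ n ∈ J, u (n + ((h * m : ℕ) : ℤ)) *
        (starRingEnd ℂ) (u (n + ((h' * m : ℕ) : ℤ)))‖ = c (h - h') := by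
      intro h h' hh hle
      have e1 : ((h * m : ℕ) : ℤ) = (((h - h') * m : ℕ) : ℤ) + ((h' * m : ℕ) : ℤ) := by
        rw [← Nat.cast_add, ← add_mul, Nat.sub_add_cancel hle]
      have h2 := sum_pair g a b (((h - h') * m : ℕ) : ℤ) ((h' * m : ℕ) : ℤ) K
        (by positivity) (by positivity) (by
          rw [← e1, hK]
          exact_mod_cast Nat.mul_le_mul_right m hh.le)
      rw [hc]
      simp only [hu, hJ]
      rw [← h2, e1]
    intro h h' hh hh'
    rcases le_total h' h with hle | hle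
    · rw [key h h' hh hle]
      apply le_of_eq
      congr 1
      unfold Nat.dist
      omega
    · have h3 := key h' h hh' hle
      have h4 : ‖∑ n ∈ J, u (n + ((h * m : ℕ) : ℤ)) * (starRingEnd ℂ) (u (n + ((h' * m : ℕ) : ℤ)))‖ =
          ‖∑ n ∈ J, u (n + ((h' * m : ℕ) : ℤ)) * (starRingEnd ℂ) (u (n + ((h * m : ℕ) : ℤ)))‖ := by
        rw [← Complex.norm_conj, map_sum]
        congr 1
        apply sum_congr rfl
        intro n _
        rw [map_mul, Complex.conj_conj, mul_comm]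
      rw [h4, h3]
      apply le_of_eq
      congr 1
      unfold Nat.dist
      omega
  have hsq : ∑ n ∈ J, ‖∑ h ∈ range H, u (n + ((h * m : ℕ) : ℤ))‖ ^ 2 ≤
      ∑ h ∈ range H, ∑ h' ∈ range H, c (Nat.dist h h') := by
    have h1 : ((∑ n ∈ J, ‖∑ h ∈ range H, u (n + ((h * m : ℕ) : ℤ))‖ ^ 2 : ℝ) : ℂ) =
        ∑ h ∈ range H, ∑ h' ∈ range H, ∑ n ∈ J, u (n + ((h * m : ℕ) : ℤ)) *
          (starRingEnd ℂ) (u (n + ((h' * m : ℕ) : ℤ))) := by
      rw [Complex.ofReal_sum]
      simp only [Complex.ofReal_pow]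
      calc _ = ∑ n ∈ J, ∑ h ∈ range H, ∑ h' ∈ range H, u (n + ((h * m : ℕ) : ℤ)) *
            (starRingEnd ℂ) (u (n + ((h' * m : ℕ) : ℤ))) := by
            apply sum_congr rfl
            intro n _
            rw [← Complex.mul_conj', map_sum, Finset.sum_mul_sum]
        _ = ∑ h ∈ range H, ∑ n ∈ J, ∑ h' ∈ range H, u (n + ((h * m : ℕ) : ℤ)) *
            (starRingEnd ℂ) (u (n + ((h' * m : ℕ) : ℤ))) := sum_comm
        _ = _ := sum_congr rfl fun h _ => sum_comm
    have h2 : ∑ n ∈ J, ‖∑ h ∈ range H, u (n + ((h * m : ℕ) : ℤ))‖ ^ 2 =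
        ‖∑ h ∈ range H, ∑ h' ∈ range H, ∑ n ∈ J, u (n + ((h * m : ℕ) : ℤ)) *
          (starRingEnd ℂ) (u (n + ((h' * m : ℕ) : ℤ)))‖ := by
      rw [← h1, Complex.norm_real, Real.norm_eq_abs, abs_of_nonneg]
      exact sum_nonneg fun _ _ => by positivity
    rw [h2]
    refine (norm_sum_le _ _).trans (sum_le_sum fun h hh => ?_)
    refine (norm_sum_le _ _).trans (sum_le_sum fun h' hh' => ?_)
    exact hpair h h' (mem_range.1 hh) (mem_range.1 hh')
  have hc0 : ∀ l, 0 ≤ c l := fun l => norm_nonneg _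
  have hc00 : c 0 ≤ N := by
    simp only [hc, Nat.zero_mul, Nat.cast_zero, sub_zero, add_zero]
    refine (norm_sum_le _ _).trans ?_
    calc ∑ n ∈ Ioc a b, ‖g n * (starRingEnd ℂ) (g n)‖ ≤ ∑ n ∈ Ioc a b, (1 : ℝ) := by
          apply sum_le_sum
          intro n _
          rw [norm_mul, Complex.norm_conj]
          exact mul_le_one₀ (hg1 n) (norm_nonneg _) (hg1 n)
      _ = ((Ioc a b).card : ℝ) := by rw [sum_const, nsmul_eq_mul, mul_one]
      _ ≤ N := card_Ioc_le _ _ _ hN hN0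
  have hdd : ∑ h ∈ range H, ∑ h' ∈ range H, c (Nat.dist h h') ≤
      H * (N + 2 * ∑ l ∈ Icc 1 (H - 1), c l) := by
    calc _ ≤ ∑ h ∈ range H, (N + 2 * ∑ l ∈ Icc 1 (H - 1), c l) := by
          apply sum_le_sum
          intro h hh
          refine (sum_dist c hc0 H hH h (mem_range.1 hh)).trans ?_
          linarith
      _ = _ := by rw [sum_const, card_range, nsmul_eq_mul]
  have hfin : ((H : ℝ) * ‖S‖) ^ 2 ≤ 2 * N * (H * (N + 2 * ∑ l ∈ Icc 1 (H - 1), c l)) :=
    hcs.trans (mul_le_mul hJc (hsq.trans hdd) (sum_nonneg fun _ _ => by positivity) (by linarith))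
  rw [mul_pow] at hfin
  have h5 : 2 * N / H * (N + 2 * ∑ l ∈ Icc 1 (H - 1), c l) =
      (2 * N * (H * (N + 2 * ∑ l ∈ Icc 1 (H - 1), c l))) / (H : ℝ) ^ 2 := by
    field_simp
  rw [h5, le_div_iff₀ (by positivity)]
  linarith

/-- iterated differences -/
def Dl : List ℕ → (ℤ → ℂ) → ℤ → ℂ
  | [], g => g
  | (s :: ss), g => Dl ss (fun n => g (n + s) * (starRingEnd ℂ) (g n))

/-- products of bounded functions with the periods `ms` -/
def Per : List ℕ → (ℤ → ℂ) → Prop
  | [], f => ∀ n, f n = 1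
  | (m :: ms), f => ∃ u v : ℤ → ℂ, (∀ n, u (n + m) = u n) ∧ (∀ n, ‖u n‖ ≤ 1) ∧ Per ms v ∧
      ∀ n, f n = u n * v n

/-- averages over the multiples of the periods -/
noncomputable def Av (H : ℕ) : List ℕ → (List ℕ → ℝ) → ℝ
  | [], F => F []
  | (m :: ms), F => (∑ l ∈ Icc 1 (H - 1), Av H ms (fun ss => F ((l * m) :: ss))) / H

theorem Per.norm_le : ∀ (ms : List ℕ) (f : ℤ → ℂ), Per ms f → ∀ n, ‖f n‖ ≤ 1
  | [], f, h, n => by rw [h n, norm_one]
  | (m :: ms), f, ⟨u, v, _, hu, hv, hf⟩, n => by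
    rw [hf n, norm_mul]
    exact mul_le_one₀ (hu n) (norm_nonneg _) (Per.norm_le ms v hv n)

theorem Per.shift : ∀ (ms : List ℕ) (f : ℤ → ℂ) (s : ℤ), Per ms f →
    Per ms (fun n => f (n + s) * (starRingEnd ℂ) (f n))
  | [], f, s, h => by
    intro n
    have h' : ∀ n, f n = 1 := h
    simp only [h', map_one, mul_one]
  | (m :: ms), f, s, ⟨u, v, hu, hu1, hv, hf⟩ => by
    refine ⟨fun n => u (n + s) * (starRingEnd ℂ) (u n), fun n => v (n + s) * (starRingEnd ℂ) (v n),
      ?_, ?_, Per.shift ms v s hv, ?_⟩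
    · intro n
      have : n + (m : ℤ) + s = n + s + m := by ring
      simp only [this, hu]
    · intro n
      rw [norm_mul, Complex.norm_conj]
      exact mul_le_one₀ (hu1 _) (norm_nonneg _) (hu1 _)
    · intro n
      simp only [hf, map_mul]
      ring

theorem Av_nonneg (H : ℕ) : ∀ (ms : List ℕ) (F : List ℕ → ℝ),
    (∀ ss, ss.length = ms.length → 0 ≤ F ss) → 0 ≤ Av H ms F
  | [], F, h => h [] rfl
  | (m :: ms), F, h => by
    unfold Av
    apply div_nonneg _ (Nat.cast_nonneg _)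
    exact sum_nonneg fun l _ => Av_nonneg H ms _ fun ss hss => h _ (by simp [hss])

/-- the constants -/
noncomputable def CA : ℕ → ℝ
  | 0 => 1
  | (R + 1) => 2 ^ (2 ^ R) * (1 + 2 ^ (2 ^ R) * CA R)

theorem CA_pos : ∀ R, 0 < CA R
  | 0 => one_pos
  | (R + 1) => by
    unfold CA
    have := CA_pos R
    positivity

/-- the iterated inequality -/
theorem iter (H : ℕ) (hH : 1 ≤ H) (N : ℝ) (hN0 : 0 < N) : ∀ (ms : List ℕ),
    (∀ m ∈ ms, (H : ℝ) * m ≤ N) →
    ∀ (f g : ℤ → ℂ) (F : List ℕ → ℝ), Per ms f → (∀ n, ‖g n‖ ≤ 1) →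
    (∀ ss : List ℕ, ss.length = ms.length → ∀ a b : ℤ, ((b - a : ℤ) : ℝ) ≤ N →
      ‖∑ n ∈ Ioc a b, Dl ss g n‖ ≤ F ss) →
    ∀ a b : ℤ, ((b - a : ℤ) : ℝ) ≤ N →
      ‖∑ n ∈ Ioc a b, f n * g n‖ ^ (2 ^ ms.length) ≤
        CA ms.length * N ^ (2 ^ ms.length - 1) * (N / H + Av H ms F)
  | [], _, f, g, F, hf, hg, hF, a, b, hab => by
    have h1 := hF [] rfl a b hab
    simp only [List.length_nil, pow_zero, pow_one, Nat.sub_self, CA, one_mul, Av]
    have h2 : ∑ n ∈ Ioc a b, f n * g n = ∑ n ∈ Ioc a b, Dl [] g n :=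
      sum_congr rfl fun n _ => by rw [hf n, one_mul]; rfl
    rw [h2]
    have : 0 ≤ N / H := by positivity
    linarith
  | (m :: ms), hm, f, g, F, ⟨u, v, hu, hu1, hv, hfe⟩, hg, hF, a, b, hab => by
    have hHr : (0 : ℝ) < H := by exact_mod_cast hH
    have hvn := Per.norm_le ms v hv
    have hmN : (H : ℝ) * m ≤ N := hm m List.mem_cons_self
    have hms : ∀ m' ∈ ms, (H : ℝ) * m' ≤ N := fun m' hm' => hm m' (List.mem_cons_of_mem _ hm')
    set K := 2 ^ ms.length with hK
    have hK1 : 1 ≤ K := Nat.one_le_two_pow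
    set T : ℕ → ℝ := fun l => ‖∑ n ∈ Ioc a (b - ((l * m : ℕ) : ℤ)),
      (v (n + ((l * m : ℕ) : ℤ)) * (starRingEnd ℂ) (v n)) *
        (g (n + ((l * m : ℕ) : ℤ)) * (starRingEnd ℂ) (g n))‖ with hT
    have hstep : ‖∑ n ∈ Ioc a b, f n * g n‖ ^ 2 ≤ 2 * N / H * (N + 2 * ∑ l ∈ Icc 1 (H - 1), T l) := by
      have h1 := vdc u (fun n => v n * g n) m H hH hu hu1 (fun n => by
        rw [norm_mul]; exact mul_le_one₀ (hvn n) (norm_nonneg _) (hg n)) a b N hab hmN
      have e1 : ∑ n ∈ Ioc a b, f n * g n = ∑ n ∈ Ioc a b, u n * (v n * g n) :=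
        sum_congr rfl fun n _ => by rw [hfe n, mul_assoc]
      rw [e1]
      refine h1.trans (le_of_eq ?_)
      congr 3
      apply sum_congr rfl
      intro l _
      rw [hT]
      simp only
      congr 1
      apply sum_congr rfl
      intro n _
      rw [map_mul]
      ring
    have hTl : ∀ l ∈ Icc 1 (H - 1), T l ^ K ≤ CA ms.length * N ^ (K - 1) *
        (N / H + Av H ms (fun ss => F ((l * m) :: ss))) := by
      intro l _
      apply iter H hH N hN0 ms hms (fun n => v (n + ((l * m : ℕ) : ℤ)) * (starRingEnd ℂ) (v n))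
        (fun n => g (n + ((l * m : ℕ) : ℤ)) * (starRingEnd ℂ) (g n)) (fun ss => F ((l * m) :: ss))
        (Per.shift ms v _ hv)
      · intro n
        rw [norm_mul, Complex.norm_conj]
        exact mul_le_one₀ (hg _) (norm_nonneg _) (hg _)
      · intro ss hss a' b' hab'
        exact hF ((l * m) :: ss) (by simp [hss]) a' b' hab'
      · refine le_trans ?_ hab
        have : b - ((l * m : ℕ) : ℤ) - a ≤ b - a := by
          have : (0 : ℤ) ≤ ((l * m : ℕ) : ℤ) := Nat.cast_nonneg _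
          linarith
        exact_mod_cast this
    -- the power mean
    set x : ℕ → ℝ := fun i => if i = 0 then N else 2 * T i with hx
    have hx0 : ∀ i, 0 ≤ x i := by
      intro i
      simp only [hx]
      split_ifs
      · exact hN0.le
      · have : 0 ≤ T i := norm_nonneg _
        linarith
    have er : range H = insert 0 (Icc 1 (H - 1)) := by
      ext y
      simp only [mem_range, mem_insert, mem_Icc]
      omega
    have hsx : ∀ φ : ℝ → ℝ, ∑ i ∈ range H, φ (x i) = φ N + ∑ l ∈ Icc 1 (H - 1), φ (2 * T l) := by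
      intro φ
      rw [er, sum_insert (by simp)]
      congr 1
      apply sum_congr rfl
      intro l hl
      rw [mem_Icc] at hl
      have : l ≠ 0 := by omega
      simp only [hx, if_neg this]
    have hpm : ((N + 2 * ∑ l ∈ Icc 1 (H - 1), T l) / H) ^ K ≤
        (N ^ K + 2 ^ K * ∑ l ∈ Icc 1 (H - 1), T l ^ K) / H := by
      have h1 := Real.pow_arith_mean_le_arith_mean_pow (range H) (fun _ => 1 / (H : ℝ)) x
        (fun _ _ => by positivity) (by
          rw [sum_const, card_range, nsmul_eq_mul]; field_simp) (fun i _ => hx0 i) K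
      rw [← mul_sum, ← mul_sum] at h1
      have h2 : ∑ i ∈ range H, x i = N + 2 * ∑ l ∈ Icc 1 (H - 1), T l := by
        rw [mul_sum]
        exact hsx (fun y => y)
      have h3 : ∑ i ∈ range H, x i ^ K = N ^ K + 2 ^ K * ∑ l ∈ Icc 1 (H - 1), T l ^ K := by
        rw [mul_sum]
        refine (hsx (fun y => y ^ K)).trans ?_
        simp only [mul_pow]
      rw [h2, h3] at h1
      have e5 : ∀ y : ℝ, y / H = 1 / (H : ℝ) * y := fun y => by ring
      rw [e5 (N + 2 * ∑ l ∈ Icc 1 (H - 1), T l), e5 (N ^ K + 2 ^ K * ∑ l ∈ Icc 1 (H - 1), T l ^ K)]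
      exact h1
    have hpm2 : (N ^ K + 2 ^ K * ∑ l ∈ Icc 1 (H - 1), T l ^ K) / H ≤
        N ^ (K - 1) * (N / H + 2 ^ K * CA ms.length * (N / H + Av H (m :: ms) F)) := by
      have h1 : ∑ l ∈ Icc 1 (H - 1), T l ^ K ≤ CA ms.length * N ^ (K - 1) *
          (N + ∑ l ∈ Icc 1 (H - 1), Av H ms (fun ss => F ((l * m) :: ss))) := by
        refine (sum_le_sum hTl).trans ?_
        rw [← mul_sum, sum_add_distrib, sum_const, nsmul_eq_mul]
        apply mul_le_mul_of_nonneg_left _ (by have := CA_pos ms.length; positivity)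
        have h2 : (((Icc 1 (H - 1)).card : ℕ) : ℝ) * (N / H) ≤ N := by
          have h3 : (((Icc 1 (H - 1)).card : ℕ) : ℝ) ≤ H := by
            rw [Nat.card_Icc]
            exact_mod_cast (by omega : H - 1 + 1 - 1 ≤ H)
          calc _ ≤ (H : ℝ) * (N / H) := mul_le_mul_of_nonneg_right h3 (by positivity)
            _ = N := by field_simp
        linarith
      have e2 : N ^ K = N ^ (K - 1) * N := by
        rw [← pow_succ, Nat.sub_add_cancel hK1]
      unfold Av
      rw [div_le_iff₀ hHr]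
      calc N ^ K + 2 ^ K * ∑ l ∈ Icc 1 (H - 1), T l ^ K
          ≤ N ^ K + 2 ^ K * (CA ms.length * N ^ (K - 1) *
            (N + ∑ l ∈ Icc 1 (H - 1), Av H ms (fun ss => F ((l * m) :: ss)))) := by gcongr
        _ = _ := by
          rw [e2]
          field_simp
    calc ‖∑ n ∈ Ioc a b, f n * g n‖ ^ (2 ^ (m :: ms).length)
        = (‖∑ n ∈ Ioc a b, f n * g n‖ ^ 2) ^ K := by
          rw [← pow_mul, hK, List.length_cons, pow_succ']
      _ ≤ (2 * N / H * (N + 2 * ∑ l ∈ Icc 1 (H - 1), T l)) ^ K :=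
          pow_le_pow_left₀ (by positivity) hstep K
      _ = (2 * N) ^ K * ((N + 2 * ∑ l ∈ Icc 1 (H - 1), T l) / H) ^ K := by
          rw [← mul_pow]; congr 1; ring
      _ ≤ (2 * N) ^ K * (N ^ (K - 1) * (N / H + 2 ^ K * CA ms.length * (N / H + Av H (m :: ms) F))) := by
          gcongr
          exact hpm.trans hpm2
      _ ≤ _ := by
          have hAv : 0 ≤ Av H (m :: ms) F := by
            apply Av_nonneg
            intro ss hss
            exact (norm_nonneg _).trans (hF ss hss 0 0 (by simpa using hN0.le))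
          have e3 : CA (m :: ms).length = 2 ^ K * (1 + 2 ^ K * CA ms.length) := by
            rw [List.length_cons, CA]
          have e4 : N ^ (2 ^ (m :: ms).length - 1) = N ^ K * N ^ (K - 1) := by
            rw [← pow_add]
            congr 1
            rw [List.length_cons, pow_succ, ← hK]
            omega
          rw [e3, e4]
          have h6 : 0 ≤ N / H := by positivity
          have h7 : (0 : ℝ) ≤ 2 ^ K * N ^ K * N ^ (K - 1) := by positivity
          have h8 : N / H + 2 ^ K * CA ms.length * (N / H + Av H (m :: ms) F) ≤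
              (1 + 2 ^ K * CA ms.length) * (N / H + Av H (m :: ms) F) := by
            nlinarith
          calc (2 * N) ^ K * (N ^ (K - 1) * (N / H + 2 ^ K * CA ms.length * (N / H + Av H (m :: ms) F)))
              = 2 ^ K * N ^ K * N ^ (K - 1) * (N / H + 2 ^ K * CA ms.length * (N / H + Av H (m :: ms) F)) := by
                rw [mul_pow]; ring
            _ ≤ 2 ^ K * N ^ K * N ^ (K - 1) * ((1 + 2 ^ K * CA ms.length) * (N / H + Av H (m :: ms) F)) :=
                mul_le_mul_of_nonneg_left h8 h7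
            _ = _ := by ring

end Pool.Agent.H473.SM
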